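import Pool.Agent.P.MP_c7fa75_pr.L1.Top
import Pool.Agent.P.MP_c7fa75_pr.SP.B

/-! Series with logarithms, and the passage between environments and stacks. -/

set_option autoImplicit false

namespace Pool.Agent.P.MP_c7fa75_pr.HT

open MeasureTheory ProbabilityTheory Filter Topology Finset
open scoped ENNReal Classical
open Pool.Agent.P.MP_c7fa75_pr.T Pool.Agent.P.MP_c7fa75_pr.R2 Pool.Agent.P.MP_c7fa75_pr.SP

/-! ### Logarithms -/

theorem lg_lo {x y : ℝ} (hy : 0 < y) (hx : 0 < x) : (x - y) / x ≤ Real.log x - Real.log y := by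
  have h := Real.log_le_sub_one_of_pos (div_pos hy hx)
  rw [Real.log_div hy.ne' hx.ne'] at h
  have : (x - y) / x = 1 - y / x := by field_simp
  linarith

theorem lg_up {x y : ℝ} (hy : 0 < y) (hx : 0 < x) : Real.log x - Real.log y ≤ (x - y) / y := by
  have h := Real.log_le_sub_one_of_pos (div_pos hx hy)
  rw [Real.log_div hx.ne' hy.ne'] at h
  have : (x - y) / y = x / y - 1 := by field_simp
  linarith

theorem tl_up {x : ℝ} (hx : 1 < x) :
    1 / ((x + 1) * Real.log (x + 1) ^ 2) ≤ 1 / Real.log x - 1 / Real.log (x + 1) := by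
  have h0 := Real.log_pos hx
  have h1 : Real.log x ≤ Real.log (x + 1) := Real.log_le_log (by linarith) (by linarith)
  have h2 := lg_lo (show 0 < x by linarith) (show 0 < x + 1 by linarith)
  rw [add_sub_cancel_left] at h2
  generalize Real.log x = a at *
  generalize Real.log (x + 1) = b at *
  have b0 : 0 < b := by linarith
  calc 1 / ((x + 1) * b ^ 2) = 1 / (x + 1) / (b * b) := by field_simp
    _ ≤ (b - a) / (a * b) := div_le_div₀ (by linarith) h2 (by positivity) (by nlinarith)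
    _ = _ := by field_simp

theorem tl_lo {x : ℝ} (hx : 1 < x) :
    1 / Real.log x - 1 / Real.log (x + 1) ≤ 1 / (x * Real.log x ^ 2) := by
  have h0 := Real.log_pos hx
  have h1 : Real.log x ≤ Real.log (x + 1) := Real.log_le_log (by linarith) (by linarith)
  have h2 := lg_up (show 0 < x by linarith) (show 0 < x + 1 by linarith)
  rw [add_sub_cancel_left] at h2
  generalize Real.log x = a at *
  generalize Real.log (x + 1) = b at *
  have b0 : 0 < b := by linarith
  have x0 : 0 < x := by linarith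
  calc 1 / a - 1 / b = (b - a) / (a * b) := by field_simp
    _ ≤ 1 / x / (a * a) := div_le_div₀ (by positivity) h2 (by positivity) (by nlinarith)
    _ = _ := by field_simp

theorem exp_cmp {u v : ℕ → ℝ} (h : ∀ᶠ n in atTop, u (n + 1) - u n ≤ v (n + 1) - v n)
    (hs : Summable fun n => Real.exp (v n)) : Summable fun n => Real.exp (u n) := by
  obtain ⟨n0, h0⟩ := eventually_atTop.1 h
  have key : ∀ n, n0 ≤ n → u n ≤ u n0 - v n0 + v n := fun n hn => by
    induction n, hn using Nat.le_induction with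
    | base => linarith
    | succ n hn ih => linarith [h0 n hn]
  refine Summable.of_norm_bounded_eventually_nat (hs.mul_left (Real.exp (u n0 - v n0))) ?_
  filter_upwards [eventually_ge_atTop n0] with n hn
  rw [Real.norm_of_nonneg (Real.exp_pos _).le, ← Real.exp_add]
  exact Real.exp_le_exp.2 (key n hn)

/-- The logarithm of the term of a Bertrand series. -/
noncomputable def lb (a : ℝ) (n : ℕ) : ℝ :=
  -(Real.log (n + 2) + a * Real.log (Real.log (n + 2)))

theorem lg2 (n : ℕ) : 0 < Real.log ((n : ℝ) + 2) :=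
  Real.log_pos (by linarith [Nat.cast_nonneg (α := ℝ) n])

theorem lb_cond {a : ℝ} (ha : 0 ≤ a) :
    (Summable fun k : ℕ => (2 : ℝ) ^ k * Real.exp (lb a (2 ^ k))) ↔
      Summable fun n => Real.exp (lb a n) := by
  refine summable_condensed_iff_of_nonneg (f := fun n => Real.exp (lb a n))
    (fun n => (Real.exp_pos _).le) fun m n _ h => Real.exp_le_exp.2 ?_
  have h1 : (m : ℝ) ≤ n := by exact_mod_cast h
  have h2 : Real.log ((m : ℝ) + 2) ≤ Real.log ((n : ℝ) + 2) :=
    Real.log_le_log (by positivity) (by linarith)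
  have h3 := mul_le_mul_of_nonneg_left (Real.log_le_log (lg2 m) h2) ha
  unfold lb
  linarith

theorem exp_lb (a : ℝ) (n : ℕ) :
    Real.exp (lb a n) = 1 / ((n : ℝ) + 2) * Real.log ((n : ℝ) + 2) ^ (-a) := by
  rw [Real.rpow_def_of_pos (lg2 n), lb, neg_add, Real.exp_add, Real.exp_neg,
    Real.exp_log (by positivity), one_div]
  congr 2
  ring

theorem lb_summ {a : ℝ} (ha : 1 < a) : Summable fun n => Real.exp (lb a n) := by
  refine (lb_cond (by linarith)).1 ?_
  have h1 : Summable fun k : ℕ => ((k + 1 : ℕ) : ℝ) ^ (-a) :=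
    (summable_nat_add_iff (f := fun k : ℕ => (k : ℝ) ^ (-a)) 1).2
      (Real.summable_nat_rpow.2 (by linarith))
  refine Summable.of_nonneg_of_le (fun k => by positivity) (fun k => ?_)
    (h1.mul_left ((1 / 4 : ℝ) ^ (-a)))
  rw [exp_lb, ← Real.mul_rpow (by norm_num) (by positivity), ← mul_assoc]
  push_cast
  have p0 : (0 : ℝ) < 2 ^ k := by positivity
  have h2 : (2 : ℝ) ^ k * (1 / (2 ^ k + 2)) ≤ 1 := by
    rw [mul_one_div, div_le_one (by positivity)]
    linarith
  have h3 : Real.log (2 ^ k) ≤ Real.log ((2 : ℝ) ^ k + 2) := Real.log_le_log p0 (by linarith)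
  have h4 : Real.log 2 ≤ Real.log ((2 : ℝ) ^ k + 2) := Real.log_le_log two_pos (by linarith)
  rw [Real.log_pow] at h3
  have h5 := Real.log_two_gt_d9
  have h6 : (k : ℝ) * (1 / 2) ≤ k * Real.log 2 :=
    mul_le_mul_of_nonneg_left (by linarith) (Nat.cast_nonneg k)
  refine (mul_le_of_le_one_left (Real.rpow_nonneg (by linarith) _) h2).trans ?_
  exact Real.rpow_le_rpow_of_nonpos (by positivity) (by linarith) (by linarith)

theorem lb_one : ¬ Summable fun n => Real.exp (lb 1 n) := fun h => by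
  have h1 := (lb_cond zero_le_one).2 h
  refine Real.not_summable_one_div_natCast ((summable_nat_add_iff 2).1
    (Summable.of_nonneg_of_le (fun k => by positivity) (fun k => ?_) (h1.mul_left 3)))
  rw [exp_lb, Real.rpow_neg_one]
  push_cast
  have p1 : (1 : ℝ) ≤ 2 ^ k := one_le_pow₀ one_le_two
  have h2 : Real.log ((2 : ℝ) ^ k + 2) ≤ Real.log (2 ^ (k + 2)) :=
    Real.log_le_log (by positivity) (by rw [pow_add]; linarith)
  rw [Real.log_pow] at h2
  have h3 := Real.log_two_lt_d9
  have h4 : ((k + 2 : ℕ) : ℝ) * Real.log 2 ≤ ((k + 2 : ℕ) : ℝ) * 1 :=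
    mul_le_mul_of_nonneg_left (by linarith) (Nat.cast_nonneg _)
  push_cast at h2 h4
  have h5 : 0 < Real.log ((2 : ℝ) ^ k + 2) := Real.log_pos (by linarith)
  have h6 : 1 / ((k : ℝ) + 2) ≤ (Real.log ((2 : ℝ) ^ k + 2))⁻¹ := by
    rw [← one_div]
    exact one_div_le_one_div_of_le h5 (by linarith)
  have h7 : 1 ≤ 3 * ((2 : ℝ) ^ k * (1 / (2 ^ k + 2))) := by
    rw [mul_one_div, ← mul_div_assoc, le_div_iff₀ (by positivity)]
    linarith
  have h8 := mul_le_mul_of_nonneg_right h7 (inv_pos.2 h5).le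
  calc _ ≤ _ := h6
    _ ≤ _ := by linarith

theorem gg_log (κ : ℕ → ℝ) (n : ℕ) :
    Real.log (gg κ (n + 1)) - Real.log (gg κ n) = -(κ (n + 1) / ((n : ℝ) + 1)) := by
  rw [gg_succ, Real.log_mul (gg_pos _ _).ne' (Real.exp_pos _).ne', Real.log_exp]
  ring

theorem gg_summ {κ : ℕ → ℝ} {a : ℝ} (ha : 1 < a)
    (h : ∀ᶠ n : ℕ in atTop, 1 + a / Real.log n ≤ κ n) : Summable (gg κ) := by
  refine (summable_nat_add_iff 1).1 ((exp_cmp (u := fun n => Real.log (gg κ (n + 1))) ?_
    (lb_summ ha)).congr fun n => Real.exp_log (gg_pos _ _))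
  filter_upwards [(tendsto_add_atTop_nat 2).eventually h] with n hn
  rw [gg_log, lb, lb]
  push_cast at hn ⊢
  have n0 : (0 : ℝ) < n + 2 := by positivity
  have e : (n : ℝ) + 1 + 2 = n + 2 + 1 := by ring
  have h1 := lg_up n0 (show (0 : ℝ) < n + 2 + 1 by positivity)
  have h2 := lg_up (lg2 n) (show 0 < Real.log ((n : ℝ) + 2 + 1) from Real.log_pos (by linarith [Nat.cast_nonneg (α := ℝ) n]))
  rw [add_sub_cancel_left] at h1
  have h3 := mul_le_mul_of_nonneg_left
    (h2.trans (div_le_div_of_nonneg_right h1 (lg2 n).le)) (show 0 ≤ a by linarith)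
  have h4 := div_le_div_of_nonneg_right hn n0.le
  have e2 : (1 + a / Real.log ((n : ℝ) + 2)) / (n + 2) =
      1 / (n + 2) + a * (1 / (n + 2) / Real.log ((n : ℝ) + 2)) := by ring
  rw [e, show (n : ℝ) + 1 + 1 = n + 2 by ring]
  linarith

theorem gg_div {κ : ℕ → ℝ} (h : ∀ᶠ n : ℕ in atTop, κ (n + 1) ≤ 1 + 1 / Real.log n) :
    ¬ Summable (gg κ) := fun hs => by
  refine lb_one (exp_cmp (v := fun n => Real.log (gg κ (n + 3))) ?_
    (((summable_nat_add_iff 3).2 hs).congr fun n => (Real.exp_log (gg_pos _ _)).symm))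
  filter_upwards [(tendsto_add_atTop_nat 3).eventually h] with n hn
  rw [show n + 1 + 3 = n + 3 + 1 by ring, gg_log, lb, lb]
  push_cast at hn ⊢
  have n0 : (0 : ℝ) ≤ n := Nat.cast_nonneg n
  have l3 : 0 < Real.log ((n : ℝ) + 3) := Real.log_pos (by linarith)
  have h1 := lg_lo (show (0 : ℝ) < n + 2 by positivity) (show (0 : ℝ) < n + 3 by positivity)
  have h2 := lg_lo (lg2 n) l3
  rw [show (n : ℝ) + 3 - (n + 2) = 1 by ring] at h1
  have h3 := (div_le_div_of_nonneg_right h1 l3.le).trans h2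
  have h4 := div_le_div_of_nonneg_right hn (show (0 : ℝ) ≤ n + 3 + 1 by positivity)
  have h5 : (1 + 1 / Real.log ((n : ℝ) + 3)) / (n + 3 + 1) ≤
      (1 + 1 / Real.log ((n : ℝ) + 3)) / (n + 3) :=
    div_le_div_of_nonneg_left (by positivity) (by positivity) (by linarith)
  have e2 : (1 + 1 / Real.log ((n : ℝ) + 3)) / (n + 3) =
      1 / (n + 3) + 1 / (n + 3) / Real.log ((n : ℝ) + 3) := by ring
  rw [show (n : ℝ) + 1 + 2 = n + 3 by ring]
  linarith

end Pool.Agent.P.MP_c7fa75_pr.HT
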