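import Pool.Agent.P.MP_c7fa75_pr.CDefs
import Pool.Agent.P.MP_c7fa75_pr.SP.Defs

/-! Cookie environments with a bound on the tail of the height of a stack. -/

set_option autoImplicit false

open MeasureTheory ProbabilityTheory Filter Topology

namespace Pool.Agent.P.MP_c7fa75_pr.HT

open Pool.Agent.P.MP_c7fa75_pr.T (psum total drift)
open Pool.Agent.P.MP_c7fa75_pr.SP (Realises)

/-- `P` is a law as in the problem (values in `[0,1]`, i.i.d. stacks, weak ellipticity, drift well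
defined and nonnegative), and for all large `n` the probability that the stack at the origin has a
cookie different from `1/2` after the first `n` cookies is at most `T n`. -/
def Law (T : ℕ → ℝ) (P : Measure (ℤ → ℕ → ℝ)) : Prop :=
  IsProbabilityMeasure P ∧
    (∀ᵐ ω ∂P, ∀ (x : ℤ) (n : ℕ), ω x n ∈ Set.Icc (0 : ℝ) 1) ∧
    iIndepFun (fun (x : ℤ) (ω : ℤ → ℕ → ℝ) => ω x) P ∧
    (∀ x : ℤ, IdentDistrib (fun ω : ℤ → ℕ → ℝ => ω x) (fun ω => ω 0) P P) ∧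
    (∀ x : ℤ, 0 < P {ω | ∀ n, 0 < ω x n} ∧ 0 < P {ω | ∀ n, ω x n < 1}) ∧
    (∀ᵐ ω ∂P, ∃ s : EReal, Tendsto (fun N : ℕ => (psum (ω 0) N : EReal)) atTop (𝓝 s)) ∧
    (∫⁻ ω, (-(total (ω 0))).toENNReal ∂P) < ⊤ ∧
    0 ≤ drift P ∧
    ∀ᶠ n : ℕ in atTop, P {ω | ∃ i, n ≤ i ∧ ω 0 i ≠ 1 / 2} ≤ ENNReal.ofReal (T n)

/-- In every realisation the `k`-th walker is almost surely transient. -/
def Always (P : Measure (ℤ → ℕ → ℝ)) (k : ℕ) : Prop :=
  ∀ (Θ : Type) [MeasurableSpace Θ] (μ : Measure Θ) (W : Θ → ℤ → ℕ → ℝ) (X : ℕ → Θ → ℕ → ℤ)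
    (env : ℕ → Θ → ℤ → ℕ → ℝ), Realises P μ W X env →
    ∀ᵐ θ ∂μ, Tendsto (fun n => |X (k - 1) θ n|) atTop atTop

/-- In every realisation the `k`-th walker is transient with probability zero. -/
def Never (P : Measure (ℤ → ℕ → ℝ)) (k : ℕ) : Prop :=
  ∀ (Θ : Type) [MeasurableSpace Θ] (μ : Measure Θ) (W : Θ → ℤ → ℕ → ℝ) (X : ℕ → Θ → ℕ → ℤ)
    (env : ℕ → Θ → ℤ → ℕ → ℝ), Realises P μ W X env →
    μ {θ | Tendsto (fun n => |X (k - 1) θ n|) atTop atTop} = 0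

end Pool.Agent.P.MP_c7fa75_pr.HT
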