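import Pool.Agent.P.MP_c7fa75_pr.HT.A
import Pool.Agent.P.MP_c7fa75_pr.HT.Defs

/-! The passage between environments and stacks; summable tails. -/

set_option autoImplicit false

namespace Pool.Agent.P.MP_c7fa75_pr.HT

open MeasureTheory ProbabilityTheory Filter Topology Finset
open scoped ENNReal Classical
open Pool.Agent.P.MP_c7fa75_pr.T Pool.Agent.P.MP_c7fa75_pr.R2 Pool.Agent.P.MP_c7fa75_pr.SP

/-- The stacks of height more than `n`. -/
def Bs (n : ℕ) : Set (ℕ → ℝ) := {w | ∃ i, n ≤ i ∧ w i ≠ 1 / 2}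

theorem meas_Bs (n : ℕ) : MeasurableSet (Bs n) := by
  simp only [Bs, Set.ofPred_exists, Set.ofPred_and]
  exact MeasurableSet.iUnion fun i => (MeasurableSet.const _).inter
    (measurableSet_eq_fun (measurable_pi_apply i) measurable_const).compl

theorem Bs_anti : Antitone Bs := fun _ _ h _ ⟨i, hi, hw⟩ => ⟨i, h.trans hi, hw⟩

theorem not_Bs {w : ℕ → ℝ} {n : ℕ} : w ∉ Bs n ↔ ∀ i, n ≤ i → w i = 1 / 2 := by
  simp [Bs]

/-- The hypotheses on the law of one stack. -/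
structure Lw (T : ℕ → ℝ) (P0 : Measure (ℕ → ℝ)) : Prop where
  in01 : In01 P0
  wl : Wl P0
  wr : Wr P0
  lim : Lim P0
  fin : dm P0 ≠ ⊤
  le : dm P0 ≤ dp P0
  tail : ∀ᶠ n in atTop, P0 (Bs n) ≤ ENNReal.ofReal (T n)

/-- What the stacks decide about walker `k`. -/
def Dec (P0 : Measure (ℕ → ℝ)) (k : ℕ) (φ : (ℕ → ℤ) → Prop) : Prop :=
  ∀ (Θ : Type) [MeasurableSpace Θ] (μ : Measure Θ) [IsProbabilityMeasure μ] (M : Mod μ),
    Env μ M.W P0 → ∀ᵐ θ ∂μ, φ (M.X (k - 1) θ)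

theorem m0 : Measurable (fun ω : ℤ → ℕ → ℝ => ω 0) := measurable_pi_apply 0

theorem drift_eq (P : Measure (ℤ → ℕ → ℝ)) :
    drift P = (dp (P.map fun ω => ω 0) : EReal) - (dm (P.map fun ω => ω 0) : EReal) := by
  unfold drift dp dm
  have hh : Measurable fun w : ℕ → ℝ => (-(total w)).toENNReal := meas_total.neg.ereal_toENNReal
  rw [lintegral_map meas_total.ereal_toENNReal m0, lintegral_map hh m0]

theorem Law.down {T : ℕ → ℝ} {P : Measure (ℤ → ℕ → ℝ)} (h : Law T P) :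
    IsProbabilityMeasure (P.map fun ω => ω 0) ∧ Lw T (P.map fun ω => ω 0) := by
  obtain ⟨hP, h01, -, -, hell, hlim, hm, hdr, ht⟩ := h
  have hfin : dm (P.map fun ω => ω 0) ≠ ⊤ := by
    have hh : Measurable fun w : ℕ → ℝ => (-(total w)).toENNReal := meas_total.neg.ereal_toENNReal
    rw [dm, lintegral_map hh m0]
    exact hm.ne
  refine ⟨Measure.isProbabilityMeasure_map m0.aemeasurable,
    (ae_map_iff m0.aemeasurable Mainx.meas_in).2 (h01.mono fun ω h => h 0), ?_, ?_,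
    (ae_map_iff m0.aemeasurable Mainx.meas_lim).2 hlim, hfin, ?_, ht.mono fun n hn => ?_⟩
  · rw [Wl, Measure.map_apply m0 Mainx.meas_l]
    exact (hell 0).2
  · rw [Wr, Measure.map_apply m0 Mainx.meas_r]
    exact (hell 0).1
  · simpa using (Mainx.le_iff _ 0 hfin).1 (by rw [← drift_eq]; simpa using hdr)
  · rw [Measure.map_apply m0 (meas_Bs n)]
    exact hn

theorem Law.dec {T : ℕ → ℝ} {P : Measure (ℤ → ℕ → ℝ)} (h : Law T P) {k : ℕ} :
    (Dec (P.map fun ω => ω 0) k Tr → Always P k) ∧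
      (Dec (P.map fun ω => ω 0) k (fun q => ¬ Tr q) → Never P k) := by
  have key : ∀ φ, Dec (P.map fun ω => ω 0) k φ → ∀ (Θ : Type) [MeasurableSpace Θ] (μ : Measure Θ)
      (W : Θ → ℤ → ℕ → ℝ) (X : ℕ → Θ → ℕ → ℤ) (env : ℕ → Θ → ℤ → ℕ → ℝ), Realises P μ W X env →
      ∀ᵐ θ ∂μ, φ (X (k - 1) θ) := by
    rintro φ hd Θ _ μ W X env ⟨hμ, hW, hmap, hX, he0, heT, heN, hx0, hnn, hce⟩
    subst hmap
    exact hd Θ μ
      { W := W, X := X, env := env, mW := hW, mX := hX, env0 := he0, envT := heT, envN := heN,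
        nn := fun θ => ⟨fun j => hx0 j θ, fun j n => hnn j θ n⟩, ce := hce }
      (Mainx.env_of hW h.2.2.1 h.2.2.2.1)
  refine ⟨fun hd => key _ hd, fun hd Θ _ μ W X env hR => ?_⟩
  have h3 := key _ hd Θ μ W X env hR
  rw [ae_iff] at h3
  simp only [not_not] at h3
  exact h3

theorem Lw.up {T : ℕ → ℝ} {P0 : Measure (ℕ → ℝ)} [IsProbabilityMeasure P0] (h : Lw T P0) :
    ∃ P, Law T P ∧ P.map (fun ω => ω 0) = P0 := by
  set P : Measure (ℤ → ℕ → ℝ) := Measure.infinitePi fun _ => P0 with hP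
  have ev : ∀ x : ℤ, P.map (fun ω => ω x) = P0 := fun x => Measure.infinitePi_map_eval _ x
  have tr : ∀ {φ : (ℕ → ℝ) → Prop}, (∀ᵐ w ∂P0, φ w) → ∀ᵐ ω ∂P, ∀ x, φ (ω x) := fun h =>
    ae_all_iff.2 fun x => ae_of_ae_map (measurable_pi_apply x).aemeasurable (ev x ▸ h)
  have ms : ∀ (x : ℤ) {A : Set (ℕ → ℝ)}, MeasurableSet A → P0 A = P {ω | ω x ∈ A} :=
    fun x A hA => by
      rw [← ev x, Measure.map_apply (measurable_pi_apply x) hA]
      rfl
  refine ⟨P, ⟨inferInstance, tr h.in01,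
    iIndepFun_infinitePi (X := fun (_ : ℤ) (s : ℕ → ℝ) => s) (fun _ => measurable_id),
    fun x => ⟨(measurable_pi_apply x).aemeasurable, m0.aemeasurable, (ev x).trans (ev 0).symm⟩,
    fun x => ⟨h.wr.trans_eq (ms x Mainx.meas_r), h.wl.trans_eq (ms x Mainx.meas_l)⟩,
    (tr h.lim).mono fun ω hω => hω 0, ?_, ?_,
    h.tail.mono fun n hn => (ms 0 (meas_Bs n)).ge.trans hn⟩, ev 0⟩
  · have hh : Measurable fun w : ℕ → ℝ => (-(total w)).toENNReal := meas_total.neg.ereal_toENNReal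
    rw [← lintegral_map hh m0, ev 0]
    exact h.fin.lt_top
  · rw [drift_eq, ev 0]
    simpa using (Mainx.le_iff (dp P0) 0 h.fin).2 (by simpa using h.le)

theorem not_both {T : ℕ → ℝ} {P : Measure (ℤ → ℕ → ℝ)} (h : Law T P) {k : ℕ} (h1 : Always P k)
    (h2 : Never P k) : False := by
  have := h.1
  have hR := exist P h.2.1
  have := hR.1
  obtain ⟨θ, a, b⟩ := ((h1 _ _ _ _ _ hR).and
    (measure_eq_zero_iff_ae_notMem.1 (h2 _ _ _ _ _ hR))).exists
  exact b a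

section
variable {P0 : Measure (ℕ → ℝ)} [IsProbabilityMeasure P0]

theorem abs_le_ind {w : ℕ → ℝ} (hw : ∀ i, w i ∈ Set.Icc (0 : ℝ) 1) (i : ℕ) :
    |2 * w i - 1| ≤ (Bs i).indicator 1 w := by
  by_cases h : w ∈ Bs i
  · rw [Set.indicator_of_mem h, Pi.one_apply, abs_le]
    constructor <;> linarith [(hw i).1, (hw i).2]
  · rw [Set.indicator_of_notMem h, not_Bs.1 h i le_rfl]
    norm_num

theorem al_le (h : In01 P0) (i : ℕ) : al P0 i ≤ P0.real (Bs i) := by
  rw [← integral_indicator_one (meas_Bs i)]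
  exact integral_mono_ae (ENV2x.intT h i).abs ((integrable_const 1).indicator (meas_Bs i))
    (Eventually.mono h fun w hw => abs_le_ind hw i)

omit [IsProbabilityMeasure P0] in
theorem Lw.real_le {T : ℕ → ℝ} (h : Lw T P0) : ∀ᶠ n in atTop, P0.real (Bs n) ≤ |T n| :=
  h.tail.mono fun _ hn => ENNReal.toReal_le_of_le_ofReal (abs_nonneg _)
    (hn.trans (ENNReal.ofReal_le_ofReal (le_abs_self _)))

theorem fm_of (h : In01 P0) (hs : Summable (al P0)) : ∃ A, L1.Fm P0 A := by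
  refine L1.fm P0 ?_
  rw [lintegral_tsum fun i => (Measurable.ennreal_ofReal (by fun_prop)).aemeasurable]
  have e : ∀ i, ∫⁻ w, ENNReal.ofReal |2 * w i - 1| ∂P0 = ENNReal.ofReal (al P0 i) := fun i =>
    (ofReal_integral_eq_lintegral_ofReal (ENV2x.intT h i).abs
      (ae_of_all _ fun _ => abs_nonneg _)).symm
  simp only [e]
  rw [← ENNReal.ofReal_tsum_of_nonneg (ENV2x.al_nonneg P0) hs]
  exact ENNReal.ofReal_lt_top

theorem Lw.fm {T : ℕ → ℝ} (h : Lw T P0) (hs : Summable T) : ∃ A, L1.Fm P0 A :=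
  fm_of h.in01 (Summable.of_norm_bounded_eventually_nat hs.abs (h.real_le.mono fun n hn => by
    rw [Real.norm_of_nonneg (ENV2x.al_nonneg P0 n)]
    exact (al_le h.in01 n).trans hn))

omit [IsProbabilityMeasure P0] in
theorem drift_int {S : (ℕ → ℝ) → ℝ} (hS : ∀ᵐ w ∂P0, total w = S w) (hi : Integrable S P0) :
    dp P0 ≠ ⊤ ∧ dm P0 ≠ ⊤ ∧ (dp P0 : EReal) - (dm P0 : EReal) = (∫ w, S w ∂P0 : ℝ) := by
  have e1 : dp P0 = ∫⁻ w, ENNReal.ofReal (S w) ∂P0 :=
    lintegral_congr_ae (hS.mono fun w hw => by simp only [hw, EReal.real_coe_toENNReal])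
  have e2 : dm P0 = ∫⁻ w, ENNReal.ofReal (- S w) ∂P0 :=
    lintegral_congr_ae (hS.mono fun w hw => by
      simp only [hw, ← EReal.coe_neg, EReal.real_coe_toENNReal])
  have f1 : dp P0 ≠ ⊤ := e1 ▸ hi.lintegral_lt_top.ne
  have f2 : dm P0 ≠ ⊤ := e2 ▸ hi.neg.lintegral_lt_top.ne
  refine ⟨f1, f2, ?_⟩
  rw [integral_eq_lintegral_pos_part_sub_lintegral_neg_part hi, ← e1, ← e2, EReal.coe_sub,
    EReal.coe_ennreal_toReal f1, EReal.coe_ennreal_toReal f2]

omit [IsProbabilityMeasure P0] in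
theorem dd_lim {A : (ℕ → ℝ) → ℕ} (h : L1.Fm P0 A) :
    Hp P0 ∧ ∃ L : ℝ, Tendsto (dd P0) atTop (𝓝 L) ∧ (dp P0 : EReal) - (dm P0 : EReal) = L := by
  have hb : ∀ n, ∀ᵐ w ∂P0, ‖psum w n‖ ≤ A w := fun n =>
    h.2.2.mono fun w hw => (abs_psum_le w n).trans (hw n)
  have hl : ∀ᵐ w ∂P0, total w = (total w).toReal ∧
      Tendsto (psum w) atTop (𝓝 (total w).toReal) := by
    filter_upwards [h.2.2] with w hw
    have h2 := (summable_of_sum_range_le (fun _ => abs_nonneg _) hw).of_abs.hasSum.tendsto_sum_nat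
    have h3 : total w = _ := ((continuous_coe_real_ereal.tendsto _).comp h2).limsup_eq
    rw [h3]
    exact ⟨rfl, h2⟩
  refine ⟨lt_of_le_of_lt (lintegral_mono_ae ?_) h.2.1.lintegral_lt_top, _,
    tendsto_integral_of_dominated_convergence _ (fun n => (meas_psum n).aestronglyMeasurable) h.2.1
      hb (hl.mono fun w hw => hw.2), (drift_int (hl.mono fun w hw => hw.1) ?_).2.2⟩
  · filter_upwards [ae_all_iff.2 hb] with w hw
    exact iSup_le fun n => ENNReal.ofReal_le_ofReal ((le_abs_self _).trans (hw n))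
  · refine h.2.1.mono' meas_total.ereal_toReal.aestronglyMeasurable ?_
    filter_upwards [ae_all_iff.2 hb, hl] with w h1 h2
    exact le_of_tendsto' h2.2.norm h1

theorem dd_sub (h : In01 P0) {n m : ℕ} (hnm : n ≤ m) :
    dd P0 m - dd P0 n = ∑ i ∈ Ico n m, ∫ w, (2 * w i - 1) ∂P0 := by
  rw [ENV2x.dd_eq h, ENV2x.dd_eq h, sum_Ico_eq_sub _ hnm]

/-- Summable tails: the claim of the problem away from the critical value. -/
theorem off_crit {T : ℕ → ℝ} (h : Lw T P0) (hs : Summable T) {k : ℕ} (hk : 1 ≤ k) :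
    ((k : EReal) < (dp P0 : EReal) - (dm P0 : EReal) → Dec P0 k Tr) ∧
      ((dp P0 : EReal) - (dm P0 : EReal) < k → Dec P0 k fun q => ¬ Tr q) := by
  obtain ⟨A, hA⟩ := h.fm hs
  have c := fun (Θ : Type) [MeasurableSpace Θ] (μ : Measure Θ) [IsProbabilityMeasure μ] (M : Mod μ)
    (hE : Env μ M.W P0) =>
      all_CORE Θ μ M P0 h.in01 hE h.wl h.wr h.lim (L1.lim_hm hA).2 h.le k hk
  rw [Mainx.cast_nat k]
  refine ⟨fun hd Θ _ μ _ M hE => ?_, fun hd Θ _ μ _ M hE => (c Θ μ M hE).2 (dd_lim hA).1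
    (Or.inl (not_le.1 fun h' => hd.not_ge ((Mainx.le_iff _ _ h.fin).2 h')))⟩
  exact ((c Θ μ M hE).1 ((Mainx.lt_iff _ _ h.fin).1 hd)).mono fun θ hθ =>
    tendsto_abs_atTop_atTop.comp hθ

theorem sum_tl {n m : ℕ} (h : n ≤ m) :
    ∑ i ∈ Ico n m, (1 / Real.log i - 1 / Real.log ((i : ℝ) + 1)) =
      1 / Real.log n - 1 / Real.log m := by
  induction m, h using Nat.le_induction with
  | base => simp
  | succ m hm ih =>
    rw [sum_Ico_succ_top hm, ih]
    push_cast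
    ring

theorem tl_sum {n m : ℕ} (hn : 2 ≤ n) :
    ∑ i ∈ Ico (n + 1) m, 1 / ((i : ℝ) * Real.log i ^ 2) ≤ 1 / Real.log n := by
  have l0 : ∀ j : ℕ, 0 ≤ 1 / Real.log (j : ℝ) := fun j => by
    have := Real.log_natCast_nonneg j
    positivity
  rcases le_or_gt m (n + 1) with h | h
  · rw [Ico_eq_empty_of_le h, sum_empty]
    exact l0 n
  obtain ⟨m, rfl⟩ : ∃ j, m = j + 1 := ⟨m - 1, by omega⟩
  rw [← sum_Ico_add' _ n m 1]
  refine (sum_le_sum fun i hi => ?_).trans ((sum_tl (show n ≤ m by omega)).le.trans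
    (sub_le_self _ (l0 m)))
  push_cast
  exact tl_up (by exact_mod_cast (show 1 < i by have := (mem_Ico.1 hi).1; omega))

theorem tl_summ : Summable fun n : ℕ => 1 / ((n : ℝ) * Real.log n ^ 2) := by
  refine (summable_nat_add_iff 3).1 (summable_of_sum_range_le (c := 1 / Real.log (2 : ℕ))
    (fun n => by positivity) fun n => ?_)
  have := tl_sum (n := 2) (m := n + 3) le_rfl
  rwa [show 2 + 1 = 0 + 3 by rfl, ← sum_Ico_add' _ 0 n 3, ← range_eq_Ico] at this

/-- The critical value under the tail `1 / (n log² n)`. -/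
theorem crit_pos (h : Lw (fun n => 1 / ((n : ℝ) * Real.log n ^ 2)) P0) {k : ℕ} (hk : 1 ≤ k)
    (hd : (dp P0 : EReal) - (dm P0 : EReal) = k) : Dec P0 k fun q => ¬ Tr q := by
  obtain ⟨A, hA⟩ := h.fm tl_summ
  obtain ⟨-, L, hL, e⟩ := dd_lim hA
  have eL : L = k := by
    rw [hd] at e
    exact_mod_cast e.symm
  obtain ⟨n0, h0⟩ := eventually_atTop.1 h.real_le
  refine fun Θ _ μ _ M hE => (L1.core Θ μ M P0 h.in01 hE h.wr h.lim (L1.lim_hm hA).2 h.le k hk).2
    (L1.kill P0 k h.in01 hA h.wl hk (gg_div ?_))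
  filter_upwards [eventually_ge_atTop (n0 + 2)] with n hn
  have h1 : dd P0 (n + 1) - 1 / Real.log n ≤ L := by
    refine ge_of_tendsto hL ?_
    filter_upwards [eventually_ge_atTop (n + 1)] with m hm
    have h2 := dd_sub h.in01 hm
    have h3 : ∀ i ∈ Ico (n + 1) m, -(1 / ((i : ℝ) * Real.log i ^ 2)) ≤ ∫ w, (2 * w i - 1) ∂P0 :=
      fun i hi => by
        have h4 := (al_le h.in01 i).trans (h0 i (by have := (mem_Ico.1 hi).1; omega))
        rw [abs_of_nonneg (by positivity)] at h4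
        exact (abs_le.1 (abs_integral_le_integral_abs.trans h4)).1
    have h5 := sum_le_sum h3
    rw [sum_neg_distrib] at h5
    linarith [tl_sum (n := n) (m := m) (by omega)]
  linarith

end

end Pool.Agent.P.MP_c7fa75_pr.HT
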