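import Pool.Agent.P.MP_c7fa75_pr.HT.B

/-! Laws with a prescribed tail; from Lyapunov inequalities to the walkers. -/

set_option autoImplicit false

namespace Pool.Agent.P.MP_c7fa75_pr.HT

open MeasureTheory ProbabilityTheory Filter Topology Finset
open scoped ENNReal Classical
open Pool.Agent.P.MP_c7fa75_pr.T Pool.Agent.P.MP_c7fa75_pr.R2 Pool.Agent.P.MP_c7fa75_pr.SP

theorem law_of {q : ℕ → ℝ} (ha : Antitone q) (h1 : q 0 ≤ 1) (h0 : Tendsto q atTop (𝓝 0)) :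
    ∃ ν : Measure ℕ, IsProbabilityMeasure ν ∧ ∀ n, ν.real {j | n < j} = q n := by
  set r : ℕ → ℝ := fun j => Nat.casesOn j 1 q with hr
  have p0 : ∀ j, 0 ≤ r j - r (j + 1) := fun j => by
    cases j with
    | zero => exact sub_nonneg.2 h1
    | succ j => exact sub_nonneg.2 (ha (Nat.le_succ j))
  have ps : ∀ n, ∑ j ∈ range (n + 1), (r j - r (j + 1)) = 1 - q n := fun n => sum_range_sub' r _
  have hs : HasSum (fun j => r j - r (j + 1)) 1 := by
    rw [hasSum_iff_tendsto_nat_of_nonneg p0, ← tendsto_add_atTop_iff_nat 1]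
    simp only [ps]
    simpa using h0.const_sub 1
  have := hs.isProbabilityMeasure_sum_dirac (mδ := inferInstance) (d := fun j : ℕ => j) p0
  refine ⟨_, this, fun n => ?_⟩
  have e : {j | n < j} = (↑(range (n + 1)) : Set ℕ)ᶜ := by
    ext j
    simp
  rw [e, probReal_compl_eq_one_sub (Set.to_countable _).measurableSet, ← sum_measureReal_singleton]
  simp only [Measure.real, Measure.sum_smul_dirac_singleton, ENNReal.toReal_ofReal (p0 _), ps]
  ring

section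
variable {P0 : Measure (ℕ → ℝ)} [IsProbabilityMeasure P0]

/-- Almost every stack has finite height. -/
def Fi (P0 : Measure (ℕ → ℝ)) : Prop := ∀ᵐ w ∂P0, ∃ m, w ∉ Bs m

theorem fi_of (h : Tendsto (fun n => P0.real (Bs n)) atTop (𝓝 0)) : Fi P0 := by
  rw [Fi, ae_iff, ← measureReal_eq_zero_iff]
  refine le_antisymm (ge_of_tendsto' h fun n => measureReal_mono fun w hw => ?_) measureReal_nonneg
  exact not_not.1 fun h' => hw ⟨n, h'⟩

theorem psum_const {w : ℕ → ℝ} {m n : ℕ} (h : w ∉ Bs m) (hn : m ≤ n) : psum w n = psum w m := by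
  induction n, hn using Nat.le_induction with
  | base => rfl
  | succ n hn ih =>
    rw [psum_succ, ih, not_Bs.1 h n hn]
    ring

theorem psum_lim {w : ℕ → ℝ} {m : ℕ} (h : w ∉ Bs m) :
    Tendsto (fun n : ℕ => (psum w n : EReal)) atTop (𝓝 (psum w m : EReal)) :=
  tendsto_const_nhds.congr' ((eventually_ge_atTop m).mono fun n hn => by
    simp only [psum_const h hn])

theorem total_eq {w : ℕ → ℝ} {m : ℕ} (h : w ∉ Bs m) : total w = psum w m := (psum_lim h).limsup_eq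

theorem inf_arrows (h01 : In01 P0) (h : Fi P0) (b : Bool) :
    ∀ᵐ a ∂Fld P0, ∀ x m, ∃ i, m ≤ i ∧ a x i = b := by
  refine ae_fld P0 (φ := fun e => ∀ m, ∃ i, m ≤ i ∧ e i = b) (ae_Qa P0 (measSet_inf b) ?_)
  filter_upwards [h01, h] with w hw ⟨m, hm⟩
  refine got_INF w hw b ?_
  have h1 : Tendsto (fun n : ℕ => ((n : ℝ) + -|psum w m|) / 2) atTop atTop :=
    (tendsto_atTop_add_const_right _ _ tendsto_natCast_atTop_atTop).atTop_div_const two_pos
  refine tendsto_atTop_mono' _ ?_ h1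
  filter_upwards [eventually_ge_atTop m] with n hn
  cases b
  · rw [sum_pr_false, psum_const hm hn]
    linarith [le_abs_self (psum w m)]
  · rw [sum_pr_true, psum_const hm hn]
    linarith [neg_abs_le (psum w m)]

theorem kill_of (h01 : In01 P0) (hW : Wl P0) (hF : Fi P0) {r : ℕ} (hr : 1 ≤ r) {f : ℕ → ℝ}
    (f0 : ∀ x, 0 ≤ f x) (f1 : f 0 = 0) (ft : Tendsto f atTop atTop)
    (hf : ∀ᶠ z in atTop, ∀ N, 4 * z ≤ N →
      ∫ w, Ex w (z + 1 - r) N (fun a _ => f a) ∂P0 ≤ f z) : ∀ᵐ a ∂Fld P0, ¬ Surv a r := by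
  obtain ⟨z0, hz0⟩ := eventually_atTop.1 hf
  have hfs : ∀ z, z0 ≤ z →
      ∫⁻ e, ENNReal.ofReal (f (Uo e (z + 1 - r))) ∂Qa P0 ≤ ENNReal.ofReal (f z) := by
    intro z hz
    set y := z + 1 - r
    have hpt : ∀ e : ℕ → Bool, ENNReal.ofReal (f (Uo e y)) ≤
        liminf (fun N => ENNReal.ofReal (f (Rr e (tau e y N)))) atTop := by
      intro e
      by_cases hex : ∃ n, y ≤ Ll e n
      · obtain ⟨n, hn⟩ := hex
        refine le_liminf_of_le (by isBoundedDefault) ?_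
        filter_upwards [eventually_ge_atTop n] with N hN
        have h1 : Ll e (tau e y N) = y := (tau_cases e y N).resolve_right fun h' => by
          have := Ll_mono e hN
          omega
        rw [Uo_eq_of_tau h1]
      · rw [Uo, dif_neg hex, f1, ENNReal.ofReal_zero]
        exact zero_le
    refine (lintegral_mono hpt).trans ((lintegral_liminf_le fun N =>
      (meas_state y N (fun a _ => f a)).ennreal_ofReal).trans ?_)
    refine liminf_le_of_frequently_le (Eventually.frequently ?_)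
    filter_upwards [eventually_ge_atTop (4 * z)] with N hN
    obtain ⟨i1, -, e1⟩ := Ex_Qa P0 y N (fun a _ => f a)
    rw [← ofReal_integral_eq_lintegral_ofReal i1 (ae_of_all _ fun e => f0 _), e1]
    exact ENNReal.ofReal_le_ofReal (hz0 z hz N hN)
  have mF : ∀ z, Measurable (fun e : ℕ → Bool => Uo e (z + 1 - r)) := fun z => meas_Uo _
  have hk := got_KILL (ℕ → Bool) (Qa P0) (fun e z => Uo e (z + 1 - r)) r z0
    (fun x => ENNReal.ofReal (f x)) mF (fun _ => ENNReal.ofReal_lt_top)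
    (ENNReal.tendsto_ofReal_atTop.comp ft) hfs (fun z => KILLQx.pos got_CYL P0 h01 hW _ r hr)
  have hnull : ∀ᵐ a ∂Fld P0, ∀ z, ¬ ∀ n, r ≤ it (fun e z => Uo e (z + 1 - r))
      (fun i : ℕ => a ((i : ℤ) + 1)) z (n + 1) := by
    rw [ae_all_iff]
    intro z
    have := (got_CH (ℕ → Bool) (ℤ → ℕ → Bool) (Qa P0) (Fld P0) (fun n a => a ((n : ℤ) + 1))
      (fun e z => Uo e (z + 1 - r)) r mF (fun n => measurable_pi_apply _) (fld_indep P0)
      (fun n => fld_map P0 _) z).2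
    rw [hk z] at this
    rw [ae_iff]
    simpa only [not_not] using this
  filter_upwards [hnull, inf_arrows h01 hF false] with a h1 h2 hs
  obtain ⟨z, hz⟩ := KILLQx.alive a r h2 hs
  exact h1 z hz

theorem surv_of (h01 : In01 P0) (hF : Fi P0) {k : ℕ} {κ : ℕ → ℝ} (hs : Summable (gg κ))
    (hf : ∀ᶠ z in atTop, ff κ z ≤ ∫ w, Ex w (z + 1 - k) (4 * z) (fun a _ => ff κ a) ∂P0) :
    Dec P0 k Tr ∨ k = 0 := by
  rcases Nat.eq_zero_or_pos k with h | hk
  · exact Or.inr h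
  obtain ⟨z1, hz1⟩ := eventually_atTop.1 hf
  obtain ⟨f, z0, hz0, hf1, hf0, hfs⟩ := LYSx.fin P0 κ hs k (max z1 k) (le_max_right _ _)
    fun z hz => by
      rw [(Ex_Qa P0 (z + 1 - k) (4 * z) (fun a _ => ff κ a)).2.2]
      exact hz1 z ((le_max_left _ _).trans hz)
  have mF : ∀ z : ℕ, Measurable (fun e : ℕ → Bool => Rr e (tau e (z + 1 - k) (4 * z))) :=
    fun z => meas_Rr_tau _ _
  have hsup := got_SUP (ℕ → Bool) (Qa P0) (fun e z => Rr e (tau e (z + 1 - k) (4 * z))) k z0 f mF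
    hz0 hf1 hfs
  have hch := got_CH (ℕ → Bool) (ℤ → ℕ → Bool) (Qa P0) (Fld P0)
    (fun (n : ℕ) (a : ℤ → ℕ → Bool) => a ((n : ℤ) + 1))
    (fun e z => Rr e (tau e (z + 1 - k) (4 * z))) k mF (fun n => measurable_pi_apply _)
    (fld_indep P0) (fun n => fld_map P0 _)
  set S : ℕ → Set (ℤ → ℕ → Bool) := fun z => {ω | ∀ n, k ≤
    it (fun (e : ℕ → Bool) (z : ℕ) => Rr e (tau e (z + 1 - k) (4 * z)))
      (fun i : ℕ => ω ((i : ℤ) + 1)) z (n + 1)} with hS
  have hcompl : ∀ z, Fld P0 (S z)ᶜ ≤ f z := by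
    intro z
    have h1 := hsup z
    rw [← (hch z).2] at h1
    have h2 : Fld P0 (S z) + Fld P0 (S z)ᶜ = 1 := prob_add_prob_compl (hch z).1
    have h3 : Fld P0 (S z) + Fld P0 (S z)ᶜ ≤ Fld P0 (S z) + f z := h2.le.trans h1
    exact (ENNReal.add_le_add_iff_left (measure_ne_top _ _)).1 h3
  have hal : ∀ᵐ a ∂Fld P0, ∃ z, k ≤ z ∧ a ∈ S z := by
    rw [ae_iff]
    refine le_antisymm (ge_of_tendsto hf0 ?_) zero_le
    filter_upwards [eventually_ge_atTop k] with z hz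
    refine (measure_mono fun a ha => ?_).trans (hcompl z)
    exact fun h => ha ⟨z, hz, h⟩
  have hS : ∀ᵐ a ∂Fld P0, Surv a k ∧ ∀ x m, ∃ i, m ≤ i ∧ a x i = true := by
    filter_upwards [hal, inf_arrows h01 hF true] with a ⟨z, hz, ha⟩ hi
    exact ⟨SURVQx.surv_of_alive a k z (fun z => 4 * z) hz (hi 0) ha, hi⟩
  refine Or.inl fun Θ _ μ _ M hE => ?_
  obtain ⟨R, hRW, hRX⟩ := got_RUN0 Θ μ M k
  filter_upwards [got_FLD Θ μ k R P0 h01 (hRW ▸ hE) _ hS] with θ ⟨a, ⟨hs, hinf⟩, hfol⟩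
  exact hRX ▸ got_DT a _ k (R.nn θ) hfol hs hinf (k - 1) (by omega)

theorem few' {Θ : Type} [MeasurableSpace Θ] {μ : Measure Θ} [IsProbabilityMeasure μ] {k r : ℕ}
    (R : Run μ k) (h01 : In01 P0) (hE : Env μ R.W P0) (hk : ∀ᵐ a ∂Fld P0, ¬ Surv a r) :
    ∀ᵐ θ ∂μ, T.Good (fun i => R.X i θ) k →
      ((range k).filter (fun i => Tendsto (R.X i θ) atTop atTop)).card < r := by
  filter_upwards [got_FLD Θ μ k R P0 h01 hE (fun a => ¬ Surv a r) hk] with θ ⟨a, ha, hF⟩ hG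
  by_contra hh
  refine ha ⟨fun x => off (fun i => R.X i θ) k (x : ℤ), fun x => ?_⟩
  have h := got_NET a (fun i => R.X i θ) k k (R.nn θ) hF le_rfl hG x
  have e : ((x + 1 : ℕ) : ℤ) = (x : ℤ) + 1 := by push_cast; rfl
  simp only [e]
  rw [h]
  exact Nat.add_le_add_left (not_lt.mp hh) _

theorem core_kill (h01 : In01 P0) {k r : ℕ} (hk : 1 ≤ k) (hr : r ≤ k)
    (h1 : ∀ᵐ a ∂Fld P0, ¬ Surv a r) (h2 : ∀ᵐ a ∂Fld (P0.map rfl1), ¬ Surv a 1) :
    Dec P0 k fun q => ¬ Tr q := by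
  intro Θ _ μ _ M hE
  obtain ⟨R, hRW, hRX⟩ := got_RUN0 Θ μ M k
  have hER : Env μ R.W P0 := hRW ▸ hE
  obtain ⟨R', hX, hE'⟩ := got_REFL Θ μ k R P0 hER
  have := (got_RFL0 P0).1
  filter_upwards [few' R h01 hER h1, few' R' ((got_RFL0 P0).2.1 h01) hE' h2,
    got_SRW Θ μ M (k - 1)] with θ a1 a2 hs hTr
  have hG1 : T.Good (fun i => M.X i θ) (k - 1) := by
    by_contra hne
    exact hs hne hTr
  have hG : T.Good (fun i => R.X i θ) k := fun i hi => by
    rw [hRX]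
    by_cases h : i < k - 1
    · exact hG1 i h
    · rwa [show i = k - 1 by omega]
  have e : ∀ i, R'.X i θ = fun n => - R.X i θ n := fun i => funext fun n => hX i θ n
  have h0 := a2 (by simp only [e]; exact (REFLx.good_neg _ k).2 hG)
  have h3 := a1 hG
  rw [filter_true_of_mem, card_range] at h3
  · omega
  intro i hi
  refine ((got_FLOW (R.X i θ) ((R.nn θ).1 i) ((R.nn θ).2 i)).2.1
    (hG i (mem_range.1 hi))).resolve_right fun hT => ?_
  have hm : i ∈ (range k).filter (fun i => Tendsto (R'.X i θ) atTop atTop) :=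
    mem_filter.2 ⟨hi, e i ▸ tendsto_neg_atBot_atTop.comp hT⟩
  have := card_pos.2 ⟨i, hm⟩
  omega

end

/-! ### Concave functions -/

theorem tangent {g : ℕ → ℝ} (hg : Antitone g) (x x0 : ℕ) :
    ∑ i ∈ range x, g i ≤ ∑ i ∈ range x0, g i + g x0 * ((x : ℝ) - x0) := by
  rcases le_total x0 x with h | h
  · have h1 := sum_le_card_nsmul (Ico x0 x) g (g x0) fun i hi => hg (mem_Ico.1 hi).1
    rw [sum_Ico_eq_sub _ h, Nat.card_Ico, nsmul_eq_mul, Nat.cast_sub h] at h1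
    linarith
  · have h1 := card_nsmul_le_sum (Ico x x0) g (g x0) fun i hi => hg (mem_Ico.1 hi).2.le
    rw [sum_Ico_eq_sub _ h, Nat.card_Ico, nsmul_eq_mul, Nat.cast_sub h] at h1
    linarith

theorem jensen {g : ℕ → ℝ} (hg : Antitone g) (g0 : ∀ i, 0 ≤ g i) {w : ℕ → ℝ}
    (hw : ∀ i, w i ∈ Set.Icc (0 : ℝ) 1) {J : ℝ} {N : ℕ} (hJ : ∀ n, n ≤ N → psum w n ≤ J)
    (y x0 : ℕ) :
    Ex w y N (fun a _ => ∑ i ∈ range a, g i) ≤ ∑ i ∈ range x0, g i + g x0 * (y + J - x0) := by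
  have h1 := Ex_mono w y N (V := fun a _ => ∑ i ∈ range a, g i)
    (V' := fun a b => (∑ i ∈ range x0, g i + g x0 * (y + J - x0)) + g x0 * mg w a b)
    fun a b hr => by
      have h2 : (b : ℝ) ≤ y := by exact_mod_cast hr.1
      have h3 : (a : ℝ) - x0 ≤ y + J - x0 + mg w a b := by
        unfold mg
        linarith [hJ (a + b) hr.2.1]
      have h4 := mul_le_mul_of_nonneg_left h3 (g0 x0)
      linarith [tangent hg a x0]
  rwa [Ex_add, Ex_const, Ex_mul, Ex_mg hw, mul_zero, add_zero] at h1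

end Pool.Agent.P.MP_c7fa75_pr.HT
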