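import Pool.Agent.P.MP_c7fa75_pr.HT.C

/-! No transience below the threshold when the tail of the height is `o(1/n)`. -/

set_option autoImplicit false

namespace Pool.Agent.P.MP_c7fa75_pr.HT

open MeasureTheory ProbabilityTheory Filter Topology Finset
open scoped ENNReal Classical
open Pool.Agent.P.MP_c7fa75_pr.T Pool.Agent.P.MP_c7fa75_pr.R2 Pool.Agent.P.MP_c7fa75_pr.SP

/-- The indicator of height more than `i`. -/
noncomputable def Ii (i : ℕ) (w : ℕ → ℝ) : ℝ := (Bs i).indicator 1 w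

theorem Ii_nonneg (i : ℕ) (w : ℕ → ℝ) : 0 ≤ Ii i w :=
  Set.indicator_nonneg (fun _ _ => zero_le_one) w

theorem height {w : ℕ → ℝ} (h : ∃ m, w ∉ Bs m) :
    ∃ m, w ∉ Bs m ∧ ∀ i, Ii i w = if i < m then 1 else 0 := by
  refine ⟨Nat.find h, Nat.find_spec h, fun i => ?_⟩
  split_ifs with hi
  · exact Set.indicator_of_mem (not_not.1 (Nat.find_min h hi)) _
  · exact Set.indicator_of_notMem (fun h' => Nat.find_spec h (Bs_anti (not_lt.1 hi) h')) _

theorem sum_ite_le (n m : ℕ) : ∑ i ∈ range n, (if i < m then (1 : ℝ) else 0) ≤ (min m n : ℕ) := by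
  rw [sum_boole]
  refine Nat.cast_le.2 ((card_le_card fun i hi => ?_).trans (card_range _).le)
  rw [mem_filter, mem_range] at hi
  exact mem_range.2 (lt_min hi.2 hi.1)

theorem sum_odd (m : ℕ) : ∑ i ∈ range m, (2 * (i : ℝ) + 1) = (m : ℝ) ^ 2 := by
  induction m with
  | zero => simp
  | succ m ih =>
    rw [sum_range_succ, ih]
    push_cast
    ring

theorem pt : ∃ C : ℝ, 0 ≤ C ∧ ∀ (w : ℕ → ℝ), (∀ i, w i ∈ Set.Icc (0 : ℝ) 1) → (∃ m, w ∉ Bs m) →
    ∀ S : ℝ, total w = S → ∀ (r z N : ℕ) (t : ℝ), 1 ≤ r → 2 * r ≤ z → 4 * z ≤ N → 1 ≤ t →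
    t ^ 2 ≤ z → Ex w (z + 1 - r) N (fun a _ => ff (fun _ => 1) a) ≤
      ff (fun _ => 1) z + gg (fun _ => 1) z * ((S - r + C / t) * (1 - Ii (z / 2) w) +
        C * t / z * (2 * r ^ 2 + 2 * ∑ i ∈ range z, (2 * (i : ℝ) + 1) * Ii i w)) +
        ∑ i ∈ range N, gg (fun _ => 1) (z + i) * Ii (max i (z / 2)) w := by
  obtain ⟨C, hC, hQ⟩ := got_QUP
  refine ⟨C, hC, fun w hw hF S hS r z N t hr hz hN ht htz => ?_⟩
  obtain ⟨m, hm, hI⟩ := height hF
  have hA : ∀ n, ∑ i ∈ range n, |2 * w i - 1| ≤ (min m n : ℕ) := fun n =>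
    (sum_le_sum fun i _ => (abs_le_ind hw i).trans (hI i).le).trans (sum_ite_le n m)
  have g0 := gg_pos (fun _ => 1) z
  have z0 : (0 : ℝ) < z := by exact_mod_cast (show 0 < z by omega)
  have s0 : 0 ≤ ∑ i ∈ range N, gg (fun _ => 1) (z + i) * Ii (max i (z / 2)) w :=
    sum_nonneg fun i _ => mul_nonneg (gg_pos _ _).le (Ii_nonneg _ _)
  rcases le_or_gt m (z / 2) with h | h
  · have h1 := hQ w hw m (fun n => (hA n).trans (by exact_mod_cast min_le_left _ _)) r z N t 1
      (fun _ => 1) hr hz hN ht htz (fun _ => zero_le_one) zero_le_one one_le_two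
      fun _ _ _ => le_rfl
    have h2 : win (fun i => |2 * w i - 1|) z = 0 := sum_eq_zero fun i hi => by
      rw [not_Bs.1 hm i (h.trans (mem_Ico.1 hi).1)]
      norm_num
    have h3 : psum w z = S := by
      rw [psum_const hm (by omega)]
      exact_mod_cast (total_eq hm).symm.trans hS
    have h4 : (m : ℝ) ^ 2 ≤ ∑ i ∈ range z, (2 * (i : ℝ) + 1) * Ii i w := by
      rw [← sum_odd]
      refine le_trans (sum_le_sum fun i hi => ?_) (sum_le_sum_of_subset_of_nonneg
        (range_mono (show m ≤ z by omega)) fun i _ _ =>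
          mul_nonneg (by positivity) (Ii_nonneg _ _))
      rw [hI, if_pos (mem_range.1 hi), mul_one]
    have h5 : min (((r : ℝ) + m) ^ 2 / z) (r + m) ≤
        (2 * r ^ 2 + 2 * ∑ i ∈ range z, (2 * (i : ℝ) + 1) * Ii i w) / z :=
      (min_le_left _ _).trans (div_le_div_of_nonneg_right (by nlinarith [sq_nonneg ((r : ℝ) - m)])
        z0.le)
    have h6 := mul_le_mul_of_nonneg_left h5 (show 0 ≤ C * t by positivity)
    rw [h2, h3] at h1
    rw [hI (z / 2), if_neg (by omega)]
    refine h1.trans (le_add_of_le_of_nonneg (add_le_add le_rfl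
      (mul_le_mul_of_nonneg_left ?_ g0.le)) s0)
    rw [div_mul_eq_mul_div, mul_div_assoc]
    have e : C * (1 / t + t * min (((r : ℝ) + m) ^ 2 / z) (r + m)) =
        C / t + C * t * min (((r : ℝ) + m) ^ 2 / z) (r + m) := by ring
    linarith
  · have h1 := jensen (L1.gg_anti (κ := fun _ => 1) fun _ => zero_le_one)
      (fun i => (gg_pos _ i).le) hw (J := (min m N : ℕ)) (N := N)
      (fun n hn => (le_abs_self _).trans ((abs_psum_le w n).trans ((hA n).trans
        (by exact_mod_cast min_le_min_left m hn)))) (z + 1 - r) (z + min m N)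
    have h2 : (((z + 1 - r : ℕ) : ℝ) + (min m N : ℕ) - (z + min m N : ℕ)) ≤ 0 := by
      have : ((z + 1 - r : ℕ) : ℝ) ≤ z := by exact_mod_cast (show z + 1 - r ≤ z by omega)
      rw [Nat.cast_add]
      linarith
    have h3 := mul_nonpos_of_nonneg_of_nonpos (gg_pos (fun _ => 1) (z + min m N)).le h2
    have h4 : ∑ i ∈ range (min m N), gg (fun _ => 1) (z + i) ≤
        ∑ i ∈ range N, gg (fun _ => 1) (z + i) * Ii (max i (z / 2)) w := by
      refine le_trans (sum_le_sum fun i hi => ?_) (sum_le_sum_of_subset_of_nonneg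
        (range_mono (min_le_right m N)) fun i _ _ => mul_nonneg (gg_pos _ _).le (Ii_nonneg _ _))
      rw [hI, if_pos (max_lt ((mem_range.1 hi).trans_le (min_le_left _ _)) h), mul_one]
    have h5 : 0 ≤ gg (fun _ => 1) z *
        (C * t / z * (2 * r ^ 2 + 2 * ∑ i ∈ range z, (2 * (i : ℝ) + 1) * Ii i w)) := by
      have : 0 ≤ ∑ i ∈ range z, (2 * (i : ℝ) + 1) * Ii i w :=
        sum_nonneg fun i _ => mul_nonneg (by positivity) (Ii_nonneg _ _)
      positivity
    rw [sum_range_add] at h1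
    rw [hI (z / 2), if_pos h, sub_self, mul_zero, zero_add]
    unfold ff
    linarith

theorem gg_harm : Antitone fun i : ℕ => ((i : ℝ) + 1) * gg (fun _ => 1) i :=
  antitone_nat_of_succ_le fun i => by
    have h1 := Real.add_one_le_exp (1 / ((i : ℝ) + 1))
    have h2 := Real.exp_pos (1 / ((i : ℝ) + 1))
    have h3 : ((i : ℝ) + 1 + 1) * (Real.exp (1 / ((i : ℝ) + 1)))⁻¹ ≤ i + 1 := by
      rw [← div_eq_mul_inv, div_le_iff₀ h2]
      have := mul_le_mul_of_nonneg_left h1 (show (0 : ℝ) ≤ i + 1 by positivity)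
      rw [mul_add, mul_one_div_cancel (by positivity)] at this
      linarith
    have h4 := mul_le_mul_of_nonneg_left h3 (gg_pos (fun _ => 1) i).le
    rw [gg_succ, Real.exp_neg]
    push_cast
    linarith

theorem kick {β : ℕ → ℝ} {ε : ℝ} {z : ℕ} (hε : 0 ≤ ε)
    (h : ∀ n, z / 2 ≤ n → ((n : ℝ) + 1) * β n ≤ ε) (N : ℕ) :
    ∑ i ∈ range N, gg (fun _ => 1) (z + i) * β (max i (z / 2)) ≤ gg (fun _ => 1) z * (3 * ε) := by
  have g0 := gg_pos (fun _ => 1) z
  have tel : ∑ i ∈ range N, 1 / (((z : ℝ) + i + 1) * (z + i + 2)) =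
      1 / ((z : ℝ) + 1) - 1 / (z + N + 1) := by
    induction N with
    | zero => simp
    | succ N ih =>
      rw [sum_range_succ, ih]
      push_cast
      field_simp
      ring
  have h1 : ∀ i ∈ range N, gg (fun _ => 1) (z + i) * β (max i (z / 2)) ≤
      gg (fun _ => 1) z * (3 * ε) * (z + 1) * (1 / (((z : ℝ) + i + 1) * (z + i + 2))) := by
    intro i _
    have a1 := gg_harm (Nat.le_add_right z i)
    have a2 := h _ (le_max_right i (z / 2))
    have a3 : (z : ℝ) + i + 2 ≤ 3 * ((max i (z / 2) : ℕ) + 1) := by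
      exact_mod_cast (show z + i + 2 ≤ 3 * (max i (z / 2) + 1) by omega)
    simp only [Nat.cast_add] at a1
    have a4 : β (max i (z / 2)) ≤ 3 * ε / (z + i + 2) := by
      rcases le_total (β (max i (z / 2))) 0 with hb | hb
      · exact hb.trans (by positivity)
      · rw [le_div_iff₀ (by positivity)]
        nlinarith
    have a5 : gg (fun _ => 1) (z + i) ≤ (z + 1) * gg (fun _ => 1) z / (z + i + 1) := by
      rw [le_div_iff₀ (by positivity)]
      linarith
    calc _ ≤ gg (fun _ => 1) (z + i) * (3 * ε / (z + i + 2)) :=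
          mul_le_mul_of_nonneg_left a4 (gg_pos _ _).le
      _ ≤ (z + 1) * gg (fun _ => 1) z / (z + i + 1) * (3 * ε / (z + i + 2)) :=
          mul_le_mul_of_nonneg_right a5 (by positivity)
      _ = _ := by field_simp
  refine (sum_le_sum h1).trans ?_
  rw [← mul_sum, tel, mul_sub, mul_assoc _ ((z : ℝ) + 1), mul_one_div_cancel (by positivity), mul_one]
  exact sub_le_self _ (by positivity)

section
variable {P0 : Measure (ℕ → ℝ)} [IsProbabilityMeasure P0]

theorem int_Ii (i : ℕ) : Integrable (Ii i) P0 := (integrable_const 1).indicator (meas_Bs i)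

omit [IsProbabilityMeasure P0] in
theorem Ii_int (i : ℕ) : ∫ w, Ii i w ∂P0 = P0.real (Bs i) := integral_indicator_one (meas_Bs i)

omit [IsProbabilityMeasure P0] in
theorem tail_zero (ht : Tendsto (fun n : ℕ => ((n : ℝ) + 1) * P0.real (Bs n)) atTop (𝓝 0)) :
    Tendsto (fun n => P0.real (Bs n)) atTop (𝓝 0) :=
  squeeze_zero (fun _ => measureReal_nonneg) (fun n => le_mul_of_one_le_left measureReal_nonneg
    (by linarith [Nat.cast_nonneg (α := ℝ) n])) ht

theorem kill_tail (h01 : In01 P0) (hW : Wl P0)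
    (ht : Tendsto (fun n : ℕ => ((n : ℝ) + 1) * P0.real (Bs n)) atTop (𝓝 0)) {S : (ℕ → ℝ) → ℝ}
    (iS : Integrable S P0) (hS : ∀ᵐ w ∂P0, total w = S w) {r : ℕ} (hr : 1 ≤ r)
    (hd : ∫ w, S w ∂P0 < r) : ∀ᵐ a ∂Fld P0, ¬ Surv a r := by
  have hF := fi_of (tail_zero ht)
  obtain ⟨C, hC, hpt⟩ := pt
  obtain ⟨t, ht1, ht2⟩ : ∃ t : ℝ, 1 ≤ t ∧ ∫ w, S w ∂P0 - r + C / t < 0 := by
    have h1 : Tendsto (fun t : ℝ => ∫ w, S w ∂P0 - r + C / t) atTop (𝓝 (∫ w, S w ∂P0 - r + 0)) :=
      (tendsto_const_nhds.div_atTop tendsto_id).const_add _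
    exact ((eventually_ge_atTop 1).and (h1.eventually (gt_mem_nhds (by linarith)))).exists
  set L := ∫ w, S w ∂P0 - r + C / t with hL
  have iU : Integrable (fun w => S w - r + C / t) P0 :=
    (iS.sub (integrable_const _)).add (integrable_const _)
  have bd : ∀ y w, ‖(S w - r + C / t) * (1 - Ii y w)‖ ≤ ‖S w - r + C / t‖ := fun y w => by
    unfold Ii
    by_cases h : w ∈ Bs y <;> simp [h]
  have mU : ∀ y, AEStronglyMeasurable (fun w => (S w - r + C / t) * (1 - Ii y w)) P0 := fun y =>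
    iU.1.mul ((integrable_const 1).sub (int_Ii y)).1
  have t1 : Tendsto (fun y => ∫ w, (S w - r + C / t) * (1 - Ii y w) ∂P0) atTop (𝓝 L) := by
    have e : L = ∫ w, (S w - r + C / t) ∂P0 := by
      have i0 : Integrable (fun w => S w - r) P0 := iS.sub (integrable_const _)
      rw [integral_add i0 (integrable_const _), integral_sub iS (integrable_const _)]
      simp [hL]
    rw [e]
    refine tendsto_integral_of_dominated_convergence _ mU iU.norm
      (fun y => ae_of_all _ (bd y)) (Eventually.mono hF fun w hw => ?_)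
    obtain ⟨m, -, hI⟩ := height hw
    refine tendsto_const_nhds.congr' ((eventually_ge_atTop m).mono fun y hy => ?_)
    simp only [hI, if_neg (not_lt.2 hy), sub_zero, mul_one]
  have t2 : Tendsto (fun z : ℕ => C * t / z *
      (2 * r ^ 2 + 2 * ∑ i ∈ range z, (2 * (i : ℝ) + 1) * P0.real (Bs i))) atTop (𝓝 0) := by
    have h1 : Tendsto (fun i : ℕ => (2 * (i : ℝ) + 1) * P0.real (Bs i)) atTop (𝓝 0) := by
      refine squeeze_zero (fun i => mul_nonneg (by positivity) measureReal_nonneg) (fun i => ?_)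
        (by simpa using ht.const_mul 2)
      nlinarith [measureReal_nonneg (μ := P0) (s := Bs i)]
    have h2 := ((tendsto_const_div_atTop_nhds_zero_nat (2 * (r : ℝ) ^ 2)).add
      (h1.cesaro.const_mul 2)).const_mul (C * t)
    simp only [mul_zero, add_zero] at h2
    exact h2.congr fun z => by ring
  have t3 : Tendsto (fun z : ℕ => z / 2) atTop atTop :=
    tendsto_atTop_atTop.2 fun b => ⟨2 * b, fun a ha => by omega⟩
  have t4 := ((t1.comp t3).add t2).eventually (gt_mem_nhds (show L + 0 < L / 2 by linarith))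
  obtain ⟨n0, hn0⟩ := eventually_atTop.1 (ht.eventually (gt_mem_nhds (show 0 < -L / 6 by linarith)))
  refine kill_of h01 hW hF hr (ff_nonneg _) (ff_zero _) ff_top ?_
  filter_upwards [t4, eventually_ge_atTop (2 * r), t3.eventually_ge_atTop n0,
    tendsto_natCast_atTop_atTop.eventually_ge_atTop (t ^ 2)] with z z1 z2 z3 z4 N hN
  have i1 : Integrable (fun w => (S w - r + C / t) * (1 - Ii (z / 2) w)) P0 :=
    iU.norm.mono' (mU _) (ae_of_all _ (bd _))
  have i2 : Integrable (fun w => ∑ i ∈ range z, (2 * (i : ℝ) + 1) * Ii i w) P0 :=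
    integrable_finsetSum _ fun i _ => (int_Ii i).const_mul _
  have i3 : Integrable (fun w => C * t / z *
      (2 * r ^ 2 + 2 * ∑ i ∈ range z, (2 * (i : ℝ) + 1) * Ii i w)) P0 :=
    ((integrable_const _).add (i2.const_mul _)).const_mul _
  have i4 : Integrable
      (fun w => ∑ i ∈ range N, gg (fun _ => 1) (z + i) * Ii (max i (z / 2)) w) P0 :=
    integrable_finsetSum _ fun i _ => (int_Ii _).const_mul _
  have i6 : Integrable (fun w => gg (fun _ => 1) z * ((S w - r + C / t) * (1 - Ii (z / 2) w) +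
      C * t / z * (2 * r ^ 2 + 2 * ∑ i ∈ range z, (2 * (i : ℝ) + 1) * Ii i w))) P0 :=
    (i1.add i3).const_mul _
  have i5 : Integrable (fun w => ff (fun _ => 1) z +
      gg (fun _ => 1) z * ((S w - r + C / t) * (1 - Ii (z / 2) w) +
      C * t / z * (2 * r ^ 2 + 2 * ∑ i ∈ range z, (2 * (i : ℝ) + 1) * Ii i w))) P0 :=
    (integrable_const _).add i6
  refine (integral_mono_ae (Ex_Qa P0 _ N _).2.1 (i5.add i4) ?_).trans ?_
  · filter_upwards [h01, hF, hS] with w a1 a2 a3
    exact hpt w a1 a2 _ a3 r z N t hr z2 hN ht1 z4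
  · have k1 := kick (β := fun n => P0.real (Bs n)) (show 0 ≤ -L / 6 by linarith)
      (fun n hn => (hn0 n (z3.trans hn)).le) N
    have k2 := mul_le_mul_of_nonneg_left z1.le (gg_pos (fun _ => 1) z).le
    simp only [Pi.add_apply]
    rw [integral_add i5 i4, integral_add (integrable_const _) i6,
      integral_const_mul, integral_add i1 i3, integral_const_mul,
      integral_add (integrable_const _) (i2.const_mul _), integral_const_mul, integral_const_mul,
      integral_finsetSum _ fun i _ => (int_Ii i).const_mul _,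
      integral_finsetSum _ fun i _ => (int_Ii _).const_mul _]
    simp only [integral_const_mul, Ii_int, integral_const, probReal_univ, smul_eq_mul, one_mul,
      Function.comp] at k2 ⊢
    linarith

omit [IsProbabilityMeasure P0] in
theorem fin_total (hF : Fi P0) (h1 : dp P0 ≠ ⊤) (h2 : dm P0 ≠ ⊤) :
    (∀ᵐ w ∂P0, total w = (total w).toReal) ∧ Integrable (fun w => (total w).toReal) P0 := by
  have h3 : ∀ᵐ w ∂P0, total w = (total w).toReal := Eventually.mono hF fun w ⟨m, hm⟩ => by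
    rw [total_eq hm]
    rfl
  refine ⟨h3, meas_total.ereal_toReal.aestronglyMeasurable, ?_⟩
  refine lt_of_le_of_lt (lintegral_mono_ae (g := fun w =>
    (total w).toENNReal + (-(total w)).toENNReal) (h3.mono fun w hw => ?_)) ?_
  · generalize (total w).toReal = s at hw
    simp only [hw, ← EReal.coe_neg, EReal.real_coe_toENNReal, Real.enorm_eq_ofReal_abs,
      EReal.toReal_coe]
    rcases abs_cases s with h | h <;> rw [h.1]
    · exact le_self_add
    · exact le_add_self
  · rw [lintegral_add_left meas_total.ereal_toENNReal]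
    exact ENNReal.add_lt_top.2 ⟨h1.lt_top, h2.lt_top⟩

/-- Tails `o(1/n)`: no transience when the drift is below `k`. -/
theorem left_kill {T : ℕ → ℝ} (h : Lw T P0) (hT : Tendsto (fun n : ℕ => n * T n) atTop (𝓝 0))
    (hp : dp P0 ≠ ⊤) : (∀ᵐ a ∂Fld (P0.map rfl1), ¬ Surv a 1) ∧
      ∀ k : ℕ, 1 ≤ k → (dp P0 : EReal) - (dm P0 : EReal) < k → ∀ᵐ a ∂Fld P0, ¬ Surv a k := by
  have ht : Tendsto (fun n : ℕ => ((n : ℝ) + 1) * P0.real (Bs n)) atTop (𝓝 0) := by
    refine squeeze_zero' (Eventually.of_forall fun n =>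
      mul_nonneg (by positivity) measureReal_nonneg) ?_ (by simpa using hT.abs.const_mul 2)
    filter_upwards [h.real_le, eventually_ge_atTop 1] with n h1 h2
    have h3 : (1 : ℝ) ≤ n := by exact_mod_cast h2
    nlinarith [measureReal_nonneg (μ := P0) (s := Bs n)]
  have key : ∀ (Q : Measure (ℕ → ℝ)) [IsProbabilityMeasure Q], In01 Q → Wl Q →
      Tendsto (fun n : ℕ => ((n : ℝ) + 1) * Q.real (Bs n)) atTop (𝓝 0) → dp Q ≠ ⊤ → dm Q ≠ ⊤ →
      ∀ k : ℕ, 1 ≤ k → (dp Q : EReal) - (dm Q : EReal) < k → ∀ᵐ a ∂Fld Q, ¬ Surv a k := by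
    intro Q _ a1 a2 a3 a4 a5 k hk hd
    obtain ⟨b1, b2⟩ := fin_total (fi_of (tail_zero a3)) a4 a5
    rw [(drift_int b1 b2).2.2] at hd
    exact kill_tail a1 a2 a3 b2 b1 hk (by exact_mod_cast hd)
  obtain ⟨r0, r1, r2, -, -, r3, -⟩ := got_RFL0 P0
  obtain ⟨-, e1, e2⟩ := r2 h.lim
  refine ⟨key _ (r1 h.in01) (r3 h.wr) (ht.congr fun n => ?_) (e1 ▸ h.fin) (e2 ▸ hp) 1 le_rfl ?_,
    key P0 h.in01 h.wl ht hp h.fin⟩
  · rw [map_measureReal_apply meas_rfl1 (meas_Bs n)]
    congr 2
    ext w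
    refine exists_congr fun i => and_congr_right fun _ => not_congr ?_
    rw [rfl1]
    constructor <;> intro <;> linarith
  · rw [e1, e2, Mainx.cast_nat 1]
    refine not_le.1 fun h' => ?_
    have h1 := (Mainx.le_iff _ _ hp).1 h'
    exact (ENNReal.lt_add_right hp one_ne_zero).not_ge
      (by simpa only [Nat.cast_one, add_comm] using h1.trans h.le)

theorem above_pos {T : ℕ → ℝ} (h : Lw T P0) (hT : Tendsto (fun n : ℕ => n * T n) atTop (𝓝 0))
    {k : ℕ} (hk : 1 ≤ k) (hd : (dp P0 : EReal) - (dm P0 : EReal) < k) :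
    Dec P0 k fun q => ¬ Tr q := by
  have hp : dp P0 ≠ ⊤ := fun e => hd.not_ge (by
    rw [Mainx.cast_nat k, Mainx.le_iff _ _ h.fin, e]
    exact le_top)
  obtain ⟨a, b⟩ := left_kill h hT hp
  exact core_kill h.in01 hk le_rfl (b k hk hd) a

end

end Pool.Agent.P.MP_c7fa75_pr.HT
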