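import Pool.Agent.P.MP_c7fa75_pr.HT.C

/-! A transient walker below the critical drift under the tail `c / n`. -/

set_option autoImplicit false

namespace Pool.Agent.P.MP_c7fa75_pr.HT

open MeasureTheory ProbabilityTheory Filter Topology Finset
open scoped ENNReal Classical
open Pool.Agent.P.MP_c7fa75_pr.T Pool.Agent.P.MP_c7fa75_pr.R2 Pool.Agent.P.MP_c7fa75_pr.SP

/-- The stacks of the example. -/
noncomputable def stk (k j i : ℕ) : ℝ :=
  if j = 0 then (if i < 2 * k then 3 / 4 else 1 / 2)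
  else if i < j then 1 else if i < 2 * j then 0 else 1 / 2

theorem stk_in (k j i : ℕ) : stk k j i ∈ Set.Icc (0 : ℝ) 1 := by
  unfold stk
  split_ifs <;> constructor <;> norm_num

theorem stk_zero (k i : ℕ) : 0 < stk k 0 i ∧ stk k 0 i < 1 := by
  unfold stk
  rw [if_pos rfl]
  split_ifs <;> constructor <;> norm_num

theorem stk_B0 {k n : ℕ} (h : 2 * k ≤ n) : stk k 0 ∉ Bs n :=
  not_Bs.2 fun i hi => by rw [stk, if_pos rfl, if_neg (by omega)]

theorem stk_B {k j n : ℕ} (hj : j ≠ 0) (h : 2 * j ≤ n) : stk k j ∉ Bs n :=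
  not_Bs.2 fun i hi => by rw [stk, if_neg hj, if_neg (by omega), if_neg (by omega)]

theorem abs_sum_le {w : ℕ → ℝ} (hw : ∀ i, w i ∈ Set.Icc (0 : ℝ) 1) {m : ℕ} (h : w ∉ Bs m)
    (n : ℕ) : ∑ i ∈ range n, |2 * w i - 1| ≤ m := by
  have key : ∀ n, ∑ i ∈ range n, |2 * w i - 1| ≤ ((min n m : ℕ) : ℝ) := fun n => by
    induction n with
    | zero => simp
    | succ n ih =>
      rw [sum_range_succ]
      rcases lt_or_ge n m with h1 | h1
      · have h2 : |2 * w n - 1| ≤ 1 := abs_le.2 ⟨by linarith [(hw n).1], by linarith [(hw n).2]⟩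
        rw [show min (n + 1) m = min n m + 1 by omega]
        push_cast at ih ⊢
        linarith
      · rw [not_Bs.1 h n h1, show min (n + 1) m = min n m by omega]
        norm_num at ih ⊢
        exact ih
  exact (key n).trans (by exact_mod_cast min_le_right n m)

theorem psum_stk0 (k : ℕ) : psum (stk k 0) (2 * k) = k := by
  rw [psum, sum_congr rfl (g := fun _ => (1 / 2 : ℝ)) fun i hi => by
    rw [stk, if_pos rfl, if_pos (mem_range.1 hi)]; norm_num, sum_const, card_range, nsmul_eq_mul]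
  push_cast
  ring

theorem psum_stk {k j : ℕ} (hj : j ≠ 0) (n : ℕ) :
    psum (stk k j) n = ((min n (2 * j - n) : ℕ) : ℝ) := by
  induction n with
  | zero => simp [psum]
  | succ n ih =>
    rw [psum_succ, ih, stk, if_neg hj]
    split_ifs with h1 h2
    · rw [show min (n + 1) (2 * j - (n + 1)) = min n (2 * j - n) + 1 by omega, Nat.cast_succ]
      ring
    · rw [show min n (2 * j - n) = min (n + 1) (2 * j - (n + 1)) + 1 by omega, Nat.cast_succ]
      ring
    · rw [show min (n + 1) (2 * j - (n + 1)) = min n (2 * j - n) by omega]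
      ring

theorem total_stk (k j : ℕ) :
    total (stk k j) = ((k - k * Set.indicator {j : ℕ | 0 < j} 1 j : ℝ) : EReal) := by
  rcases Nat.eq_zero_or_pos j with rfl | hj
  · rw [total_eq (stk_B0 le_rfl), psum_stk0, Set.indicator_of_notMem (by simp)]
    simp
  · rw [total_eq (stk_B hj.ne' le_rfl), psum_stk hj.ne', Set.indicator_of_mem (by simpa using hj)]
    simp

/-- A crude polynomial bound from below. -/
theorem phi_lo {κ C z t σ u k : ℝ} (hκ : κ ≤ 2) (hC : 0 ≤ C) (ht : 1 ≤ t) (htz : t ^ 2 ≤ z)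
    (h1 : |σ| ≤ |u| + k) (h2 : u - k - (2 * u ^ 2 + 2 * k ^ 2) / z ≤ σ) :
    u - 16 / z * u ^ 2 - 8 * C / z ^ 2 * u ^ 4 - (k + 16 * k ^ 2 + 1 + 8 * C * k ^ 4) ≤
      Phi (-1) κ C z t σ := by
  have z1 : 1 ≤ z := by nlinarith
  have z0 : 0 < z := by linarith
  have tz : t ≤ z := by nlinarith
  have s2 : σ ^ 2 ≤ 2 * u ^ 2 + 2 * k ^ 2 := by
    have := pow_le_pow_left₀ (abs_nonneg σ) h1 2
    rw [sq_abs] at this
    nlinarith [sq_abs u, sq_nonneg (|u| - k)]
  have s4 : σ ^ 4 ≤ 8 * u ^ 4 + 8 * k ^ 4 := by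
    have := pow_le_pow_left₀ (sq_nonneg σ) s2 2
    nlinarith [sq_nonneg (u ^ 2 - k ^ 2)]
  have a1 : κ * σ ^ 2 / (2 * z) ≤ (2 * u ^ 2 + 2 * k ^ 2) / z := by
    rw [div_le_div_iff₀ (by positivity) z0]
    nlinarith [mul_le_mul_of_nonneg_right hκ (sq_nonneg σ)]
  have a2 : 6 * σ ^ 2 / (z * t) ≤ 6 * ((2 * u ^ 2 + 2 * k ^ 2) / z) := by
    rw [← mul_div_assoc]
    exact div_le_div₀ (by positivity) (by linarith) z0 (by nlinarith)
  have a3 : 1 / t ≤ 1 := by
    rw [div_le_one (by linarith)]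
    exact ht
  have a4 : C * t * σ ^ 4 / z ^ 3 ≤ C * (8 * u ^ 4 + 8 * k ^ 4) / z ^ 2 := by
    rw [div_le_div_iff₀ (by positivity) (by positivity)]
    have b1 : t * σ ^ 4 ≤ z * (8 * u ^ 4 + 8 * k ^ 4) :=
      mul_le_mul tz s4 (by positivity) z0.le
    have b2 := mul_le_mul_of_nonneg_left b1 (show 0 ≤ C * z ^ 2 by positivity)
    nlinarith
  have a5 : k ^ 2 / z ≤ k ^ 2 := div_le_self (sq_nonneg k) z1
  have a6 : C * k ^ 4 / z ^ 2 ≤ C * k ^ 4 := div_le_self (by positivity) (by nlinarith)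
  have e1 : (2 * u ^ 2 + 2 * k ^ 2) / z = 2 * (1 / z * u ^ 2) + 2 * (k ^ 2 / z) := by ring
  have e2 : C * (8 * u ^ 4 + 8 * k ^ 4) / z ^ 2 =
      8 * C / z ^ 2 * u ^ 4 + 8 * (C * k ^ 4 / z ^ 2) := by ring
  have e3 : 16 / z * u ^ 2 = 16 * (1 / z * u ^ 2) := by ring
  unfold Phi
  rw [e1] at a1 a2 h2
  rw [e2] at a4
  rw [e3]
  linarith

/-- Stacks with nonnegative initial sums and absolute drift at most `4 z` lose a bounded amount. -/
theorem mid_lo {C0 : ℝ} (hC : 0 ≤ C0) {k : ℕ} (hk : 1 ≤ k) : ∃ K : ℝ, 0 ≤ K ∧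
    ∀ (w : ℕ → ℝ), (∀ i, w i ∈ Set.Icc (0 : ℝ) 1) → (∀ n, 0 ≤ psum w n) → ∀ (z : ℕ) (t κb : ℝ),
    (∀ n, ∑ i ∈ range n, |2 * w i - 1| ≤ 4 * z) → 2 * k ≤ z → 1 ≤ t → t ^ 2 ≤ z → 0 ≤ κb → κb ≤ 2 →
    ff (fun _ => κb) z ≤ C0 * z * t * gg (fun _ => κb) z →
    ff (fun _ => κb) z + gg (fun _ => κb) z * (-K) ≤
      Ex w (z + 1 - k) (4 * z) (fun a _ => ff (fun _ => κb) a) := by
  obtain ⟨C, hCe⟩ : ∃ C, C = 256 * C0 + 64 := ⟨_, rfl⟩
  have C1 : 0 ≤ C := by linarith
  obtain ⟨K0, hK0⟩ : ∃ K0 : ℝ, K0 = k + 16 * (k : ℝ) ^ 2 + 1 + 8 * C * (k : ℝ) ^ 4 := ⟨_, rfl⟩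
  refine ⟨96 + 2560 * C + K0, by rw [hK0]; positivity, fun w hw hp z t κb hA hz ht htz h0 h2 hl => ?_⟩
  obtain ⟨κ, hκ⟩ : ∃ κ : ℕ → ℝ, κ = fun _ => κb := ⟨_, rfl⟩
  rw [← hκ] at hl ⊢
  have g0 := gg_pos κ z
  have k1 : (1 : ℝ) ≤ k := by exact_mod_cast hk
  have z0 : (0 : ℝ) < z := by nlinarith
  have ey : ((z + 1 - k : ℕ) : ℝ) = z + 1 - k := by
    rw [Nat.cast_sub (by omega)]
    push_cast
    ring
  obtain ⟨m1, m2, -, m4⟩ := got_MOM w hw _ hA (z + 1 - k) (4 * z)
  have h1 := Ex_mono w (z + 1 - k) (4 * z)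
    (V := fun a b => (ff κ z - gg κ z * K0) + (gg κ z * mg w a b -
      (gg κ z * (16 / z) * mg w a b ^ 2 + gg κ z * (8 * C / z ^ 2) * mg w a b ^ 4)))
    (V' := fun a _ => ff κ a) fun a b hr => by
      obtain ⟨u, hu⟩ : ∃ u, u = mg w a b := ⟨_, rfl⟩
      obtain ⟨s, hs⟩ : ∃ s : ℝ, s = min (u + 1 - k) z := ⟨_, rfl⟩
      have s1 : (z : ℝ) + s ≤ a := by
        rcases hr.1.lt_or_eq with hb | hb
        · have h3 : 2 * z ≤ a := by have := hr.2.2 hb; omega
          have h4 : (2 : ℝ) * z ≤ a := by exact_mod_cast h3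
          linarith [hs.trans_le (min_le_right _ _)]
        · have h3 : (b : ℝ) = z + 1 - k := by rw [hb, ey]
          have h4 : u ≤ a - b := by rw [hu, mg]; linarith [hp (a + b)]
          linarith [hs.trans_le (min_le_left _ _)]
      have s2 : |s| ≤ |u| + k - 1 := by
        rw [abs_le, hs]
        refine ⟨le_min ?_ ?_, (min_le_left _ _).trans ?_⟩ <;>
          linarith [le_abs_self u, neg_abs_le u, abs_nonneg u]
      have s3 : u - k - (2 * u ^ 2 + 2 * (k : ℝ) ^ 2) / z ≤ s := by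
        have p0 : 0 ≤ (2 * u ^ 2 + 2 * (k : ℝ) ^ 2) / z := by positivity
        rw [hs]
        refine le_min (by linarith) ?_
        have : u - z ≤ (2 * u ^ 2 + 2 * (k : ℝ) ^ 2) / z := by
          rw [le_div_iff₀ z0]
          nlinarith [sq_nonneg (u - z), sq_nonneg u, sq_nonneg (k : ℝ), sq_nonneg (z : ℝ)]
        linarith
      have x1 : (z : ℝ) + s ≤ ⌈(z : ℝ) + s⌉₊ := Nat.le_ceil _
      have x2 : |(⌈(z : ℝ) + s⌉₊ : ℝ) - z| ≤ |u| + k := by
        rw [abs_le]
        refine ⟨by linarith [neg_abs_le s], ?_⟩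
        rcases le_total 0 ((z : ℝ) + s) with h | h
        · linarith [Nat.ceil_lt_add_one h, le_abs_self s]
        · rw [Nat.ceil_eq_zero.2 h, Nat.cast_zero]
          linarith [abs_nonneg u]
      have p1 := got_PLO κ κb C0 t z ⌈(z : ℝ) + s⌉₊ h0 h2 hC ht htz (fun n _ _ => by rw [hκ]) hl
      rw [← hCe] at p1
      have p2 := mul_le_mul_of_nonneg_left
        (phi_lo h2 C1 ht htz x2 (by linarith)) g0.le
      have p3 := ff_mono κ (Nat.ceil_le.2 s1)
      rw [← hK0] at p2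
      rw [← hu]
      linarith
  rw [Ex_add, Ex_const, Ex_sub, Ex_add, Ex_mul, Ex_mul, Ex_mul, m1] at h1
  have q2 : 16 / (z : ℝ) * Ex w (z + 1 - k) (4 * z) (fun a b => mg w a b ^ 2) ≤ 96 := by
    rw [div_mul_eq_mul_div, div_le_iff₀ z0]
    rw [ey] at m2
    linarith
  have q4 : 8 * C / (z : ℝ) ^ 2 * Ex w (z + 1 - k) (4 * z) (fun a b => mg w a b ^ 4) ≤
      2560 * C := by
    rw [div_mul_eq_mul_div, div_le_iff₀ (by positivity)]
    push_cast at m4
    nlinarith [mul_le_mul_of_nonneg_left m4 C1]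
  have r2 := mul_le_mul_of_nonneg_left q2 g0.le
  have r4 := mul_le_mul_of_nonneg_left q4 g0.le
  nlinarith

/-- Stacks that start with `2 z` sure right steps gain an amount of order `z`. -/
theorem top_lo {w : ℕ → ℝ} {z y : ℕ} {κb : ℝ} (h2 : κb ≤ 2) (hy : 1 ≤ y)
    (hw : ∀ i, i < 2 * z → w i = 1) :
    ff (fun _ => κb) z + gg (fun _ => κb) z * (z / 9) ≤
      Ex w y (4 * z) (fun a _ => ff (fun _ => κb) a) := by
  obtain ⟨κ, hκ⟩ : ∃ κ : ℕ → ℝ, κ = fun _ => κb := ⟨_, rfl⟩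
  have h1 : ff κ z + gg κ z * (z / 9) ≤ ff κ (2 * z) := by
    have h3 : ∀ i ∈ range z, gg κ z * (1 / 9) ≤ gg κ (z + i) := fun i hi => by
      rw [gg_add]
      refine mul_le_mul_of_nonneg_left ?_ (gg_pos κ z).le
      have h4 : ∑ n ∈ range i, κ (z + n + 1) / ((z : ℝ) + n + 1) ≤ 2 := by
        have h5 := sum_le_card_nsmul (range i) (fun n => κ (z + n + 1) / ((z : ℝ) + n + 1))
          (2 / ((z : ℝ) + 1)) fun n _ => by
            rw [hκ]
            exact div_le_div₀ zero_le_two h2 (by positivity)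
              (by linarith [Nat.cast_nonneg (α := ℝ) n])
        rw [card_range, nsmul_eq_mul] at h5
        refine h5.trans ?_
        have h6 : (i : ℝ) ≤ z := by exact_mod_cast (mem_range.1 hi).le
        rw [← mul_div_assoc, div_le_iff₀ (by positivity)]
        linarith
      have h5 : Real.exp (-1) * Real.exp (-1) ≤ Real.exp (-∑ n ∈ range i,
          κ (z + n + 1) / ((z : ℝ) + n + 1)) := by
        rw [← Real.exp_add]
        exact Real.exp_le_exp.2 (by linarith)
      nlinarith [Real.exp_neg_one_gt_d9]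
    have h4 := card_nsmul_le_sum (range z) _ _ h3
    rw [card_range, nsmul_eq_mul] at h4
    rw [two_mul, ff, ff, sum_range_add]
    linarith
  rw [← hκ]
  refine h1.trans ((Ex_const w y (4 * z) (ff κ (2 * z))).ge.trans
    (integral_mono (intg w y (4 * z) fun _ _ => ff κ (2 * z)) (intg w y (4 * z) fun a _ => ff κ a)
      fun u => ff_mono κ ?_))
  have h3 : Ll (arr w u) (2 * z) = 0 := by
    rw [Ll, card_eq_zero, filter_eq_empty_iff]
    intro i hi
    rw [arr, hw i (mem_range.1 hi), arr1_one]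
    simp
  have h4 := tau_mono (arr w u) y (show 2 * z ≤ 4 * z by omega)
  rw [tau_of_lt (by omega)] at h4
  have h5 := Rr_mono (arr w u) h4
  have h6 := Rr_add_Ll (arr w u) (2 * z)
  omega

/-- The bounded stack loses `κ - 1` and a small error. -/
theorem zero_lo {C0 : ℝ} (hC : 0 ≤ C0) {k : ℕ} (hk : 1 ≤ k) : ∃ K : ℝ, 0 ≤ K ∧
    ∀ (z : ℕ) (t κb : ℝ), 4 * k ≤ z → 1 ≤ t → t ^ 2 ≤ z → 0 ≤ κb → κb ≤ 2 →
    ff (fun _ => κb) z ≤ C0 * z * t * gg (fun _ => κb) z →
    ff (fun _ => κb) z + gg (fun _ => κb) z * (1 - κb - K / t) ≤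
      Ex (stk k 0) (z + 1 - k) (4 * z) (fun a _ => ff (fun _ => κb) a) := by
  obtain ⟨C, C1, h⟩ := got_QLO C0 hC
  obtain ⟨B, hB⟩ : ∃ B : ℝ, B = (k : ℝ) + ((2 * k : ℕ) : ℝ) := ⟨_, rfl⟩
  refine ⟨C * (1 + B ^ 2), by positivity, fun z t κb hz ht htz h0 h2 hl => ?_⟩
  refine le_trans ?_ (h _ (stk_in k 0) _ (abs_sum_le (stk_in k 0) (stk_B0 le_rfl)) k z t κb _ hk
    (by omega) ht htz h0 h2 (fun _ _ _ => le_rfl) hl)
  have e1 : win (fun i => |2 * stk k 0 i - 1|) z = 0 := sum_eq_zero fun i hi => by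
    rw [not_Bs.1 (stk_B0 le_rfl) i (by have := (mem_Ico.1 hi).1; omega)]
    norm_num
  rw [e1, psum_const (stk_B0 le_rfl) (by omega), psum_stk0, ← hB]
  refine add_le_add le_rfl (mul_le_mul_of_nonneg_left ?_ (gg_pos _ z).le)
  have t0 : 0 < t := by linarith
  have z0 : (0 : ℝ) < z := by nlinarith
  have h3 : t * min (B ^ 2 / z) B ≤ B ^ 2 / t := by
    refine (mul_le_mul_of_nonneg_left (min_le_left _ _) t0.le).trans ?_
    rw [← mul_div_assoc, div_le_div_iff₀ z0 t0]
    nlinarith [mul_le_mul_of_nonneg_left htz (sq_nonneg B)]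
  have h4 := mul_le_mul_of_nonneg_left h3 C1
  have e2 : C * (1 + B ^ 2) / t = C * (1 / t) + C * (B ^ 2 / t) := by ring
  rw [e2]
  linarith

theorem stk_fin (k j : ℕ) : ∃ m, stk k j ∉ Bs m := by
  rcases eq_or_ne j 0 with rfl | hj
  · exact ⟨_, stk_B0 le_rfl⟩
  · exact ⟨_, stk_B hj le_rfl⟩

theorem ae_stk (ν : Measure ℕ) (k : ℕ) {φ : (ℕ → ℝ) → Prop} (h : ∀ j, φ (stk k j)) :
    ∀ᵐ w ∂ν.map (stk k), φ w := by
  have h1 : ∀ᵐ w ∂ν.map (stk k), ∃ j, stk k j = w :=
    (ae_map_iff Measurable.of_discrete.aemeasurable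
      (Set.countable_range (stk k)).measurableSet).2 (ae_of_all _ fun j => ⟨j, rfl⟩)
  exact h1.mono fun w ⟨j, hj⟩ => hj ▸ h j

/-- The hypotheses and the drift of the example. -/
theorem law_stk {c : ℝ} {k : ℕ} (hk : 1 ≤ k) (ν : Measure ℕ) [IsProbabilityMeasure ν]
    (h0 : 0 < ν.real {j | 0 < j}) (h1 : ν.real {j | 0 < j} < 1)
    (ht : ∀ n : ℕ, 1 ≤ n → ν.real {j | n / 2 < j} ≤ c / n) :
    Lw (fun n => c / n) (ν.map (stk k)) ∧
      (dp (ν.map (stk k)) : EReal) - (dm (ν.map (stk k)) : EReal) < k := by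
  have mF : Measurable (stk k) := Measurable.of_discrete
  have := Measure.isProbabilityMeasure_map (μ := ν) mF.aemeasurable
  have k1 : (1 : ℝ) ≤ k := by exact_mod_cast hk
  have mS : MeasurableSet {j : ℕ | 0 < j} := (Set.to_countable _).measurableSet
  have iI : Integrable (Set.indicator {j : ℕ | 0 < j} (1 : ℕ → ℝ)) ν :=
    (integrable_const 1).indicator mS
  have eS : ∀ j, (total (stk k j)).toReal = k - k * Set.indicator {j : ℕ | 0 < j} 1 j :=
    fun j => by rw [total_stk, EReal.toReal_coe]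
  have iS : Integrable (fun w => (total w).toReal) (ν.map (stk k)) :=
    (integrable_map_measure meas_total.ereal_toReal.aestronglyMeasurable mF.aemeasurable).2
      (((integrable_const (k : ℝ)).sub (iI.const_mul k)).congr (ae_of_all _ fun j => (eS j).symm))
  obtain ⟨-, f2, e⟩ := drift_int (P0 := ν.map (stk k)) (S := fun w => (total w).toReal)
    (ae_stk ν k fun j => by rw [eS, total_stk]) iS
  rw [integral_map mF.aemeasurable iS.aestronglyMeasurable] at e
  simp only [eS] at e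
  rw [integral_sub (integrable_const _) (iI.const_mul _), integral_const_mul,
    integral_indicator_one mS, integral_const, probReal_univ, one_smul] at e
  have p0 : ∀ {A : Set (ℕ → ℝ)}, MeasurableSet A → stk k 0 ∈ A → 0 < ν.map (stk k) A :=
    fun {A} hA h => by
      rw [Measure.map_apply mF hA, pos_iff_ne_zero]
      intro hz
      have h2 : ν {j : ℕ | 0 < j}ᶜ = 0 := measure_mono_null (fun j hj => by
        have : j = 0 := by simpa using hj
        exact this ▸ h) hz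
      have h3 := probReal_compl_eq_one_sub (μ := ν) mS
      rw [Measure.real, h2, ENNReal.toReal_zero] at h3
      linarith
  refine ⟨⟨ae_stk ν k (stk_in k), p0 Mainx.meas_l fun n => (stk_zero k n).2,
    p0 Mainx.meas_r fun n => (stk_zero k n).1,
    ae_stk ν k fun j => (stk_fin k j).elim fun m hm => ⟨_, psum_lim hm⟩, f2, ?_, ?_⟩, ?_⟩
  · have h2 := (Mainx.le_iff (dp (ν.map (stk k))) 0 f2).1 (by
      rw [e, EReal.coe_ennreal_zero]
      exact EReal.coe_nonneg.2 (by nlinarith))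
    rwa [zero_add] at h2
  · filter_upwards [eventually_ge_atTop (2 * k)] with n hn
    rw [Measure.map_apply mF (meas_Bs n)]
    refine (measure_mono (t := {j | n / 2 < j}) fun j hj => ?_).trans ?_
    · by_contra hlt
      rcases eq_or_ne j 0 with rfl | h
      · exact stk_B0 hn hj
      · exact stk_B h (by simp only [Set.mem_ofPred_eq] at hlt; omega) hj
    · rw [← ofReal_measureReal]
      exact ENNReal.ofReal_le_ofReal (ht n (by omega))
  · rw [e, ← EReal.coe_natCast, EReal.coe_lt_coe_iff]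
    nlinarith

theorem above_neg {c : ℝ} (hc : 0 < c) {k : ℕ} (hk : 1 ≤ k) : ∃ P0 : Measure (ℕ → ℝ),
    IsProbabilityMeasure P0 ∧ Lw (fun n => c / n) P0 ∧
      (dp P0 : EReal) - (dm P0 : EReal) < k ∧ Dec P0 k Tr := by
  obtain ⟨γ, g0, g1, g2⟩ : ∃ γ : ℝ, 0 < γ ∧ 200 * γ ≤ c ∧ 200 * γ ≤ 1 :=
    ⟨min c 1 / 200, by positivity, by linarith [min_le_left c 1], by linarith [min_le_right c 1]⟩
  obtain ⟨C0, hC, hl⟩ := got_LOSS γ g0 (by linarith)
  obtain ⟨K1, -, hz⟩ := zero_lo hC hk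
  obtain ⟨K, hK, hm⟩ := mid_lo hC hk
  obtain ⟨n1, hn1⟩ := exists_nat_ge (100 * K)
  obtain ⟨ν, hν, hq⟩ := law_of (q := fun n => 100 * γ / (((max n n1 : ℕ) : ℝ) + 1))
    (fun a b hab => div_le_div_of_nonneg_left (by positivity) (by positivity)
      (by have : max a n1 ≤ max b n1 := max_le_max hab le_rfl
          exact_mod_cast Nat.succ_le_succ this))
    ((div_le_self (by positivity) (by linarith [Nat.cast_nonneg (α := ℝ) (max 0 n1)])).trans
      (by linarith))
    (tendsto_const_nhds.div_atTop (tendsto_atTop_add_const_right _ _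
      (tendsto_natCast_atTop_atTop.comp (tendsto_atTop_mono (fun n => le_max_left n n1) tendsto_id))))
  have q0 : ν.real {j | 0 < j} = 100 * γ / ((n1 : ℝ) + 1) := by rw [hq, Nat.zero_max]
  have n0 : (0 : ℝ) ≤ n1 := Nat.cast_nonneg n1
  have mF : Measurable (stk k) := Measurable.of_discrete
  have := Measure.isProbabilityMeasure_map (μ := ν) mF.aemeasurable
  obtain ⟨hL, hd⟩ := law_stk (c := c) hk ν (by rw [q0]; positivity)
    (by rw [q0, div_lt_one (by positivity)]; linarith) fun n hn => by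
      have h1 : n ≤ 2 * (max (n / 2) n1 + 1) := by omega
      have h2 : (n : ℝ) ≤ 2 * (((max (n / 2) n1 : ℕ) : ℝ) + 1) := by exact_mod_cast h1
      have h3 : (0 : ℝ) < n := by exact_mod_cast hn
      rw [hq, div_le_div_iff₀ (by positivity) h3]
      nlinarith [mul_le_mul_of_nonneg_left h2 g0.le,
        mul_le_mul_of_nonneg_right g1 (show (0 : ℝ) ≤ ((max (n / 2) n1 : ℕ) : ℝ) + 1 by positivity)]
  refine ⟨_, this, hL, hd, (surv_of hL.in01 (ae_stk ν k (stk_fin k)) (κ := fun _ => 1 + γ)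
    (gg_summ one_lt_two ?_) ?_).resolve_right (by omega)⟩
  · filter_upwards [(tendsto_const_nhds (x := (2 : ℝ)).div_atTop (Real.tendsto_log_atTop.comp
      tendsto_natCast_atTop_atTop)).eventually_le_const g0] with n hn
    exact add_le_add le_rfl hn
  filter_upwards [eventually_ge_atTop (4 * k), eventually_ge_atTop n1,
    (tendsto_const_nhds (x := K1).div_atTop ((tendsto_rpow_atTop g0).comp
      tendsto_natCast_atTop_atTop)).eventually_le_const g0] with z z1 z2 z3
  have z4 : (1 : ℝ) ≤ z := by exact_mod_cast (show 1 ≤ z by omega)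
  have t1 : 1 ≤ (z : ℝ) ^ γ := Real.one_le_rpow z4 g0.le
  have t2 : ((z : ℝ) ^ γ) ^ 2 ≤ z := by
    rw [← Real.rpow_natCast, ← Real.rpow_mul (by linarith)]
    exact (Real.rpow_le_rpow_of_exponent_le z4 (by push_cast; linarith)).trans_eq (Real.rpow_one _)
  have l1 := hl (fun _ => 1 + γ) (fun _ => le_rfl) z (by omega)
  have gp := gg_pos (fun _ => 1 + γ) z
  have iE := (Ex_Qa (ν.map (stk k)) (z + 1 - k) (4 * z) fun a _ => ff (fun _ => 1 + γ) a).2.1
  have mS : ∀ n, MeasurableSet {j : ℕ | n < j} := fun n => (Set.to_countable _).measurableSet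
  have iI : ∀ n, Integrable (Set.indicator {j : ℕ | n < j} (1 : ℕ → ℝ)) ν := fun n =>
    (integrable_const 1).indicator (mS n)
  rw [integral_map mF.aemeasurable iE.aestronglyMeasurable]
  obtain ⟨f, hf⟩ : ∃ f, f = ff (fun _ => 1 + γ) z := ⟨_, rfl⟩
  obtain ⟨g, hg⟩ : ∃ g, g = gg (fun _ => 1 + γ) z := ⟨_, rfl⟩
  have iD : Integrable (fun j => g * (z / 9) * Set.indicator {j : ℕ | 2 * z < j} 1 j -
      g * K * Set.indicator {j : ℕ | 0 < j} 1 j) ν :=
    ((iI _).const_mul _).sub ((iI _).const_mul _)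
  have h1 := integral_mono (μ := ν)
    (f := fun j => (f - g * (2 * γ)) + (g * (z / 9) * Set.indicator {j : ℕ | 2 * z < j} 1 j -
      g * K * Set.indicator {j : ℕ | 0 < j} 1 j)) ((integrable_const _).add iD)
    ((integrable_map_measure iE.aestronglyMeasurable mF.aemeasurable).1 iE) fun j => by
      have b1 := mul_nonneg gp.le g0.le
      have b2 := mul_nonneg gp.le hK
      simp only [Function.comp, hf, hg]
      rcases Nat.eq_zero_or_pos j with rfl | hj
      · rw [Set.indicator_of_notMem (by simp), Set.indicator_of_notMem (by simp)]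
        have a1 := hz z _ (1 + γ) z1 t1 t2 (by linarith) (by linarith) l1
        have a2 := mul_le_mul_of_nonneg_left z3 gp.le
        simp only [Function.comp] at a2
        linarith
      rw [Set.indicator_of_mem (s := {j : ℕ | 0 < j}) hj, Pi.one_apply]
      rcases le_or_gt j (2 * z) with h | h
      · rw [Set.indicator_of_notMem (by simpa using h)]
        have a1 := hm _ (stk_in k j) (fun n => by rw [psum_stk hj.ne']; positivity) z _ (1 + γ)
          (fun n => (abs_sum_le (stk_in k j) (stk_B hj.ne' le_rfl) n).trans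
            (by exact_mod_cast (show 2 * j ≤ 4 * z by omega))) (by omega) t1 t2 (by linarith)
          (by linarith) l1
        linarith
      · rw [Set.indicator_of_mem (s := {j : ℕ | 2 * z < j}) h, Pi.one_apply]
        have a1 := top_lo (w := stk k j) (z := z) (y := z + 1 - k) (κb := 1 + γ) (by linarith)
          (by omega) fun i hi => by rw [stk, if_neg hj.ne', if_pos (by omega)]
        linarith
  refine le_trans ?_ h1
  rw [integral_add (integrable_const _) iD,
    integral_sub ((iI _).const_mul _) ((iI _).const_mul _), integral_const_mul, integral_const_mul,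
    integral_indicator_one (mS _), integral_indicator_one (mS _), integral_const, probReal_univ,
    one_smul, q0, hq, max_eq_left (show n1 ≤ 2 * z by omega), ← hf]
  rw [← hg] at gp
  have c1 : K * (100 * γ / ((n1 : ℝ) + 1)) ≤ γ := by
    rw [← mul_div_assoc, div_le_iff₀ (by positivity)]
    nlinarith
  have c2 : 3 * γ ≤ z / 9 * (100 * γ / (((2 * z : ℕ) : ℝ) + 1)) := by
    rw [← mul_div_assoc, le_div_iff₀ (by positivity)]
    push_cast
    nlinarith
  nlinarith [mul_le_mul_of_nonneg_left c1 gp.le, mul_le_mul_of_nonneg_left c2 gp.le]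

end Pool.Agent.P.MP_c7fa75_pr.HT
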