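import Pool.Agent.P.MP_c7fa75_pr.HT.E

/-! The sharp example under the tail `c / n`. -/

set_option autoImplicit false

namespace Pool.Agent.P.MP_c7fa75_pr.HT

open MeasureTheory ProbabilityTheory Filter Topology Finset
open scoped ENNReal Classical
open Pool.Agent.P.MP_c7fa75_pr.T Pool.Agent.P.MP_c7fa75_pr.R2 Pool.Agent.P.MP_c7fa75_pr.SP

namespace E2x

theorem fin (P0 : Measure (ℕ → ℝ)) [IsProbabilityMeasure P0] (κ : ℕ → ℝ) (h : Summable (gg κ))
    (N : ℕ → ℕ) (k z0 : ℕ)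
    (hz : ∀ z, z0 ≤ z → ff κ z ≤ ∫ e, ff κ (Rr e (tau e (z + 1 - k) (N z))) ∂Qa P0) :
    ∃ f : ℕ → ℝ≥0∞, (∀ z, z < z0 → 1 ≤ f z) ∧ Tendsto f atTop (𝓝 0) ∧
      ∀ z, z0 ≤ z → ∫⁻ e, f (Rr e (tau e (z + 1 - k) (N z))) ∂Qa P0 ≤ f z := by
  set S : ℝ := ∑' i, gg κ i with hS
  have hpos : ∀ x, 0 < S - ff κ x := fun x => sub_pos.2 (LYSx.ff_lt κ h x)
  refine ⟨fun x => ENNReal.ofReal ((S - ff κ x) / (S - ff κ z0)), fun z hzz => ?_, ?_,
    fun z hzz => ?_⟩
  · rw [ENNReal.one_le_ofReal, one_le_div (hpos z0)]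
    linarith [ff_mono κ hzz.le]
  · have h1 : Tendsto (fun x => (S - ff κ x) / (S - ff κ z0)) atTop
        (𝓝 ((S - S) / (S - ff κ z0))) :=
      (tendsto_const_nhds.sub (LYSx.ff_tendsto κ h)).div_const _
    rw [sub_self, zero_div] at h1
    simpa using ENNReal.tendsto_ofReal h1
  · have hi := (Ex_Qa P0 (z + 1 - k) (N z) (fun a _ => ff κ a)).1
    have hi2 : Integrable (fun e => (S - ff κ (Rr e (tau e (z + 1 - k) (N z)))) / (S - ff κ z0))
        (Qa P0) := ((integrable_const S).sub hi).div_const _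
    rw [← ofReal_integral_eq_lintegral_ofReal hi2
      (ae_of_all _ fun e => div_nonneg (hpos _).le (hpos _).le)]
    refine ENNReal.ofReal_le_ofReal ?_
    rw [integral_div, integral_sub (integrable_const S) hi]
    refine div_le_div_of_nonneg_right ?_ (hpos _).le
    have := hz z hzz
    simp only [integral_const, probReal_univ, smul_eq_mul, one_mul]
    linarith

theorem surv2 {P0 : Measure (ℕ → ℝ)} [IsProbabilityMeasure P0] (h01 : In01 P0) (hF : Fi P0) {k : ℕ}
    (hk : 1 ≤ k) {κ : ℕ → ℝ} (hs : Summable (gg κ)) (N : ℕ → ℕ)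
    (hf : ∀ᶠ z in atTop, ff κ z ≤ ∫ w, Ex w (z + 1 - k) (N z) (fun a _ => ff κ a) ∂P0) :
    Dec P0 k Tr := by
  obtain ⟨z1, hz1⟩ := eventually_atTop.1 hf
  obtain ⟨f, hf1, hf0, hfs⟩ := fin P0 κ hs N k (max z1 k) fun z hz => by
    rw [(Ex_Qa P0 (z + 1 - k) (N z) (fun a _ => ff κ a)).2.2]
    exact hz1 z ((le_max_left _ _).trans hz)
  have mF : ∀ z : ℕ, Measurable (fun e : ℕ → Bool => Rr e (tau e (z + 1 - k) (N z))) :=
    fun z => meas_Rr_tau _ _
  have hsup := got_SUP (ℕ → Bool) (Qa P0) (fun e z => Rr e (tau e (z + 1 - k) (N z))) k _ f mF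
    (le_max_right _ _) hf1 hfs
  have hch := got_CH (ℕ → Bool) (ℤ → ℕ → Bool) (Qa P0) (Fld P0)
    (fun (n : ℕ) (a : ℤ → ℕ → Bool) => a ((n : ℤ) + 1))
    (fun e z => Rr e (tau e (z + 1 - k) (N z))) k mF (fun n => measurable_pi_apply _)
    (fld_indep P0) (fun n => fld_map P0 _)
  set S : ℕ → Set (ℤ → ℕ → Bool) := fun z => {ω | ∀ n, k ≤
    it (fun (e : ℕ → Bool) (z : ℕ) => Rr e (tau e (z + 1 - k) (N z)))
      (fun i : ℕ => ω ((i : ℤ) + 1)) z (n + 1)} with hS
  have hcompl : ∀ z, Fld P0 (S z)ᶜ ≤ f z := by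
    intro z
    have h1 := hsup z
    rw [← (hch z).2] at h1
    have h2 : Fld P0 (S z) + Fld P0 (S z)ᶜ = 1 := prob_add_prob_compl (hch z).1
    have h3 : Fld P0 (S z) + Fld P0 (S z)ᶜ ≤ Fld P0 (S z) + f z := h2.le.trans h1
    exact (ENNReal.add_le_add_iff_left (measure_ne_top _ _)).1 h3
  have hal : ∀ᵐ a ∂Fld P0, ∃ z, k ≤ z ∧ a ∈ S z := by
    rw [ae_iff]
    refine le_antisymm (ge_of_tendsto hf0 ?_) zero_le
    filter_upwards [eventually_ge_atTop k] with z hz
    refine (measure_mono fun a ha => ?_).trans (hcompl z)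
    exact fun h => ha ⟨z, hz, h⟩
  have hS : ∀ᵐ a ∂Fld P0, Surv a k ∧ ∀ x m, ∃ i, m ≤ i ∧ a x i = true := by
    filter_upwards [hal, inf_arrows h01 hF true] with a ⟨z, hz, ha⟩ hi
    exact ⟨SURVQx.surv_of_alive a k z N hz (hi 0) ha, hi⟩
  intro Θ _ μ _ M hE
  obtain ⟨R, hRW, hRX⟩ := got_RUN0 Θ μ M k
  filter_upwards [got_FLD Θ μ k R P0 h01 (hRW ▸ hE) _ hS] with θ ⟨a, ⟨hs, hinf⟩, hfol⟩
  exact hRX ▸ got_DT a _ k (R.nn θ) hfol hs hinf (k - 1) (by omega)

theorem Ex_N (w : ℕ → ℝ) (y : ℕ) (κ : ℕ → ℝ) {m n : ℕ} (h : m ≤ n) :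
    Ex w y m (fun a _ => ff κ a) ≤ Ex w y n (fun a _ => ff κ a) :=
  integral_mono (intg w y m fun a _ => ff κ a) (intg w y n fun a _ => ff κ a)
    fun _ => ff_mono κ (Rr_mono _ (tau_mono _ y h))

theorem Ex_top {w : ℕ → ℝ} {y m N : ℕ} (κ : ℕ → ℝ) (hy : 1 ≤ y) (hm : m ≤ N)
    (hw : ∀ i, i < m → w i = 1) : ff κ m ≤ Ex w y N (fun a _ => ff κ a) := by
  refine (Ex_const w y N (ff κ m)).ge.trans
    (integral_mono (intg w y N fun _ _ => ff κ m) (intg w y N fun a _ => ff κ a)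
      fun u => ff_mono κ ?_)
  have h3 : Ll (arr w u) m = 0 := by
    rw [Ll, card_eq_zero, filter_eq_empty_iff]
    intro i hi
    rw [arr, hw i (mem_range.1 hi), arr1_one]
    simp
  have h4 := tau_mono (arr w u) y hm
  rw [tau_of_lt (by omega)] at h4
  have h5 := Rr_mono (arr w u) h4
  have h6 := Rr_add_Ll (arr w u) m
  omega

/-- A bounded stack. -/
theorem low {C0 : ℝ} (hC : 0 ≤ C0) {k : ℕ} (hk : 1 ≤ k) (L : ℕ) : ∃ K : ℝ,
    ∀ w : ℕ → ℝ, (∀ i, w i ∈ Set.Icc (0 : ℝ) 1) → w ∉ Bs L →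
    ∀ (z : ℕ) (t κb : ℝ), 2 * k ≤ z → 2 * L ≤ z → 1 ≤ t → t ^ 2 ≤ z → 0 ≤ κb → κb ≤ 2 →
    ff (fun _ => κb) z ≤ C0 * z * t * gg (fun _ => κb) z →
    ff (fun _ => κb) z + gg (fun _ => κb) z * (1 - k + psum w L - κb - K / t) ≤
      Ex w (z + 1 - k) (4 * z) (fun a _ => ff (fun _ => κb) a) := by
  obtain ⟨C, C1, h⟩ := got_QLO C0 hC
  obtain ⟨B, hB⟩ : ∃ B : ℝ, B = (k : ℝ) + L := ⟨_, rfl⟩
  refine ⟨C * (1 + B ^ 2), fun w hw hL z t κb hz hz' ht htz h0 h2 hl => ?_⟩
  refine le_trans ?_ (h _ hw _ (abs_sum_le hw hL) k z t κb _ hk hz ht htz h0 h2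
    (fun _ _ _ => le_rfl) hl)
  have e1 : win (fun i => |2 * w i - 1|) z = 0 := sum_eq_zero fun i hi => by
    rw [not_Bs.1 hL i (by have := (mem_Ico.1 hi).1; omega)]
    norm_num
  rw [e1, psum_const hL (show L ≤ z by omega), ← hB]
  refine add_le_add le_rfl (mul_le_mul_of_nonneg_left ?_ (gg_pos _ z).le)
  have t0 : 0 < t := by linarith
  have z0 : (0 : ℝ) < z := by nlinarith
  have h3 : t * min (B ^ 2 / z) B ≤ B ^ 2 / t := by
    refine (mul_le_mul_of_nonneg_left (min_le_left _ _) t0.le).trans ?_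
    rw [← mul_div_assoc, div_le_div_iff₀ z0 t0]
    nlinarith [mul_le_mul_of_nonneg_left htz (sq_nonneg B)]
  have h4 := mul_le_mul_of_nonneg_left h3 C1
  have e2 : C * (1 + B ^ 2) / t = C * (1 / t) + C * (B ^ 2 / t) := by ring
  rw [e2]
  linarith

theorem tel {z m : ℕ} (hz : 1 ≤ z) (h : z ≤ m) :
    ∑ i ∈ Ico z m, 1 / ((i : ℝ) * (i + 1)) = 1 / z - 1 / m := by
  induction m, h using Nat.le_induction with
  | base => simp
  | succ m hm ih =>
    have : (0 : ℝ) < m := by exact_mod_cast (show 0 < m by omega)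
    rw [sum_Ico_succ_top hm, ih]
    push_cast
    field_simp
    ring

/-- The gain from the tall stacks. -/
theorem gain {γ : ℝ} (g0 : 0 ≤ γ) {z b : ℕ} (hz : 1 ≤ z) (hb : 1 ≤ b) :
    gg (fun _ => 1 + γ) z * (1 - γ * Real.log b - 1 / b) ≤
      ∑ i ∈ Ico z (b * z), gg (fun _ => 1 + γ) i * (1 / ((i : ℝ) + 1)) := by
  have z0 : (0 : ℝ) < z := by exact_mod_cast hz
  have b1 : (1 : ℝ) ≤ b := by exact_mod_cast hb
  have gp := gg_pos (fun _ => 1 + γ) z
  have l0 := mul_nonneg g0 (Real.log_nonneg b1)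
  obtain ⟨g, hg⟩ : ∃ g, g = gg (fun _ => 1 + γ) z := ⟨_, rfl⟩
  have h1 : ∀ i ∈ Ico z (b * z), g * (1 - γ * Real.log b) * z * (1 / ((i : ℝ) * (i + 1))) ≤
      gg (fun _ => 1 + γ) i * (1 / ((i : ℝ) + 1)) := fun i hi => by
    obtain ⟨i1, i2⟩ := mem_Ico.1 hi
    have i0 : (0 : ℝ) < i := by exact_mod_cast (show 0 < i by omega)
    have i3 : (i : ℝ) ≤ b * z := by exact_mod_cast i2.le
    have h2 := LOSSx.mono (κ := fun _ => 1 + γ) (p := 1 + γ) (by linarith) (fun _ => le_rfl) z hz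
      i i1
    rw [← hg, Real.rpow_add z0, Real.rpow_add i0, Real.rpow_one, Real.rpow_one] at h2
    have h3 : (i : ℝ) ^ γ * (1 - γ * Real.log b) ≤ (z : ℝ) ^ γ := by
      have h4 := Real.log_le_log i0 i3
      rw [Real.log_mul (by linarith) z0.ne'] at h4
      have h5 := Real.add_one_le_exp (-(γ * Real.log b))
      rw [Real.rpow_def_of_pos i0, Real.rpow_def_of_pos z0]
      refine (mul_le_mul_of_nonneg_left (show _ ≤ Real.exp (-(γ * Real.log b)) by linarith)
        (Real.exp_pos _).le).trans ?_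
      rw [← Real.exp_add]
      exact Real.exp_le_exp.2 (by nlinarith [mul_le_mul_of_nonneg_left h4 g0])
    have p0 : 0 < (i : ℝ) ^ γ := Real.rpow_pos_of_pos i0 γ
    have h4 : g * (1 - γ * Real.log b) * z ≤ gg (fun _ => 1 + γ) i * i := by
      refine le_of_mul_le_mul_right ?_ p0
      have h5 := mul_le_mul_of_nonneg_left h3 (show 0 ≤ g * z by rw [hg]; positivity)
      nlinarith
    have e : gg (fun _ => 1 + γ) i * (1 / ((i : ℝ) + 1)) =
        gg (fun _ => 1 + γ) i * i * (1 / ((i : ℝ) * (i + 1))) := by field_simp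
    rw [e]
    exact mul_le_mul_of_nonneg_right h4 (by positivity)
  refine le_trans ?_ (sum_le_sum h1)
  rw [← mul_sum, tel hz (Nat.le_mul_of_pos_left z hb), ← hg]
  rw [← hg] at gp
  push_cast
  have e : g * (1 - γ * Real.log b) * z * (1 / z - 1 / (b * z)) =
      g * ((1 - γ * Real.log b) * (1 - 1 / b)) := by field_simp
  rw [e]
  refine mul_le_mul_of_nonneg_left ?_ gp.le
  nlinarith [mul_nonneg l0 (show (0 : ℝ) ≤ 1 / b by positivity)]

/-- The stacks of the sharp example. -/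
noncomputable def sk (L : ℕ) (x : ℝ) (j : ℕ) : ℕ → ℝ :=
  if j = 0 then fun i => if i < L then (1 + x) / 2 else 1 / 2 else stk 0 j

variable {L : ℕ} {x : ℝ}

theorem st_pos {j : ℕ} (hj : j ≠ 0) : sk L x j = stk 0 j := if_neg hj

theorem st_zero (x0 : 0 ≤ x) (x1 : x < 1) (i : ℕ) : 0 < sk L x 0 i ∧ sk L x 0 i < 1 := by
  rw [sk, if_pos rfl]
  split_ifs <;> constructor <;> linarith

theorem st_in (x0 : 0 ≤ x) (x1 : x < 1) (j i : ℕ) : sk L x j i ∈ Set.Icc (0 : ℝ) 1 := by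
  rcases eq_or_ne j 0 with rfl | hj
  · exact ⟨(st_zero x0 x1 i).1.le, (st_zero x0 x1 i).2.le⟩
  · exact st_pos (L := L) (x := x) hj ▸ stk_in 0 j i

theorem st_B0 {n : ℕ} (h : L ≤ n) : sk L x 0 ∉ Bs n :=
  not_Bs.2 fun i hi => by
    rw [sk, if_pos rfl]
    exact if_neg (by omega)

theorem st_B {j n : ℕ} (h : L ≤ n) (h' : 2 * j ≤ n) : sk L x j ∉ Bs n := by
  rcases eq_or_ne j 0 with rfl | hj
  · exact st_B0 h
  · exact st_pos (L := L) (x := x) hj ▸ stk_B hj h'

theorem psum_st0 : psum (sk L x 0) L = L * x := by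
  rw [psum, sum_congr rfl (g := fun _ => x) fun i hi => by
    rw [sk, if_pos rfl, if_pos (mem_range.1 hi)]
    ring, sum_const, card_range, nsmul_eq_mul]

theorem total_st (j : ℕ) : total (sk L x j) =
    ((L * x - L * x * Set.indicator {j : ℕ | 0 < j} 1 j : ℝ) : EReal) := by
  rcases Nat.eq_zero_or_pos j with rfl | hj
  · rw [total_eq (st_B0 le_rfl), psum_st0, Set.indicator_of_notMem (by simp)]
    simp
  · rw [st_pos hj.ne', total_stk, Set.indicator_of_mem (by simpa using hj)]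
    simp

theorem ae_st (ν : Measure ℕ) {φ : (ℕ → ℝ) → Prop} (h : ∀ j, φ (sk L x j)) :
    ∀ᵐ w ∂ν.map (sk L x), φ w := by
  have h1 : ∀ᵐ w ∂ν.map (sk L x), ∃ j, sk L x j = w :=
    (ae_map_iff Measurable.of_discrete.aemeasurable
      (Set.countable_range (sk L x)).measurableSet).2 (ae_of_all _ fun j => ⟨j, rfl⟩)
  exact h1.mono fun w ⟨j, hj⟩ => hj ▸ h j

theorem law_st {c : ℝ} (x0 : 0 ≤ x) (x1 : x < 1) (ν : Measure ℕ) [IsProbabilityMeasure ν]
    (h1 : ν.real {j | 0 < j} < 1) (ht : ∀ n : ℕ, 1 ≤ n → ν.real {j | n / 2 < j} ≤ c / n) :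
    Lw (fun n => c / n) (ν.map (sk L x)) ∧
      (dp (ν.map (sk L x)) : EReal) - (dm (ν.map (sk L x)) : EReal) =
        (L * x - L * x * ν.real {j | 0 < j} : ℝ) := by
  have mF : Measurable (sk L x) := Measurable.of_discrete
  have := Measure.isProbabilityMeasure_map (μ := ν) mF.aemeasurable
  have mS : MeasurableSet {j : ℕ | 0 < j} := (Set.to_countable _).measurableSet
  have iI : Integrable (Set.indicator {j : ℕ | 0 < j} (1 : ℕ → ℝ)) ν :=
    (integrable_const 1).indicator mS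
  have eS : ∀ j, (total (sk L x j)).toReal =
      L * x - L * x * Set.indicator {j : ℕ | 0 < j} 1 j :=
    fun j => by rw [total_st, EReal.toReal_coe]
  have iS : Integrable (fun w => (total w).toReal) (ν.map (sk L x)) :=
    (integrable_map_measure meas_total.ereal_toReal.aestronglyMeasurable mF.aemeasurable).2
      (((integrable_const (L * x)).sub (iI.const_mul (L * x))).congr
        (ae_of_all _ fun j => (eS j).symm))
  obtain ⟨-, f2, e⟩ := drift_int (P0 := ν.map (sk L x)) (S := fun w => (total w).toReal)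
    (ae_st ν fun j => by rw [eS, total_st]) iS
  rw [integral_map mF.aemeasurable iS.aestronglyMeasurable] at e
  simp only [eS] at e
  rw [integral_sub (integrable_const _) (iI.const_mul _), integral_const, probReal_univ, one_smul,
    integral_const_mul, integral_indicator_one mS] at e
  have p0 : ∀ {A : Set (ℕ → ℝ)}, MeasurableSet A → sk L x 0 ∈ A → 0 < ν.map (sk L x) A :=
    fun {A} hA h => by
      rw [Measure.map_apply mF hA, pos_iff_ne_zero]
      intro hz
      have h2 : ν {j : ℕ | 0 < j}ᶜ = 0 := measure_mono_null (fun j hj => by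
        have : j = 0 := by simpa using hj
        exact this ▸ h) hz
      have h3 := probReal_compl_eq_one_sub (μ := ν) mS
      rw [Measure.real, h2, ENNReal.toReal_zero] at h3
      linarith
  refine ⟨⟨ae_st ν (st_in x0 x1), p0 Mainx.meas_l fun n => (st_zero x0 x1 n).2,
    p0 Mainx.meas_r fun n => (st_zero x0 x1 n).1,
    ae_st ν fun j => ⟨_, psum_lim (st_B (le_max_left _ _) (le_max_right _ _))⟩, f2, ?_, ?_⟩, e⟩
  · have h2 := (Mainx.le_iff (dp (ν.map (sk L x))) 0 f2).1 (by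
      rw [e, EReal.coe_ennreal_zero]
      exact EReal.coe_nonneg.2 (by nlinarith [mul_nonneg (Nat.cast_nonneg (α := ℝ) L) x0]))
    rwa [zero_add] at h2
  · filter_upwards [eventually_ge_atTop L, eventually_ge_atTop 1] with n hn hn'
    rw [Measure.map_apply mF (meas_Bs n)]
    refine (measure_mono (t := {j | n / 2 < j}) fun j hj => ?_).trans ?_
    · by_contra hlt
      exact st_B hn (by simp only [Set.mem_ofPred_eq] at hlt; omega) hj
    · rw [← ofReal_measureReal]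
      exact ENNReal.ofReal_le_ofReal (ht n hn')

end E2x

open E2x in
theorem above_sharp {c d : ℝ} (hc : 0 ≤ c) (hd : 0 ≤ d) {k : ℕ} (hk : 1 ≤ k)
    (h : k < d + c / 2) : ∃ P0 : Measure (ℕ → ℝ),
    IsProbabilityMeasure P0 ∧ Lw (fun n => c / n) P0 ∧
      (dp P0 : EReal) - (dm P0 : EReal) = d ∧ Dec P0 k Tr := by
  obtain ⟨a, ha⟩ : ∃ a, a = c / 2 := ⟨_, rfl⟩
  obtain ⟨η, hη⟩ : ∃ η : ℝ, η = (d + a - k) / 5 := ⟨_, rfl⟩
  have a0 : 0 ≤ a := by linarith
  have η0 : 0 < η := by linarith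
  obtain ⟨b, hb⟩ := exists_nat_ge (max 4 (a / η))
  have b4 : 4 ≤ b := by exact_mod_cast (le_max_left _ _).trans hb
  have b1 : (1 : ℝ) ≤ b := by exact_mod_cast (show 1 ≤ b by omega)
  have b2 : a * (1 / b) ≤ η := by
    have := (div_le_iff₀ η0).1 ((le_max_right _ _).trans hb)
    rw [mul_one_div, div_le_iff₀ (by linarith)]
    linarith
  have l0 := mul_nonneg a0 (Real.log_nonneg b1)
  obtain ⟨γ, g0, g1, g2⟩ : ∃ γ : ℝ, 0 < γ ∧ γ ≤ 1 / 2 ∧ γ * (1 + a * Real.log b) ≤ η :=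
    ⟨min (1 / 2) (η / (1 + a * Real.log b)), by positivity, min_le_left _ _,
      (le_div_iff₀ (by linarith)).1 (min_le_right _ _)⟩
  obtain ⟨L, hL⟩ := exists_nat_gt (2 * d)
  have L0 : (0 : ℝ) < L := by linarith
  obtain ⟨C0, hC, hl⟩ := got_LOSS γ g0 (by linarith)
  obtain ⟨K1, hz⟩ := low hC hk L
  obtain ⟨K, hK, hm⟩ := mid_lo hC hk
  obtain ⟨n1, hn1⟩ := exists_nat_ge (max (2 * a) (K * a / η))
  have n0 : (0 : ℝ) ≤ n1 := Nat.cast_nonneg n1
  obtain ⟨p, hp⟩ : ∃ p, p = a / ((n1 : ℝ) + 1) := ⟨_, rfl⟩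
  have p0 : 0 ≤ p := by rw [hp]; positivity
  have p1 : p ≤ 1 / 2 := by
    rw [hp, div_le_iff₀ (by positivity)]
    linarith [(le_max_left _ _).trans hn1]
  have p2 : K * p ≤ η := by
    have := (div_le_iff₀ η0).1 ((le_max_right _ _).trans hn1)
    rw [hp, ← mul_div_assoc, div_le_iff₀ (by positivity)]
    linarith
  obtain ⟨ν, hν, hq⟩ := law_of (q := fun n => a / (((max n n1 : ℕ) : ℝ) + 1))
    (fun u v huv => div_le_div_of_nonneg_left a0 (by positivity)
      (by have : max u n1 ≤ max v n1 := max_le_max huv le_rfl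
          exact_mod_cast Nat.succ_le_succ this))
    (by rw [Nat.zero_max, ← hp]; linarith)
    (tendsto_const_nhds.div_atTop (tendsto_atTop_add_const_right _ _
      (tendsto_natCast_atTop_atTop.comp (tendsto_atTop_mono (fun n => le_max_left n n1) tendsto_id))))
  have q0 : ν.real {j | 0 < j} = p := by rw [hq, Nat.zero_max, hp]
  obtain ⟨x, hx⟩ : ∃ x, x = d / (L * (1 - p)) := ⟨_, rfl⟩
  have p3 : 0 < L * (1 - p) := mul_pos L0 (by linarith)
  have x0 : 0 ≤ x := by rw [hx]; positivity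
  have x1 : x < 1 := by
    rw [hx, div_lt_one p3]
    nlinarith
  have x2 : L * x - L * x * p = d := by
    have := (eq_div_iff p3.ne').1 hx
    linarith
  have mF : Measurable (sk L x) := Measurable.of_discrete
  have := Measure.isProbabilityMeasure_map (μ := ν) mF.aemeasurable
  obtain ⟨hLw, hdr⟩ := law_st (L := L) (c := c) x0 x1 ν (by rw [q0]; linarith) fun n hn => by
      have h1 : n ≤ 2 * (max (n / 2) n1 + 1) := by omega
      have h2 : (n : ℝ) ≤ 2 * (((max (n / 2) n1 : ℕ) : ℝ) + 1) := by exact_mod_cast h1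
      have h3 : (0 : ℝ) < n := by exact_mod_cast hn
      rw [hq, div_le_div_iff₀ (by positivity) h3]
      nlinarith [mul_le_mul_of_nonneg_left h2 a0]
  rw [q0, x2] at hdr
  refine ⟨_, this, hLw, hdr, surv2 hLw.in01
    (ae_st ν fun j => ⟨_, st_B (le_max_left _ _) (le_max_right _ _)⟩) hk (κ := fun _ => 1 + γ)
    (gg_summ one_lt_two ?_) (fun z => b * z) ?_⟩
  · filter_upwards [(tendsto_const_nhds (x := (2 : ℝ)).div_atTop (Real.tendsto_log_atTop.comp
      tendsto_natCast_atTop_atTop)).eventually_le_const g0] with n hn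
    exact add_le_add le_rfl hn
  filter_upwards [eventually_ge_atTop (2 * k), eventually_ge_atTop n1, eventually_ge_atTop (2 * L),
    (tendsto_const_nhds (x := |K1|).div_atTop ((tendsto_rpow_atTop g0).comp
      tendsto_natCast_atTop_atTop)).eventually_le_const η0] with z z1 z2 z5 z3
  have z4 : (1 : ℝ) ≤ z := by exact_mod_cast (show 1 ≤ z by omega)
  have t1 : 1 ≤ (z : ℝ) ^ γ := Real.one_le_rpow z4 g0.le
  have t2 : ((z : ℝ) ^ γ) ^ 2 ≤ z := by
    rw [← Real.rpow_natCast, ← Real.rpow_mul (by linarith)]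
    exact (Real.rpow_le_rpow_of_exponent_le z4 (by push_cast; linarith)).trans_eq (Real.rpow_one _)
  have t3 : K1 / (z : ℝ) ^ γ ≤ η :=
    (div_le_div_of_nonneg_right (le_abs_self K1) (by linarith)).trans z3
  have l1 := hl (fun _ => 1 + γ) (fun _ => le_rfl) z (by omega)
  have gp := gg_pos (fun _ => 1 + γ) z
  have bz : 4 * z ≤ b * z := Nat.mul_le_mul_right z b4
  have iE := (Ex_Qa (ν.map (sk L x)) (z + 1 - k) (b * z) fun a _ => ff (fun _ => 1 + γ) a).2.1
  have mS : ∀ n, MeasurableSet {j : ℕ | n < j} := fun n => (Set.to_countable _).measurableSet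
  have iI : ∀ n, Integrable (Set.indicator {j : ℕ | n < j} (1 : ℕ → ℝ)) ν := fun n =>
    (integrable_const 1).indicator (mS n)
  rw [integral_map mF.aemeasurable iE.aestronglyMeasurable]
  obtain ⟨f, hf⟩ : ∃ f, f = ff (fun _ => 1 + γ) z := ⟨_, rfl⟩
  obtain ⟨g, hg⟩ : ∃ g, g = gg (fun _ => 1 + γ) z := ⟨_, rfl⟩
  obtain ⟨s, hs⟩ : ∃ s : ℝ, s = L * x - k - γ - η := ⟨_, rfl⟩
  have iG : Integrable (fun j => ∑ i ∈ Ico z (b * z),
      gg (fun _ => 1 + γ) i * Set.indicator {j : ℕ | i < j} 1 j) ν :=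
    integrable_finsetSum _ fun i _ => (iI i).const_mul _
  have iD : Integrable (fun j => (∑ i ∈ Ico z (b * z),
      gg (fun _ => 1 + γ) i * Set.indicator {j : ℕ | i < j} 1 j) -
      g * (s + K) * Set.indicator {j : ℕ | 0 < j} 1 j) ν := iG.sub ((iI _).const_mul _)
  have eG : ∀ j, ∑ i ∈ Ico z (b * z), gg (fun _ => 1 + γ) i * Set.indicator {j : ℕ | i < j} 1 j =
      ∑ i ∈ Ico z (min (b * z) j), gg (fun _ => 1 + γ) i := fun j => by
    rw [← Ico_filter_lt, sum_filter]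
    exact sum_congr rfl fun i _ => by simp [Set.indicator_apply]
  have h1 := integral_mono (μ := ν)
    (f := fun j => (f + g * s) + ((∑ i ∈ Ico z (b * z),
      gg (fun _ => 1 + γ) i * Set.indicator {j : ℕ | i < j} 1 j) -
      g * (s + K) * Set.indicator {j : ℕ | 0 < j} 1 j)) ((integrable_const _).add iD)
    ((integrable_map_measure iE.aestronglyMeasurable mF.aemeasurable).1 iE) fun j => by
      have b3 := mul_nonneg gp.le hK
      simp only [Function.comp, hf, hg, eG]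
      rcases Nat.eq_zero_or_pos j with rfl | hj
      · rw [Set.indicator_of_notMem (by simp), Ico_eq_empty_of_le (by omega), sum_empty]
        have a1 := (hz _ (st_in x0 x1 0) (st_B0 le_rfl) z _ (1 + γ) z1 z5 t1 t2 (by linarith)
          (by linarith) l1).trans (Ex_N _ _ _ bz)
        have a2 := mul_le_mul_of_nonneg_left t3 gp.le
        rw [psum_st0] at a1
        rw [hs]
        linarith
      rw [Set.indicator_of_mem (s := {j : ℕ | 0 < j}) hj, Pi.one_apply, st_pos hj.ne']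
      rcases le_or_gt j z with h' | h'
      · rw [Ico_eq_empty_of_le (by omega), sum_empty]
        have a1 := (hm _ (stk_in 0 j) (fun n => by rw [psum_stk hj.ne']; positivity) z _ (1 + γ)
          (fun n => (abs_sum_le (stk_in 0 j) (stk_B hj.ne' le_rfl) n).trans
            (by exact_mod_cast (show 2 * j ≤ 4 * z by omega))) z1 t1 t2 (by linarith)
          (by linarith) l1).trans (Ex_N _ _ _ bz)
        linarith
      · have a1 := Ex_top (w := stk 0 j) (y := z + 1 - k) (fun _ => 1 + γ) (by omega)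
          (min_le_left (b * z) j) fun i hi => by
            rw [stk, if_neg hj.ne', if_pos (hi.trans_le (min_le_right _ _))]
        rw [sum_Ico_eq_sub _ (by omega)]
        unfold ff at a1 ⊢
        linarith
  refine le_trans ?_ h1
  rw [integral_add (integrable_const _) iD, integral_sub iG ((iI _).const_mul _),
    integral_finsetSum _ fun i _ => (iI i).const_mul _, integral_const_mul,
    integral_indicator_one (mS _), integral_const, probReal_univ, one_smul, q0, ← hf]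
  have e1 : ∑ i ∈ Ico z (b * z), ∫ j, gg (fun _ => 1 + γ) i * Set.indicator {j : ℕ | i < j} 1 j ∂ν =
      a * ∑ i ∈ Ico z (b * z), gg (fun _ => 1 + γ) i * (1 / ((i : ℝ) + 1)) := by
    rw [mul_sum]
    refine sum_congr rfl fun i hi => ?_
    rw [integral_const_mul, integral_indicator_one (mS _), hq,
      max_eq_left (z2.trans (mem_Ico.1 hi).1)]
    ring
  have h2 := mul_le_mul_of_nonneg_left (gain g0.le (show 1 ≤ z by omega) (show 1 ≤ b by omega)) a0
  rw [e1]
  rw [← hg] at gp h2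
  have h3 : 0 ≤ s - (s + K) * p + a * (1 - γ * Real.log b - 1 / b) := by
    have k0 : (0 : ℝ) ≤ k := Nat.cast_nonneg k
    rw [hs]
    linarith [mul_nonneg p0 (show 0 ≤ k + γ + η by positivity)]
  linarith [mul_nonneg gp.le h3]

end Pool.Agent.P.MP_c7fa75_pr.HT
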