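import Pool.Agent.P.MP_c7fa75_pr.HT.D
import Pool.Agent.P.MP_c7fa75_pr.SP.C

/-! Heavy stacks that stop all walkers, and light stacks that push the critical walker. -/

set_option autoImplicit false

namespace Pool.Agent.P.MP_c7fa75_pr.HT

open MeasureTheory ProbabilityTheory Filter Topology Finset
open scoped ENNReal Classical
open Pool.Agent.P.MP_c7fa75_pr.T Pool.Agent.P.MP_c7fa75_pr.R2 Pool.Agent.P.MP_c7fa75_pr.SP

theorem thin {T : ℕ → ℝ} (ha : Antitone T) (h0 : ∀ n, 0 ≤ T n) (hs : ¬ Summable T) :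
    ∃ q : ℕ → ℝ, Antitone q ∧ (∀ n, 0 ≤ q n) ∧ q 0 ≤ 1 / 2 ∧ (∀ n, q n ≤ T (2 * n + 1)) ∧
      Tendsto (fun n : ℕ => ((n : ℝ) + 1) * q n) atTop (𝓝 0) ∧ ¬ Summable q := by
  set a : ℕ → ℝ := fun n => min (T (2 * n + 1)) (1 / (2 * ((n : ℝ) + 1))) with hdef
  have b1 : Antitone fun n => T (2 * n + 1) := fun m n h => ha (by omega)
  have a0 : ∀ n, 0 ≤ a n := fun n => le_min (h0 _) (by positivity)
  have a1 : Antitone a := fun m n h => min_le_min (b1 h) (one_div_le_one_div_of_le (by positivity)
    (by have : (m : ℝ) ≤ n := by exact_mod_cast h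
        linarith))
  have a2 : ∀ n : ℕ, ((n : ℝ) + 1) * a n ≤ 1 / 2 := fun n =>
    (mul_le_mul_of_nonneg_left (min_le_right _ _) (by positivity)).trans (le_of_eq (by field_simp))
  have a3 : ¬ Summable a := fun h => by
    have c1 := (summable_condensed_iff_of_nonneg a0 fun _ _ _ h => a1 h).2 h
    have c2 : Summable fun n => T (2 * n + 1) := by
      refine (summable_condensed_iff_of_nonneg (f := fun n => T (2 * n + 1)) (fun n => h0 _)
        fun _ _ _ h => b1 h).1 (c1.congr_atTop ?_)
      filter_upwards [c1.tendsto_atTop_zero.eventually (gt_mem_nhds (show (0 : ℝ) < 1 / 4 by norm_num))]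
        with k hk
      rcases min_choice (T (2 * 2 ^ k + 1)) (1 / (2 * (((2 ^ k : ℕ) : ℝ) + 1))) with e | e
      · exact congrArg _ e
      · rw [show a (2 ^ k) = _ from e, mul_one_div, div_lt_iff₀ (by positivity)] at hk
        push_cast at hk
        linarith [one_le_pow₀ (M₀ := ℝ) (n := k) one_le_two]
    exact hs (Summable.even_add_odd ((summable_nat_add_iff 1).1
      (c2.of_nonneg_of_le (fun n => h0 _) fun n => ha (by omega))) c2)
  set s : ℕ → ℝ := fun n => 1 + ∑ i ∈ range n, a i with hsd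
  have s1 : ∀ n, 1 ≤ s n := fun n => le_add_of_nonneg_right (sum_nonneg fun i _ => a0 i)
  have s2 : Monotone s := fun m n h => add_le_add le_rfl
    (sum_le_sum_of_subset_of_nonneg (range_mono h) fun i _ _ => a0 i)
  have s3 : Tendsto s atTop atTop := tendsto_atTop_add_const_left _ _
    ((not_summable_iff_tendsto_nat_atTop_of_nonneg a0).1 a3)
  have q0 : ∀ n, 0 ≤ a n / s n := fun n => div_nonneg (a0 n) (by linarith [s1 n])
  refine ⟨fun n => a n / s n, fun m n h => div_le_div₀ (a0 m) (a1 h) (by linarith [s1 m]) (s2 h), q0,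
    (div_le_self (a0 0) (s1 0)).trans (by simpa using a2 0),
    fun n => (div_le_self (a0 n) (s1 n)).trans (min_le_left _ _), ?_, ?_⟩
  · refine squeeze_zero (fun n => mul_nonneg (by positivity) (q0 n)) (fun n => ?_)
      (tendsto_const_nhds (x := (1 / 2 : ℝ)).div_atTop s3)
    rw [← mul_div_assoc]
    exact div_le_div_of_nonneg_right (a2 n) (by linarith [s1 n])
  · refine (not_summable_iff_tendsto_nat_atTop_of_nonneg q0).2
      (tendsto_atTop_mono (fun n => ?_) (Real.tendsto_log_atTop.comp s3))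
    induction n with
    | zero => simp [hsd]
    | succ n ih =>
      have h1 := lg_up (show 0 < s n by linarith [s1 n]) (show 0 < s (n + 1) by linarith [s1 (n + 1)])
      have h2 : s (n + 1) - s n = a n := by
        simp only [hsd, sum_range_succ]
        ring
      rw [h2] at h1
      rw [sum_range_succ]
      simp only [Function.comp] at ih ⊢
      linarith

theorem Lw.mono {T T' : ℕ → ℝ} {P0 : Measure (ℕ → ℝ)} (h : Lw T P0)
    (hT : ∀ᶠ n in atTop, T n ≤ T' n) : Lw T' P0 :=
  { h with tail := (h.tail.and hT).mono fun _ hn => hn.1.trans (ENNReal.ofReal_le_ofReal hn.2) }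

theorem lw_map {ν : Measure ℕ} [IsProbabilityMeasure ν] {F : ℕ → ℕ → ℝ} {T : ℕ → ℝ}
    (h1 : ∀ j i, F j i ∈ Set.Icc (0 : ℝ) 1) (h2 : ∀ i, 0 < F 0 i ∧ F 0 i < 1)
    (h3 : ν.real {j | 0 < j} < 1) (h4 : ∀ j, ∃ m, F j ∉ Bs m) (h5 : dm (ν.map F) ≠ ⊤)
    (h6 : 0 ≤ (dp (ν.map F) : EReal) - (dm (ν.map F) : EReal))
    (h7 : ∀ᶠ n in atTop, ν.real {j | F j ∈ Bs n} ≤ T n) : Lw T (ν.map F) := by
  have mF : Measurable F := Measurable.of_discrete
  have pos : ∀ {A : Set (ℕ → ℝ)}, MeasurableSet A → F 0 ∈ A → 0 < ν.map F A := fun {A} hA h0 => by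
    rw [Measure.map_apply mF hA, pos_iff_ne_zero]
    intro e
    have h8 : ν.real {j | 0 < j}ᶜ = 0 := by
      rw [measureReal_eq_zero_iff]
      refine measure_mono_null (fun j hj => ?_) e
      rwa [show j = 0 by simpa using hj]
    rw [probReal_compl_eq_one_sub (Set.to_countable _).measurableSet] at h8
    linarith
  refine ⟨(ae_rng ν F).mono fun w ⟨j, hj⟩ => hj ▸ h1 j, pos Mainx.meas_l fun i => (h2 i).2,
    pos Mainx.meas_r fun i => (h2 i).1, (ae_rng ν F).mono fun w ⟨j, hj⟩ => ?_, h5,
    by simpa using (Mainx.le_iff _ 0 h5).1 (by simpa using h6), h7.mono fun n hn => ?_⟩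
  · obtain ⟨m, hm⟩ := h4 j
    exact ⟨_, hj ▸ psum_lim hm⟩
  · rw [Measure.map_apply mF (meas_Bs n), ← ofReal_measureReal]
    exact ENNReal.ofReal_le_ofReal hn

/-- Two blocks of cookies. -/
noncomputable def two (u v : ℝ) (l m : ℕ) : ℕ → ℝ :=
  fun i => if i < l then u else if i < m then v else 1 / 2

theorem two_psum (u v : ℝ) (l m n : ℕ) :
    psum (two u v l m) n = (2 * u - 1) * (min n l : ℕ) + (2 * v - 1) * (min n m - l : ℕ) := by
  induction n with
  | zero => simp [psum]
  | succ n ih =>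
    rw [psum_succ, ih, two]
    split_ifs with a b
    · rw [show min (n + 1) l = min n l + 1 by omega, show min (n + 1) m - l = min n m - l by omega]
      push_cast
      ring
    · rw [show min (n + 1) l = min n l by omega, show min (n + 1) m - l = min n m - l + 1 by omega]
      push_cast
      ring
    · rw [show min (n + 1) l = min n l by omega, show min (n + 1) m - l = min n m - l by omega]
      ring

theorem two_Bs {u v : ℝ} {l m n : ℕ} (h : two u v l m ∈ Bs n) : n < l ∨ n < m := by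
  obtain ⟨i, hi, h⟩ := h
  by_contra h'
  exact h (by rw [two, if_neg (by omega), if_neg (by omega)])

theorem two_mem {u v : ℝ} {A : Set ℝ} (hu : u ∈ A) (hv : v ∈ A) (h : 1 / 2 ∈ A) (l m i : ℕ) :
    two u v l m i ∈ A := by
  unfold two
  split_ifs <;> assumption

theorem Ex_dead {w : ℕ → ℝ} {z : ℕ} (h : ∀ i, i < z → w i = 0) (N : ℕ) (f : ℕ → ℝ) :
    Ex w z N (fun a _ => f a) = f 0 := by
  rw [← Ex_const w z N (f 0)]
  refine integral_congr_ae (ae_of_all _ fun u => ?_)
  have h1 : Rr (arr w u) z = 0 := by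
    rw [Rr, card_eq_zero, filter_eq_empty_iff]
    intro c hc
    simp [arr, h c (mem_range.1 hc), arr1_zero]
  have h2 := Rr_add_Ll (arr w u) z
  have h3 : tau (arr w u) z N ≤ z := not_lt.1 fun h' => by
    have := lt_tau h'
    omega
  have h4 := Rr_mono (arr w u) h3
  simp only
  rw [show Rr (arr w u) (tau (arr w u) z N) = 0 by omega]

theorem below_neg {T : ℕ → ℝ} (ha : Antitone T) (h0 : ∀ n, 0 ≤ T n) (hs : ¬ Summable T) {k : ℕ}
    (hk : 1 ≤ k) : ∃ P0 : Measure (ℕ → ℝ), IsProbabilityMeasure P0 ∧ Lw T P0 ∧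
      (k : EReal) < (dp P0 : EReal) - (dm P0 : EReal) ∧ Dec P0 k fun q => ¬ Tr q := by
  obtain ⟨q, q1, q0, q2, q3, q4, q5⟩ := thin ha h0 hs
  obtain ⟨ν, _, hν⟩ := law_of q1 (by linarith) (squeeze_zero q0
    (fun n => le_mul_of_one_le_left (q0 n) (by linarith [Nat.cast_nonneg (α := ℝ) n])) q4)
  set D : ℝ := 2 * (k + 1) with hD
  have D0 : 0 ≤ D := by positivity
  set F : ℕ → ℕ → ℝ := fun j => if j = 0 then two (3 / 4) 1 (4 * (k + 1)) 0 else two 0 1 j (2 * j)
    with hF
  have mF : Measurable F := Measurable.of_discrete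
  have : IsProbabilityMeasure (ν.map F) := Measure.isProbabilityMeasure_map mF.aemeasurable
  have f0 : ∀ i, F 0 i = 3 / 4 ∨ F 0 i = 1 / 2 := fun i => by
    simp only [hF, two, if_true, not_lt_zero, if_false]
    split_ifs <;> simp
  have f1 : ∀ j i, F j i ∈ Set.Icc (0 : ℝ) 1 := fun j i => by
    simp only [hF]
    split_ifs <;> exact two_mem (by norm_num) (by norm_num) (by norm_num) _ _ _
  have f2 : ∀ j n, F j ∈ Bs n → n < 4 * (k + 1) ∨ n / 2 < j := fun j n h => by
    simp only [hF] at h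
    split_ifs at h <;> have := two_Bs h <;> omega
  have f3 : ∀ j, F j ∉ Bs (4 * (k + 1) + 2 * j) := fun j h => by have := f2 j _ h; omega
  have f4 : ∀ j n, psum (F j) n ≤ D ∧ (j ≠ 0 → psum (F j) n ≤ 0) := fun j n => by
    have h1 : j ≠ 0 → psum (F j) n ≤ 0 := fun h => by
      have : ((min n (2 * j) - j : ℕ) : ℝ) ≤ (min n j : ℕ) := by
        exact_mod_cast (show min n (2 * j) - j ≤ min n j by omega)
      simp only [hF, if_neg h, two_psum]
      linarith
    refine ⟨if h : j = 0 then ?_ else (h1 h).trans D0, h1⟩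
    have : ((min n (4 * (k + 1)) : ℕ) : ℝ) ≤ 4 * (k + 1) := by exact_mod_cast min_le_right _ _
    simp only [hF, if_pos h, two_psum, show min n 0 - 4 * (k + 1) = 0 by omega, Nat.cast_zero]
    linarith
  have f5 : ∀ j, total (F j) = (({j | 0 < j}ᶜ : Set ℕ).indicator (fun _ => D) j : ℝ) := fun j => by
    rw [total_eq (f3 j)]
    congr 1
    by_cases h : j = 0
    · subst h
      simp only [hF, if_true, two_psum]
      simp [hD]
      ring
    · rw [Set.indicator_of_notMem (by simpa using h)]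
      simp only [hF, if_neg h, two_psum]
      rw [show min (4 * (k + 1) + 2 * j) j = j by omega,
        show min (4 * (k + 1) + 2 * j) (2 * j) - j = j by omega]
      ring
  have ms : ∀ A : Set ℕ, MeasurableSet A := fun A => (Set.to_countable _).measurableSet
  obtain ⟨d1, d2, d3⟩ := drift_int (P0 := ν.map F) (S := fun w => (total w).toReal)
    ((ae_rng ν F).mono fun w ⟨j, hj⟩ => by rw [← hj, f5]; rfl)
    ((integrable_map_measure meas_total.ereal_toReal.aestronglyMeasurable mF.aemeasurable).2 (by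
      simp only [Function.comp_def, f5, EReal.toReal_coe]
      exact (integrable_const D).indicator (ms _)))
  rw [integral_map mF.aemeasurable meas_total.ereal_toReal.aestronglyMeasurable] at d3
  simp only [f5, EReal.toReal_coe, integral_indicator_const _ (ms _),
    probReal_compl_eq_one_sub (ms _), hν, smul_eq_mul] at d3
  have d4 : (k : ℝ) < (1 - q 0) * D := by nlinarith [Nat.cast_nonneg (α := ℝ) k]
  have L1 : Lw (fun n => q (n / 2)) (ν.map F) := by
    refine lw_map f1 (fun i => by rcases f0 i with e | e <;> rw [e] <;> norm_num)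
      (by rw [hν]; linarith) (fun j => ⟨_, f3 j⟩) d2
      (by rw [d3]; exact_mod_cast (Nat.cast_nonneg k).trans d4.le) ?_
    filter_upwards [eventually_ge_atTop (4 * (k + 1))] with n hn
    rw [← hν]
    exact measureReal_mono fun j hj => (f2 j n hj).resolve_left (by omega)
  have t3 : Tendsto (fun z : ℕ => z / 2) atTop atTop :=
    tendsto_atTop_atTop.2 fun b => ⟨2 * b, fun a ha => by omega⟩
  have L2 : Tendsto (fun n : ℕ => n * q (n / 2)) atTop (𝓝 0) := by
    refine squeeze_zero (fun n => mul_nonneg (by positivity) (q0 _)) (fun n => ?_)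
      (by simpa using (q4.comp t3).const_mul 2)
    have : (n : ℝ) ≤ 2 * ((n / 2 : ℕ) + 1) := by exact_mod_cast (show n ≤ 2 * (n / 2 + 1) by omega)
    nlinarith [q0 (n / 2)]
  refine ⟨ν.map F, this, L1.mono (Eventually.of_forall fun n => (q3 _).trans (ha (by omega))),
    by rw [d3]; exact_mod_cast d4, core_kill L1.in01 hk hk ?_ (left_kill L1 L2 d1).1⟩
  set g : ℕ → ℝ := fun i => ν.real {j | i ≤ j} with hg
  have g1 : Antitone g := fun m n h => measureReal_mono fun j hj => h.trans hj
  have g0 : ∀ i, 0 ≤ g i := fun i => measureReal_nonneg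
  have g2 : Tendsto (fun x => ∑ i ∈ range x, g i) atTop atTop :=
    (not_summable_iff_tendsto_nat_atTop_of_nonneg g0).1 fun h =>
      q5 (((summable_nat_add_iff 1).2 h).congr fun n => hν n)
  refine kill_of L1.in01 L1.wl ((ae_rng ν F).mono fun w ⟨j, hj⟩ => ⟨_, hj ▸ f3 j⟩) le_rfl
    (fun x => sum_nonneg fun i _ => g0 i) rfl g2 ?_
  filter_upwards [g2.eventually_ge_atTop D, eventually_ge_atTop 1] with z z1 z2 N _
  have i1 := (Ex_Qa (ν.map F) z N fun a _ => ∑ i ∈ range a, g i).2.1
  have i2 : Integrable (({j | z ≤ j} : Set ℕ).indicator fun _ => ∑ i ∈ range z, g i) ν :=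
    (integrable_const _).indicator (ms _)
  rw [Nat.add_sub_cancel, integral_map mF.aemeasurable i1.1]
  refine (integral_mono (g := fun j => (∑ i ∈ range z, g i + g z * D) -
    ({j | z ≤ j} : Set ℕ).indicator (fun _ => ∑ i ∈ range z, g i) j)
    ((integrable_map_measure i1.1 mF.aemeasurable).1 i1) ((integrable_const _).sub i2)
    fun j => ?_).trans ?_
  · by_cases h : z ≤ j
    · simp only [Function.comp]
      rw [Ex_dead (fun i hi => by simp only [hF, if_neg (show j ≠ 0 by omega), two,
        if_pos (hi.trans_le h)]), Set.indicator_of_mem (show j ∈ {j | z ≤ j} from h)]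
      simpa using mul_nonneg (g0 z) D0
    · simp only [Function.comp]
      rw [Set.indicator_of_notMem (show j ∉ {j | z ≤ j} from h)]
      simpa using jensen g1 g0 (f1 j) (N := N) (fun n _ => (f4 j n).1) z z
  · rw [integral_sub (integrable_const _) i2, integral_indicator_const _ (ms _)]
    simp only [integral_const, probReal_univ, smul_eq_mul, one_mul]
    linarith [mul_le_mul_of_nonneg_left z1 (g0 z)]

theorem crit_neg {a : ℝ} (ha : 1 < a) {k : ℕ} (hk : 1 ≤ k) :
    ∃ P0 : Measure (ℕ → ℝ), IsProbabilityMeasure P0 ∧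
      Lw (fun n => a / ((n : ℝ) * Real.log n ^ 2)) P0 ∧
      (dp P0 : EReal) - (dm P0 : EReal) = k ∧ Dec P0 k Tr := by
  set tl : ℕ → ℝ := fun n => 1 / ((n : ℝ) * Real.log n ^ 2) with htl
  have l0 : ∀ n, 0 ≤ tl n := fun n => by positivity
  have l1 : Tendsto (fun n => a * tl n) atTop (𝓝 0) := (tl_summ.mul_left a).tendsto_atTop_zero
  obtain ⟨n0, n1, n2, n3⟩ := ((eventually_ge_atTop 2).and ((l1.eventually
    (gt_mem_nhds one_pos)).and
    (tendsto_natCast_atTop_atTop.eventually_gt_atTop ((k : ℝ) + a * ∑' i, tl i)))).exists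
  obtain ⟨ν, _, hν⟩ := law_of (q := fun n => a * tl (max n n0)) (fun m n h => by
      have h1 : (2 : ℝ) ≤ (max m n0 : ℕ) := by exact_mod_cast n1.trans (le_max_right _ _)
      have h2 : ((max m n0 : ℕ) : ℝ) ≤ (max n n0 : ℕ) := by exact_mod_cast max_le_max_right _ h
      have h3 := Real.log_pos (show (1 : ℝ) < (max m n0 : ℕ) by linarith)
      have h4 := Real.log_le_log (by linarith) h2
      refine mul_le_mul_of_nonneg_left (one_div_le_one_div_of_le (by positivity) ?_) (by linarith)
      gcongr)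
    (by simpa using n2.le) (l1.comp (tendsto_atTop_mono (fun n => le_max_left n n0) tendsto_id))
  have t0 : Tendsto (fun m => ∑ i ∈ Ico n0 m, tl i) atTop
      (𝓝 (∑' i, tl i - ∑ i ∈ range n0, tl i)) :=
    (tl_summ.hasSum.tendsto_sum_nat.sub_const _).congr'
      ((eventually_ge_atTop n0).mono fun m hm => (sum_Ico_eq_sub _ hm).symm)
  set τ := ∑' i, tl i - ∑ i ∈ range n0, tl i with hτ
  have τ0 : 0 ≤ τ := ge_of_tendsto' t0 fun m => sum_nonneg fun i _ => l0 i
  have τ1 : τ ≤ ∑' i, tl i := sub_le_self _ (sum_nonneg fun i _ => l0 i)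
  set b := (a + 1) / 2 with hb
  set p := (1 - b / a) / 2 with hp
  have a0 : 0 < a := by linarith
  have p0 : 0 < p := half_pos (sub_pos.2 ((div_lt_one a0).2 (by linarith)))
  have p1 : p ≤ 1 / 2 := by
    have : 0 ≤ b / a := by positivity
    linarith
  have N0 : (0 : ℝ) < n0 := by exact_mod_cast (show 0 < n0 by omega)
  set c := (1 + (k + b * τ) / n0) / 2 with hc
  have c0 : 1 / 2 ≤ c := by
    have : 0 ≤ (k + b * τ) / n0 := by positivity
    linarith
  have c1 : c < 1 := by
    have : (k + b * τ) / n0 < 1 := (div_lt_one N0).2 (by nlinarith)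
    linarith
  set F : ℕ → ℕ → ℝ := fun j => two c p n0 j with hF
  have mF : Measurable F := Measurable.of_discrete
  have : IsProbabilityMeasure (ν.map F) := Measure.isProbabilityMeasure_map mF.aemeasurable
  have f0 : ∀ j i, F j i ∈ Set.Ico p 1 := fun j i =>
    two_mem (A := Set.Ico p 1) ⟨by linarith, c1⟩ ⟨le_rfl, by linarith⟩ ⟨p1, by norm_num⟩ _ _ _
  have f1 : ∀ j i, F j i ∈ Set.Icc (0 : ℝ) 1 := fun j i =>
    ⟨p0.le.trans (f0 j i).1, (f0 j i).2.le⟩
  have h01 : In01 (ν.map F) := (ae_rng ν F).mono fun w ⟨j, hj⟩ => hj ▸ f1 j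
  have f2 : ∀ᶠ n in atTop, ν.real {j | F j ∈ Bs n} ≤ a / ((n : ℝ) * Real.log n ^ 2) := by
    filter_upwards [eventually_ge_atTop n0] with n hn
    refine (measureReal_mono fun j hj => (two_Bs hj).resolve_left (by omega)).trans
      ((hν n).le.trans_eq ?_)
    rw [max_eq_left hn, mul_one_div]
  obtain ⟨A, hA⟩ := fm_of h01 (Summable.of_norm_bounded_eventually_nat (tl_summ.mul_left a)
    (f2.mono fun n hn => by
      rw [Real.norm_of_nonneg (ENV2x.al_nonneg _ n), mul_one_div]
      refine (al_le h01 n).trans ?_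
      rw [map_measureReal_apply mF (meas_Bs n)]
      exact hn))
  have e1 : ∀ n m, n0 ≤ n → n ≤ m →
      dd (ν.map F) m = dd (ν.map F) n - b * ∑ i ∈ Ico n m, tl i := fun n m hn hm => by
    have h1 := dd_sub h01 hm
    have h2 : ∀ i ∈ Ico n m, ∫ w, (2 * w i - 1) ∂ν.map F = -(b * tl i) := fun i hi => by
      have h3 := hn.trans (mem_Ico.1 hi).1
      have h4 : ∀ j, 2 * F j i - 1 = ({j | i < j} : Set ℕ).indicator (fun _ => 2 * p - 1) j :=
        fun j => by
          simp only [hF, two, if_neg (not_lt.2 h3), Set.indicator_apply, Set.mem_ofPred_eq]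
          split_ifs <;> norm_num
      rw [integral_map mF.aemeasurable (Measurable.aestronglyMeasurable (by fun_prop))]
      simp only [h4]
      rw [integral_indicator_const _ (Set.to_countable _).measurableSet, hν, max_eq_left h3, hp,
        smul_eq_mul]
      field_simp
      ring
    rw [sum_congr rfl h2, sum_neg_distrib, ← mul_sum] at h1
    linarith
  have e2 : dd (ν.map F) n0 = k + b * τ := by
    rw [dd, integral_map mF.aemeasurable (meas_psum _).aestronglyMeasurable]
    have h1 : ∀ j, min n0 j - n0 = 0 := fun j => by omega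
    simp only [hF, two_psum, h1, min_self, Nat.cast_zero, mul_zero, add_zero, integral_const,
      probReal_univ, smul_eq_mul, one_mul, hc]
    field_simp
    ring
  have e3 : Tendsto (dd (ν.map F)) atTop (𝓝 k) := by
    have h1 := (t0.const_mul b).const_sub (k + b * τ)
    rw [add_sub_cancel_right] at h1
    exact h1.congr' ((eventually_ge_atTop n0).mono fun m hm => by rw [e1 n0 m le_rfl hm, e2])
  obtain ⟨-, L, hL, e4⟩ := dd_lim hA
  rw [tendsto_nhds_unique hL e3] at e4
  have K1 := lw_map f1 (fun i => ⟨p0.trans_le (f0 0 i).1, (f0 0 i).2⟩) (by rw [hν]; simpa using n2)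
    (fun j => ⟨n0 + j, fun h => by have := two_Bs h; omega⟩)
    ((got_RFL0 _).2.2.2.2.2.2.1 (L1.lim_hm hA).2).ne (by rw [e4]; exact_mod_cast Nat.zero_le k) f2
  refine ⟨ν.map F, this, K1, by exact_mod_cast e4, fun Θ _ μ _ M hE => ?_⟩
  refine ((L1.core Θ μ M _ h01 hE K1.wr K1.lim (L1.lim_hm hA).2 K1.le k hk).1
    (L1.surv _ (M := fun _ => 0) (η := p) (γ := 1 / 2) k h01 hA ⟨p0, by linarith, by norm_num,
      le_rfl, measurable_const, integrable_const _, (ae_rng ν F).mono fun w ⟨j, hj⟩ n => ?_⟩ hk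
      (gg_summ (a := b) (by linarith) ?_))).mono fun θ hθ => tendsto_abs_atTop_atTop.comp hθ
  · have := card_nsmul_le_sum (range n) (F j) p fun i _ => (f0 j i).1
    rw [← hj]
    simpa [mul_comm] using this
  · filter_upwards [eventually_ge_atTop n0] with n hn
    have h1 : Tendsto (fun m : ℕ => dd (ν.map F) n - b * (1 / Real.log n - 1 / Real.log m)) atTop
        (𝓝 (dd (ν.map F) n - b * (1 / Real.log n - 0))) :=
      (((tendsto_const_nhds.div_atTop (Real.tendsto_log_atTop.comp
        tendsto_natCast_atTop_atTop)).const_sub _).const_mul _).const_sub _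
    have h2 := le_of_tendsto_of_tendsto e3 h1 ((eventually_ge_atTop n).mono fun m hm => by
      simp only
      rw [e1 n m hn hm, ← sum_tl hm]
      refine sub_le_sub_left (mul_le_mul_of_nonneg_left (sum_le_sum fun i hi => ?_)
        (by positivity)) _
      exact tl_lo (by exact_mod_cast (show 1 < i by have := (mem_Ico.1 hi).1; omega)))
    rw [sub_zero, mul_one_div] at h2
    linarith

end Pool.Agent.P.MP_c7fa75_pr.HT
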