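import Pool.Agent.P.MP_c7fa75_pr.HT.E
import Pool.Agent.P.MP_c7fa75_pr.HT.F

/-! The three thresholds for the tail of the height. -/

set_option autoImplicit false

namespace Pool.Agent.P.MP_c7fa75_pr.HT

open MeasureTheory ProbabilityTheory Filter Topology Finset
open scoped ENNReal Classical
open Pool.Agent.P.MP_c7fa75_pr.T Pool.Agent.P.MP_c7fa75_pr.R2 Pool.Agent.P.MP_c7fa75_pr.SP

/-- The clause `k < δ`. -/
theorem below_iff {T : ℕ → ℝ} (ha : Antitone T) (h0 : ∀ n, 0 ≤ T n) {k : ℕ} (hk : 1 ≤ k) :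
    (∀ P, Law T P → (k : EReal) < drift P → Always P k) ↔ Summable T := by
  refine ⟨fun h => not_not.1 fun hs => ?_, fun hs P hP hd => ?_⟩
  · obtain ⟨P0, _, h1, h2, h3⟩ := below_neg ha h0 hs hk
    obtain ⟨P, hP, rfl⟩ := h1.up
    exact not_both hP (h P hP (drift_eq P ▸ h2)) (hP.dec.2 h3)
  · obtain ⟨_, h1⟩ := hP.down
    exact hP.dec.1 ((off_crit h1 hs hk).1 (drift_eq P ▸ hd))

/-- The clause `δ < k`. -/
theorem above_iff {T : ℕ → ℝ} {L : ℝ≥0∞}
    (hT : Tendsto (fun n : ℕ => ENNReal.ofReal (n * T n)) atTop (𝓝 L)) {k : ℕ} (hk : 1 ≤ k) :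
    (∀ P, Law T P → drift P < k → Never P k) ↔ L = 0 := by
  refine ⟨fun h => not_not.1 fun hs => ?_, fun hs P hP hd => ?_⟩
  · obtain ⟨c, -, c1, c2⟩ := ENNReal.lt_iff_exists_real_btwn.1 (pos_iff_ne_zero.2 hs)
    obtain ⟨P0, _, h1, h2, h3⟩ := above_neg (ENNReal.ofReal_pos.1 c1) hk
    obtain ⟨P, hP, rfl⟩ := (h1.mono (T' := T) (by
      filter_upwards [hT.eventually (lt_mem_nhds c2), eventually_gt_atTop 0] with n a b
      rw [div_le_iff₀ (by exact_mod_cast b), mul_comm]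
      exact ((ENNReal.ofReal_lt_ofReal_iff_of_nonneg (ENNReal.ofReal_pos.1 c1).le).1 a).le)).up
    exact not_both hP (hP.dec.1 h3) (h P hP (drift_eq P ▸ h2))
  · obtain ⟨_, h1⟩ := hP.down
    refine hP.dec.2 (above_pos (h1.mono (T' := fun n => max (T n) 0)
      (Eventually.of_forall fun n => le_max_left _ _)) ?_ hk (drift_eq P ▸ hd))
    have h2 := (ENNReal.tendsto_toReal ENNReal.zero_ne_top).comp (hs ▸ hT)
    refine h2.congr fun n => ?_
    rw [Function.comp, ENNReal.toReal_ofReal', mul_max_of_nonneg _ _ (Nat.cast_nonneg n), mul_zero]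

/-- The whole claim under the tails `a / (n log² n)`. -/
theorem crit_iff (a : ℝ) {k : ℕ} (hk : 1 ≤ k) :
    (∀ P, Law (fun n => a / ((n : ℝ) * Real.log n ^ 2)) P →
      ((k : EReal) < drift P → Always P k) ∧ (drift P ≤ k → Never P k)) ↔ a ≤ 1 := by
  refine ⟨fun h => not_lt.1 fun ha => ?_, fun ha P hP => ?_⟩
  · obtain ⟨P0, _, h1, h2, h3⟩ := crit_neg ha hk
    obtain ⟨P, hP, rfl⟩ := h1.up
    exact not_both hP (hP.dec.1 h3) ((h P hP).2 (drift_eq P ▸ h2.le))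
  · obtain ⟨_, h1⟩ := hP.down
    have h2 := h1.mono (T' := fun n => 1 / ((n : ℝ) * Real.log n ^ 2))
      (Eventually.of_forall fun n => div_le_div_of_nonneg_right ha (by positivity))
    rw [drift_eq]
    refine ⟨fun hd => hP.dec.1 ((off_crit h2 tl_summ hk).1 hd), fun hd => hP.dec.2 ?_⟩
    exact hd.lt_or_eq.elim (off_crit h2 tl_summ hk).2 (crit_pos h2 hk)

end Pool.Agent.P.MP_c7fa75_pr.HT
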