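import Pool.Agent.P.MP_c7fa75_pr.HT.D

/-! No transience below the shifted threshold when the tail of the height is of order `1/n`. -/

set_option autoImplicit false

namespace Pool.Agent.P.MP_c7fa75_pr.HT

open MeasureTheory ProbabilityTheory Filter Topology Finset
open scoped ENNReal Classical
open Pool.Agent.P.MP_c7fa75_pr.T Pool.Agent.P.MP_c7fa75_pr.R2 Pool.Agent.P.MP_c7fa75_pr.SP

theorem psum_back {w : ℕ → ℝ} (hw : ∀ i, w i ∈ Set.Icc (0 : ℝ) 1) {n m : ℕ} (h : n ≤ m) :
    psum w n ≤ psum w m + ((m : ℝ) - n) := by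
  induction m, h using Nat.le_induction with
  | base => simp
  | succ m hm ih =>
    rw [psum_succ]
    push_cast
    linarith [(hw m).1]

/-- High stacks: the number of right steps is about the maximum of `z` and half the height. -/
theorem high {w : ℕ → ℝ} (hw : ∀ i, w i ∈ Set.Icc (0 : ℝ) 1) {m : ℕ} (hm : w ∉ Bs m)
    (hA : ∀ n, ∑ i ∈ range n, |2 * w i - 1| ≤ m) {y z N : ℕ} (hy : y ≤ z) {ε : ℝ} (hε : 0 < ε) :
    Ex w y N (fun a _ => ff (fun _ => 1) a) ≤ ff (fun _ => 1) (max z (min ((m + 1) / 2) N)) +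
      gg (fun _ => 1) z * (|psum w m| + 2 / ε + ε * (z + 1) / 2) := by
  have g0 := gg_pos (fun _ => 1) z
  rcases le_or_gt ((m + 1) / 2) N with h | h
  swap
  · refine le_add_of_le_of_nonneg ((Ex_mono w y N fun a b hr => ff_mono _ ?_).trans
      (Ex_const w y N _).le) (by positivity)
    have := hr.2.1
    omega
  rw [min_eq_left h]
  set x := max z ((m + 1) / 2) with hx
  have x1 : (y : ℝ) ≤ x := by exact_mod_cast (show y ≤ x by omega)
  have x2 : (m : ℝ) ≤ 2 * x := by exact_mod_cast (show m ≤ 2 * x by omega)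
  have x0 : (0 : ℝ) ≤ x := Nat.cast_nonneg x
  have ga := L1.gg_anti (κ := fun _ => 1) fun _ => zero_le_one
  have gx := gg_pos (fun _ => 1) x
  set l := ε * ((x : ℝ) + 1) with hl
  have l0 : 0 < l := by positivity
  have h1 := Ex_mono w y N (V := fun a _ => ff (fun _ => 1) a)
    (V' := fun a b => (ff (fun _ => 1) x + gg (fun _ => 1) x * (|psum w m| + l / 2)) +
      gg (fun _ => 1) x / (2 * l) * mg w a b ^ 2) fun a b hr => by
      have b1 : (b : ℝ) ≤ y := by exact_mod_cast hr.1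
      have a1 : (a : ℝ) - x ≤ |psum w m| + |mg w a b| := by
        have e : mg w a b = a - b - psum w (a + b) := rfl
        rcases le_total (a + b) m with h' | h'
        · have := psum_back hw h'
          push_cast at this
          linarith [le_abs_self (psum w m), le_abs_self (mg w a b), abs_nonneg (psum w m),
            abs_nonneg (mg w a b)]
        · rw [psum_const hm h'] at e
          linarith [le_abs_self (psum w m), le_abs_self (mg w a b)]
      have a2 : |mg w a b| ≤ l / 2 + mg w a b ^ 2 / (2 * l) := by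
        rw [← sub_le_iff_le_add', le_div_iff₀ (by positivity), ← sq_abs (mg w a b)]
        nlinarith [sq_nonneg (|mg w a b| - l)]
      have a3 := mul_le_mul_of_nonneg_left (a1.trans (add_le_add le_rfl a2)) gx.le
      have a4 := tangent ga a x
      have e : gg (fun _ => 1) x / (2 * l) * mg w a b ^ 2 =
        gg (fun _ => 1) x * (mg w a b ^ 2 / (2 * l)) := by ring
      unfold ff
      linarith
  rw [Ex_add, Ex_const, Ex_mul] at h1
  have h2 := (got_MOM w hw m hA y N).2.1
  have h3 : Ex w y N (fun a b => mg w a b ^ 2) / (2 * l) ≤ 2 / ε := by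
    rw [div_le_div_iff₀ (by positivity) hε, hl]
    nlinarith [mul_le_mul_of_nonneg_left h2 hε.le]
  have h4 := mul_le_mul_of_nonneg_left h3 gx.le
  have h5 := mul_le_mul_of_nonneg_right (ga (le_max_left z ((m + 1) / 2)))
    (show 0 ≤ |psum w m| + 2 / ε by positivity)
  have h6 := mul_le_mul_of_nonneg_left (gg_harm (le_max_left z ((m + 1) / 2))) (half_pos hε).le
  have e : gg (fun _ => 1) x / (2 * l) * Ex w y N (fun a b => mg w a b ^ 2) =
      gg (fun _ => 1) x * (Ex w y N (fun a b => mg w a b ^ 2) / (2 * l)) := by ring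
  simp only [← hx] at h5 h6
  rw [hl] at h1 e h4
  linarith

theorem pt2 : ∃ C : ℝ, 0 ≤ C ∧ ∀ (w : ℕ → ℝ), (∀ i, w i ∈ Set.Icc (0 : ℝ) 1) → (∃ m, w ∉ Bs m) →
    ∀ S : ℝ, total w = S → ∀ (r z y N : ℕ) (t ε : ℝ), 1 ≤ r → 2 * r ≤ z → y ≤ z / 2 → 4 * z ≤ N →
    1 ≤ t → t ^ 2 ≤ z → 0 < ε → Ex w (z + 1 - r) N (fun a _ => ff (fun _ => 1) a) ≤
      ff (fun _ => 1) z + gg (fun _ => 1) z *
        ((S - r + C / t) * (1 - Ii y w) + (|S| + 2 / ε) * Ii y w) +
        (gg (fun _ => 1) z * (ε * (z + 1) / 2) * Ii y w +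
        gg (fun _ => 1) z * (C * t / z * (2 * r ^ 2)) +
        ∑ i ∈ range y, gg (fun _ => 1) z * (C * t / z * (2 * (2 * (i : ℝ) + 1))) * Ii i w +
        ∑ i ∈ Ico z N, gg (fun _ => 1) i * Ii (2 * i) w) := by
  obtain ⟨C, hC, hQ⟩ := got_QUP
  refine ⟨C, hC, fun w hw hF S hS r z y N t ε hr hz hy hN ht htz hε => ?_⟩
  obtain ⟨m, hm, hI⟩ := height hF
  have hA : ∀ n, ∑ i ∈ range n, |2 * w i - 1| ≤ m := fun n =>
    ((sum_le_sum fun i _ => (abs_le_ind hw i).trans (hI i).le).trans (sum_ite_le n m)).trans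
      (by exact_mod_cast min_le_left _ _)
  have g0 := gg_pos (fun _ => 1) z
  have z0 : (0 : ℝ) < z := by exact_mod_cast (show 0 < z by omega)
  have eS : psum w m = S := by exact_mod_cast (total_eq hm).symm.trans hS
  have e1 : ∑ i ∈ range y, gg (fun _ => 1) z * (C * t / z * (2 * (2 * (i : ℝ) + 1))) * Ii i w =
      gg (fun _ => 1) z * (C * t / z * (2 * ∑ i ∈ range y, (2 * (i : ℝ) + 1) * Ii i w)) := by
    simp only [mul_sum]
    exact sum_congr rfl fun i _ => by ring
  rw [e1]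
  rcases le_or_gt m y with h | h
  · have s0 : 0 ≤ ∑ i ∈ Ico z N, gg (fun _ => 1) i * Ii (2 * i) w :=
      sum_nonneg fun i _ => mul_nonneg (gg_pos _ _).le (Ii_nonneg _ _)
    have h1 := hQ w hw m hA r z N t 1 (fun _ => 1) hr hz hN ht htz (fun _ => zero_le_one)
      zero_le_one one_le_two fun _ _ _ => le_rfl
    have h2 : win (fun i => |2 * w i - 1|) z = 0 := sum_eq_zero fun i hi => by
      rw [not_Bs.1 hm i (h.trans (hy.trans (mem_Ico.1 hi).1))]
      norm_num
    have h4 : (m : ℝ) ^ 2 ≤ ∑ i ∈ range y, (2 * (i : ℝ) + 1) * Ii i w := by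
      rw [← sum_odd]
      refine le_trans (sum_le_sum fun i hi => ?_) (sum_le_sum_of_subset_of_nonneg
        (range_mono h) fun i _ _ => mul_nonneg (by positivity) (Ii_nonneg _ _))
      rw [hI, if_pos (mem_range.1 hi), mul_one]
    have h5 : min (((r : ℝ) + m) ^ 2 / z) (r + m) ≤
        (2 * r ^ 2 + 2 * ∑ i ∈ range y, (2 * (i : ℝ) + 1) * Ii i w) / z :=
      (min_le_left _ _).trans (div_le_div_of_nonneg_right (by nlinarith [sq_nonneg ((r : ℝ) - m)])
        z0.le)
    have h6 := mul_le_mul_of_nonneg_left (mul_le_mul_of_nonneg_left h5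
      (show 0 ≤ C * t by positivity)) g0.le
    rw [h2, psum_const hm (by omega), eS] at h1
    rw [hI y, if_neg (by omega)]
    have e : C * (1 / t + t * min (((r : ℝ) + m) ^ 2 / z) (r + m)) =
        C / t + C * t * min (((r : ℝ) + m) ^ 2 / z) (r + m) := by ring
    have e2 : C * t * ((2 * r ^ 2 + 2 * ∑ i ∈ range y, (2 * (i : ℝ) + 1) * Ii i w) / z) =
        C * t / z * (2 * r ^ 2) + C * t / z * (2 * ∑ i ∈ range y, (2 * (i : ℝ) + 1) * Ii i w) := by
      ring
    rw [e] at h1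
    rw [e2] at h6
    linarith
  · have h1 := high hw hm hA (show z + 1 - r ≤ z by omega) (N := N) hε
    have h4 : ∑ i ∈ Ico z (max z (min ((m + 1) / 2) N)), gg (fun _ => 1) i ≤
        ∑ i ∈ Ico z N, gg (fun _ => 1) i * Ii (2 * i) w := by
      refine le_trans (sum_le_sum fun i hi => ?_) (sum_le_sum_of_subset_of_nonneg
        (Ico_subset_Ico_right (show max z (min ((m + 1) / 2) N) ≤ N by omega))
        fun i _ _ => mul_nonneg (gg_pos _ _).le (Ii_nonneg _ _))
      rw [hI, if_pos (by have := mem_Ico.1 hi; omega), mul_one]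
    have h5 : 0 ≤ gg (fun _ => 1) z * (C * t / z * (2 * r ^ 2)) +
        gg (fun _ => 1) z * (C * t / z * (2 * ∑ i ∈ range y, (2 * (i : ℝ) + 1) * Ii i w)) := by
      have : 0 ≤ ∑ i ∈ range y, (2 * (i : ℝ) + 1) * Ii i w :=
        sum_nonneg fun i _ => mul_nonneg (by positivity) (Ii_nonneg _ _)
      positivity
    rw [sum_Ico_eq_sub _ (le_max_left _ _)] at h4
    rw [hI y, if_pos h, eS] at *
    unfold ff at *
    linarith

theorem tel {z N : ℕ} (hz : 1 ≤ z) (h : z ≤ N) :
    ∑ i ∈ Ico z N, 1 / ((i : ℝ) * (i + 1)) = 1 / z - 1 / N := by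
  induction N, h using Nat.le_induction with
  | base => simp
  | succ N hN ih =>
    have : (0 : ℝ) < N := by exact_mod_cast (show 0 < N by omega)
    rw [sum_Ico_succ_top hN, ih]
    push_cast
    field_simp
    ring

theorem kick2 {β : ℕ → ℝ} {c : ℝ} {z N : ℕ} (hc : 0 ≤ c) (hz : 1 ≤ z) (hN : z ≤ N)
    (h : ∀ n, z ≤ n → ((n : ℝ) + 1) * β n ≤ c) :
    ∑ i ∈ Ico z N, gg (fun _ => 1) i * β (2 * i) ≤ gg (fun _ => 1) z * (c / 2 + c / 2 / z) := by
  have g0 := gg_pos (fun _ => 1) z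
  have z0 : (0 : ℝ) < z := by exact_mod_cast hz
  have h1 : ∀ i ∈ Ico z N, gg (fun _ => 1) i * β (2 * i) ≤
      gg (fun _ => 1) z * (c / 2) * (z + 1) * (1 / ((i : ℝ) * (i + 1))) := by
    intro i hi
    have i1 := (mem_Ico.1 hi).1
    have i0 : (0 : ℝ) < i := by exact_mod_cast (show 0 < i by omega)
    have a1 := gg_harm i1
    have a2 := h (2 * i) (by omega)
    push_cast at a2
    have a4 : β (2 * i) ≤ c / 2 / i := by
      rcases le_total (β (2 * i)) 0 with hb | hb
      · exact hb.trans (by positivity)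
      · rw [le_div_iff₀ i0]
        linarith
    have a5 : gg (fun _ => 1) i ≤ (z + 1) * gg (fun _ => 1) z / (i + 1) := by
      rw [le_div_iff₀ (by positivity)]
      linarith
    calc _ ≤ gg (fun _ => 1) i * (c / 2 / i) := mul_le_mul_of_nonneg_left a4 (gg_pos _ _).le
      _ ≤ (z + 1) * gg (fun _ => 1) z / (i + 1) * (c / 2 / i) :=
          mul_le_mul_of_nonneg_right a5 (by positivity)
      _ = _ := by field_simp
  refine (sum_le_sum h1).trans ?_
  rw [← mul_sum, tel hz hN, mul_sub]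
  refine (sub_le_self _ (by positivity)).trans (le_of_eq ?_)
  field_simp

section
variable {P0 : Measure (ℕ → ℝ)} [IsProbabilityMeasure P0]

theorem kill_shift (h01 : In01 P0) (hW : Wl P0) {c : ℝ} (hc : 0 < c)
    (ht : ∀ᶠ n : ℕ in atTop, ((n : ℝ) + 1) * P0.real (Bs n) ≤ c) {S : (ℕ → ℝ) → ℝ}
    (iS : Integrable S P0) (hS : ∀ᵐ w ∂P0, total w = S w) {r : ℕ} (hr : 1 ≤ r)
    (hd : ∫ w, S w ∂P0 + c / 2 < r) : ∀ᵐ a ∂Fld P0, ¬ Surv a r := by
  have hF : Fi P0 := fi_of (squeeze_zero' (Eventually.of_forall fun _ => measureReal_nonneg)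
    (ht.mono fun n hn => (le_div_iff₀' (by positivity)).2 hn)
    (tendsto_const_nhds.div_atTop (tendsto_atTop_add_const_right _ _ tendsto_natCast_atTop_atTop)))
  obtain ⟨C, hC, hpt⟩ := pt2
  obtain ⟨n0, hn0⟩ := eventually_atTop.1 ht
  obtain ⟨η, η0, hη⟩ : ∃ η : ℝ, 0 < η ∧ ∫ w, S w ∂P0 + c / 2 + 6 * η = r :=
    ⟨(r - (∫ w, S w ∂P0 + c / 2)) / 6, by linarith, by ring⟩
  obtain ⟨t, ht1, ht2⟩ : ∃ t : ℝ, 1 ≤ t ∧ C / t ≤ η :=
    ((eventually_ge_atTop 1).and
      ((tendsto_const_nhds.div_atTop tendsto_id).eventually_le_const η0)).exists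
  obtain ⟨b, hb1, hb2⟩ : ∃ b : ℕ, 2 ≤ b ∧ C * t * (4 * c) / b ≤ η :=
    ((eventually_ge_atTop 2).and
      ((tendsto_const_div_atTop_nhds_zero_nat _).eventually_le_const η0)).exists
  have b0 : (0 : ℝ) < b := by exact_mod_cast (show 0 < b by omega)
  set ε := η / (b * c) with hε
  have ε0 : 0 < ε := by positivity
  set U : ℕ → (ℕ → ℝ) → ℝ := fun y w =>
    (S w - r + C / t) * (1 - Ii y w) + (|S w| + 2 / ε) * Ii y w with hU
  have iU : Integrable (fun w => S w - r + C / t) P0 :=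
    (iS.sub (integrable_const _)).add (integrable_const _)
  have iV : Integrable (fun w => |S w| + 2 / ε) P0 := iS.abs.add (integrable_const _)
  have bd : ∀ y w, ‖U y w‖ ≤ ‖S w - r + C / t‖ + ‖|S w| + 2 / ε‖ := fun y w => by
    simp only [hU, Ii]
    by_cases h : w ∈ Bs y <;> simp [h]
  have mU : ∀ y, AEStronglyMeasurable (U y) P0 := fun y =>
    (iU.1.mul ((integrable_const 1).sub (int_Ii y)).1).add (iV.1.mul (int_Ii y).1)
  have t1 : Tendsto (fun y => ∫ w, U y w ∂P0) atTop (𝓝 (∫ w, S w ∂P0 - r + C / t)) := by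
    have e : ∫ w, S w ∂P0 - r + C / t = ∫ w, (S w - r + C / t) ∂P0 := by
      have i0 : Integrable (fun w => S w - r) P0 := iS.sub (integrable_const _)
      rw [integral_add i0 (integrable_const _), integral_sub iS (integrable_const _)]
      simp
    rw [e]
    refine tendsto_integral_of_dominated_convergence _ mU (iU.norm.add iV.norm)
      (fun y => ae_of_all _ (bd y)) (Eventually.mono hF fun w hw => ?_)
    obtain ⟨m, -, hI⟩ := height hw
    refine tendsto_const_nhds.congr' ((eventually_ge_atTop m).mono fun y hy => ?_)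
    simp only [hU, hI, if_neg (not_lt.2 hy), sub_zero, mul_one, mul_zero, add_zero]
  have t3 : Tendsto (fun z : ℕ => z / b) atTop atTop :=
    tendsto_atTop_atTop.2 fun n => ⟨n * b, fun a ha => (Nat.le_div_iff_mul_le (by omega)).2 ha⟩
  have t4 := (t1.comp t3).eventually (gt_mem_nhds (lt_add_of_pos_right _ η0))
  refine kill_of h01 hW hF hr (ff_nonneg _) (ff_zero _) ff_top ?_
  filter_upwards [t4, eventually_ge_atTop (2 * r), t3.eventually_ge_atTop n0,
    tendsto_natCast_atTop_atTop.eventually_ge_atTop (t ^ 2),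
    (tendsto_const_div_atTop_nhds_zero_nat
      (C * t * (2 * r ^ 2 + 2 * n0 ^ 2) + c / 2)).eventually_le_const η0] with z z1 z2 z3 z4 z5 N hN
  have y1 : z / b ≤ z / 2 := Nat.div_le_div_left hb1 two_pos
  have z0 : (0 : ℝ) < z := by exact_mod_cast (show 0 < z by omega)
  have y2 : ((z / b : ℕ) : ℝ) ≤ z / b := Nat.cast_div_le
  have y3 : (z : ℝ) + 1 ≤ b * ((z / b : ℕ) + 1) := by
    exact_mod_cast Nat.succ_le_of_lt (Nat.lt_mul_div_succ z (show 0 < b by omega))
  set y := z / b with hy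
  set g := gg (fun _ => 1) z with hg
  have g0 : 0 < g := gg_pos _ _
  have i1 : Integrable (U y) P0 := (iU.norm.add iV.norm).mono' (mU _) (ae_of_all _ (bd _))
  have i2 : Integrable (fun w => ff (fun _ => 1) z + g * U y w) P0 :=
    (integrable_const _).add (i1.const_mul _)
  have i3 : Integrable (fun w => g * (ε * (z + 1) / 2) * Ii y w + g * (C * t / z * (2 * r ^ 2)))
      P0 := ((int_Ii y).const_mul _).add (integrable_const _)
  have i4 : Integrable (fun w =>
      ∑ i ∈ range y, g * (C * t / z * (2 * (2 * (i : ℝ) + 1))) * Ii i w) P0 :=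
    integrable_finsetSum _ fun i _ => (int_Ii i).const_mul _
  have i5 : Integrable (fun w => ∑ i ∈ Ico z N, gg (fun _ => 1) i * Ii (2 * i) w) P0 :=
    integrable_finsetSum _ fun i _ => (int_Ii _).const_mul _
  have i6 : Integrable (fun w => g * (ε * (z + 1) / 2) * Ii y w + g * (C * t / z * (2 * r ^ 2)) +
      ∑ i ∈ range y, g * (C * t / z * (2 * (2 * (i : ℝ) + 1))) * Ii i w) P0 := i3.add i4
  have i7 : Integrable (fun w => g * (ε * (z + 1) / 2) * Ii y w + g * (C * t / z * (2 * r ^ 2)) +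
      ∑ i ∈ range y, g * (C * t / z * (2 * (2 * (i : ℝ) + 1))) * Ii i w +
      ∑ i ∈ Ico z N, gg (fun _ => 1) i * Ii (2 * i) w) P0 := i6.add i5
  refine (integral_mono_ae (Ex_Qa P0 _ N _).2.1 (i2.add i7) ?_).trans ?_
  · filter_upwards [h01, hF, hS] with w a1 a2 a3
    exact hpt w a1 a2 _ a3 r z y N t ε hr z2 y1 hN ht1 z4 ε0
  have k1 := kick2 (β := fun n => P0.real (Bs n)) hc.le (show 1 ≤ z by omega)
    (show z ≤ N by omega) fun n hn => hn0 n (by omega)
  have k2 : ε * (z + 1) / 2 * P0.real (Bs y) ≤ η := by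
    have h1 := mul_le_mul_of_nonneg_right y3 (measureReal_nonneg (μ := P0) (s := Bs y))
    have h2 := mul_le_mul_of_nonneg_left (hn0 y z3) b0.le
    have h3 := mul_le_mul_of_nonneg_left (h1.trans ((mul_assoc _ _ _).le.trans h2)) ε0.le
    rw [show ε * (b * c) = η by rw [hε]; field_simp] at h3
    linarith
  have k3 : ∑ i ∈ range y, (2 * (i : ℝ) + 1) * P0.real (Bs i) ≤ n0 ^ 2 + 2 * c * (z / b) := by
    have h1 : ∑ i ∈ range n0, (2 * (i : ℝ) + 1) * P0.real (Bs i) ≤ n0 ^ 2 :=
      (sum_le_sum fun i _ => mul_le_of_le_one_right (by positivity) measureReal_le_one).trans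
        (sum_odd n0).le
    have h2 := sum_le_card_nsmul (Ico n0 y) (fun i => (2 * (i : ℝ) + 1) * P0.real (Bs i)) (2 * c)
      fun i hi => by
        nlinarith [hn0 i (mem_Ico.1 hi).1, measureReal_nonneg (μ := P0) (s := Bs i)]
    rw [Nat.card_Ico, nsmul_eq_mul] at h2
    have h3 : ((y - n0 : ℕ) : ℝ) ≤ y := by exact_mod_cast Nat.sub_le _ _
    rw [← sum_range_add_sum_Ico _ z3]
    nlinarith
  have k4 := mul_le_mul_of_nonneg_left k3 (show 0 ≤ C * t / z * 2 by positivity)
  have k5 : ∑ i ∈ range y, g * (C * t / z * (2 * (2 * (i : ℝ) + 1))) * P0.real (Bs i) =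
      g * (C * t / z * 2 * ∑ i ∈ range y, (2 * (i : ℝ) + 1) * P0.real (Bs i)) := by
    simp only [mul_sum]
    exact sum_congr rfl fun i _ => by ring
  have k6 : C * t / z * 2 * (n0 ^ 2 + 2 * c * (z / b)) + C * t / z * (2 * r ^ 2) + c / 2 / z =
      (C * t * (2 * r ^ 2 + 2 * n0 ^ 2) + c / 2) / z + C * t * (4 * c) / b := by
    field_simp
    ring
  have k7 : ∫ w, U y w ∂P0 + ε * (z + 1) / 2 * P0.real (Bs y) + C * t / z * (2 * r ^ 2) +
      C * t / z * 2 * ∑ i ∈ range y, (2 * (i : ℝ) + 1) * P0.real (Bs i) +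
      (c / 2 + c / 2 / z) ≤ 0 := by
    simp only [Function.comp] at z1
    linarith
  have k8 := mul_le_mul_of_nonneg_left k7 g0.le
  simp only [Pi.add_apply]
  rw [integral_add i2 i7, integral_add i6 i5, integral_add i3 i4,
    integral_add (integrable_const _) (i1.const_mul _),
    integral_add ((int_Ii y).const_mul _) (integrable_const _),
    integral_finsetSum _ fun i _ => (int_Ii i).const_mul _,
    integral_finsetSum _ fun i _ => (int_Ii _).const_mul _]
  simp only [integral_const_mul, Ii_int, integral_const, probReal_univ, smul_eq_mul, one_mul, k5]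
  linarith

end

end Pool.Agent.P.MP_c7fa75_pr.HT
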