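import Pool.Agent.P.MP_c7fa75_pr.HT.C

/-! Survival to the right and survival to the left exclude each other. -/

set_option autoImplicit false

namespace Pool.Agent.P.MP_c7fa75_pr.HT

open MeasureTheory ProbabilityTheory Filter Topology Finset
open scoped ENNReal Classical
open Pool.Agent.P.MP_c7fa75_pr.T Pool.Agent.P.MP_c7fa75_pr.R2 Pool.Agent.P.MP_c7fa75_pr.SP

namespace Ox

section
variable {E : Type} [MeasurableSpace E] (Q : Measure E) [IsProbabilityMeasure Q] {F : E → ℕ → ℕ}

/-- The probability of survival. -/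
noncomputable def sv (Q : Measure E) (F : E → ℕ → ℕ) (z : ℕ) : ℝ≥0∞ :=
  ⨅ n, (Kop Q F 1)^[n] (fun _ => 1) z

omit [IsProbabilityMeasure Q] in
theorem kop_lin (hF : ∀ z, Measurable (fun e => F e z)) (a : ℝ≥0∞) (n : ℕ) (f g : ℕ → ℝ≥0∞)
    (z : ℕ) : (Kop Q F 1)^[n] (fun u => f u + a * g u) z =
      (Kop Q F 1)^[n] f z + a * (Kop Q F 1)^[n] g z := by
  induction n generalizing z with
  | zero => rfl
  | succ n ih =>
    simp only [Function.iterate_succ_apply']
    rw [Kop, Kop, Kop, ← lintegral_const_mul a (KILLx.meas_in F 1 hF _ z),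
      ← lintegral_add_left (KILLx.meas_in F 1 hF _ z)]
    refine lintegral_congr fun e => ?_
    split_ifs
    · exact ih _
    · simp

theorem zero_one (hF : ∀ z, Measurable (fun e => F e z)) {s : ℝ≥0∞} (hs : s < 1)
    (h : ∀ z, sv Q F z ≤ s) (z : ℕ) : sv Q F z = 0 := by
  have key : ∀ n z, sv Q F z ≤ s * (Kop Q F 1)^[n] (fun _ => 1) z := fun n => by
    induction n with
    | zero => exact fun z => (h z).trans_eq (mul_one s).symm
    | succ n ih =>
      intro z
      refine (KILLx.inf_le_kop Q F 1 hF z).trans ?_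
      rw [Function.iterate_succ_apply', Kop, Kop,
        ← lintegral_const_mul s (KILLx.meas_in F 1 hF _ z)]
      refine lintegral_mono fun e => ?_
      dsimp only
      split_ifs
      · exact ih _
      · exact zero_le
  refine KILLx.zero_of_le_mul ((h z).trans_lt (hs.trans ENNReal.one_lt_top)).ne hs ?_
  rw [mul_comm]
  refine (le_iInf fun n => key n z).trans_eq (ENNReal.mul_iInf fun h' => ?_).symm
  exact absurd h' (hs.trans ENNReal.one_lt_top).ne

theorem esc (hF : ∀ z, Measurable (fun e => F e z)) (hD : ∀ z, 0 < Q {e | F e z < 1}) (y w : ℕ)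
    {δ : ℝ≥0∞} (hδ : δ ≠ 0) :
    ∀ᶠ n in atTop, sv Q F y ≤ (Kop Q F 1)^[n] (fun u => if w < u then 1 else 0) y + δ := by
  obtain ⟨z0, -, hz0⟩ := exists_min_image (range (w + 1)) (fun z => Q {e | F e z < 1})
    nonempty_range_add_one
  obtain ⟨p, hp⟩ : ∃ p, p = Q {e | F e z0 < 1} := ⟨_, rfl⟩
  have p0 : p ≠ 0 := hp ▸ (hD z0).ne'
  have p1 : p ≠ ⊤ := hp ▸ measure_ne_top _ _
  have h1 : (fun u => Kop Q F 1 (fun _ => 1) u + p * (if w < u then 0 else 1)) ≤ fun _ => 1 := by
    intro u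
    dsimp only
    split_ifs with hu
    · rw [mul_zero, add_zero]
      exact KILLx.kop_one Q F 1 u
    · have h2 := KILLx.kop_le Q F 1 hF (fun _ => 1) (fun _ => 0) 1 0 (fun _ => le_self_add) u
      rw [one_mul, zero_mul, add_zero] at h2
      have h3 : {e | F e u < 1} = {e | 1 ≤ F e u}ᶜ := by
        ext e
        simp
      have h4 := hz0 u (mem_range.2 (by omega))
      rw [← hp, h3] at h4
      rw [mul_one]
      exact (add_le_add h2 h4).trans_eq (prob_add_prob_compl (KILLx.meas_alive F 1 hF u))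
  have s1 : sv Q F y ≠ ⊤ :=
    ne_top_of_le_ne_top ENNReal.one_ne_top (iInf_le (fun n => (Kop Q F 1)^[n] (fun _ => 1) y) 0)
  have h2 : Tendsto (fun n => (Kop Q F 1)^[n] (fun _ => 1) y) atTop (𝓝 (sv Q F y)) :=
    tendsto_atTop_iInf fun a b hab => KILLx.iter_anti Q F 1 hab y
  filter_upwards [h2.eventually_le_const (ENNReal.lt_add_right s1 (mul_ne_zero p0 hδ))] with n hn
  have h3 := (KILLx.kop_mono Q F 1).iterate n h1 y
  rw [kop_lin Q hF, ← Function.iterate_succ_apply] at h3
  have h4 := (add_le_add (iInf_le (fun n => (Kop Q F 1)^[n] (fun _ => 1) y) (n + 1)) le_rfl).trans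
    (h3.trans hn)
  have h5 := (ENNReal.mul_le_mul_iff_right p0 p1).1 ((ENNReal.add_le_add_iff_left s1).1 h4)
  have h6 := kop_lin Q hF 1 n (fun u => if w < u then 1 else 0) (fun u => if w < u then 0 else 1) y
  have e : (fun u : ℕ => (if w < u then (1 : ℝ≥0∞) else 0) + 1 * (if w < u then 0 else 1)) =
      fun _ => 1 := funext fun u => by split_ifs <;> simp
  rw [e, one_mul] at h6
  exact (iInf_le (fun n => (Kop Q F 1)^[n] (fun _ => 1) y) n).trans
    (h6.trans_le (add_le_add le_rfl h5))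

theorem dual (Q' : Measure E) [IsProbabilityMeasure Q'] {F' : E → ℕ → ℕ}
    (hF : ∀ z, Measurable (fun e => F e z)) (hF' : ∀ z, Measurable (fun e => F' e z))
    (hd : ∀ y w, Q {e | w < F e y} ≤ Q' {e | F' e w < y}) (n y w : ℕ) :
    (Kop Q F 1)^[n] (fun u => if w < u then 1 else 0) y +
      (Kop Q' F' 1)^[n] (fun u => if y < u then 1 else 0) w ≤ 1 := by
  let TR : (ℕ → ℕ → ℝ≥0∞) → ℕ → ℕ → ℝ≥0∞ := fun G y w => ∫⁻ e, G (F e y) w ∂Q
  let TL : (ℕ → ℕ → ℝ≥0∞) → ℕ → ℕ → ℝ≥0∞ := fun G y w => ∫⁻ e, G y (F' e w) ∂Q'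
  let φ : ℕ → ℕ → ℝ≥0∞ := fun y w => if w < y then 1 else 0
  have hc : Function.Commute TR TL := fun G => funext fun y => funext fun w =>
    lintegral_lintegral_swap (f := fun e e' => G (F e y) (F' e' w))
      ((Measurable.of_discrete (f := fun p : ℕ × ℕ => G p.1 p.2)).comp
        (((hF y).comp measurable_fst).prodMk ((hF' w).comp measurable_snd))).aemeasurable
  have h0 : TR φ ≤ TL φ := fun y w => by
    have e1 : TR φ y w = Q {e | w < F e y} := by
      rw [← lintegral_indicator_one (measurableSet_lt measurable_const (hF y))]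
      exact lintegral_congr fun e => by simp [φ, Set.indicator_apply]
    have e2 : TL φ y w = Q' {e | F' e w < y} := by
      rw [← lintegral_indicator_one (measurableSet_lt (hF' w) measurable_const)]
      exact lintegral_congr fun e => by simp [φ, Set.indicator_apply]
    rw [e1, e2]
    exact hd y w
  have mR : Monotone TR := fun G G' (h : ∀ y w, G y w ≤ G' y w) y w =>
    lintegral_mono fun e => h _ _
  have mL : Monotone TL := fun G G' (h : ∀ y w, G y w ≤ G' y w) y w =>
    lintegral_mono fun e => h _ _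
  have h1 := hc.iterate_le_of_map_le mR mL h0 n y w
  have h2 : ∀ n y, (Kop Q F 1)^[n] (fun u => if w < u then 1 else 0) y ≤ TR^[n] φ y w := fun n => by
    induction n with
    | zero => exact fun _ => le_rfl
    | succ n ih =>
      intro y
      simp only [Function.iterate_succ_apply']
      refine lintegral_mono fun e => ?_
      dsimp only
      split_ifs
      · exact ih _
      · exact zero_le
  have h3 : ∀ n w, TL^[n] φ y w + (Kop Q' F' 1)^[n] (fun u => if y < u then 1 else 0) w ≤ 1 :=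
    fun n => by
      induction n with
      | zero =>
        intro w
        simp only [Function.iterate_zero_apply, φ]
        split_ifs <;> first | omega | simp
      | succ n ih =>
        intro w
        simp only [Function.iterate_succ_apply']
        rw [Kop]
        refine (lintegral_add_right _ (KILLx.meas_in F' 1 hF' _ w)).symm.trans_le
          ((lintegral_mono (g := fun _ => 1) fun e => ?_).trans_eq (by simp))
        refine le_trans (add_le_add le_rfl ?_) (ih (F' e w))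
        split_ifs
        · exact le_rfl
        · exact zero_le
  exact (add_le_add ((h2 n y).trans h1) le_rfl).trans (h3 n w)

theorem one_of (Q' : Measure E) [IsProbabilityMeasure Q'] {F' : E → ℕ → ℕ}
    (hF : ∀ z, Measurable (fun e => F e z)) (hF' : ∀ z, Measurable (fun e => F' e z))
    (hd : ∀ y w, Q {e | w < F e y} ≤ Q' {e | F' e w < y}) (hD : ∀ z, 0 < Q {e | F e z < 1})
    (hD' : ∀ z, 0 < Q' {e | F' e z < 1}) : (∀ z, sv Q F z = 0) ∨ ∀ z, sv Q' F' z = 0 := by
  obtain ⟨δ, d0, d1, d4⟩ : ∃ δ : ℝ≥0∞, δ ≠ 0 ∧ δ ≠ ⊤ ∧ 4 * δ = 1 :=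
    ⟨4⁻¹, by simp, by simp, ENNReal.mul_inv_cancel (by simp) (by simp)⟩
  have hs : 3 * δ < 1 := d4 ▸ ENNReal.mul_lt_mul_left d0 d1 (by norm_num)
  by_contra hn
  obtain ⟨n1, n2⟩ := not_or.1 hn
  obtain ⟨y, hy⟩ := not_forall.1 fun h => n1 (zero_one Q hF hs h)
  obtain ⟨w, hw⟩ := not_forall.1 fun h => n2 (zero_one Q' hF' hs h)
  obtain ⟨n, a, b⟩ := ((esc Q hF hD y w d0).and (esc Q' hF' hD' w y d0)).exists
  have h1 := (ENNReal.add_lt_add (not_le.1 hy) (not_le.1 hw)).trans_le (add_le_add a b)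
  rw [add_add_add_comm] at h1
  have h2 := h1.trans_le (add_le_add (dual Q Q' hF hF' hd n y w) le_rfl)
  rw [← d4] at h2
  exact h2.ne (by ring)

end

/-- All arrows reversed. -/
def flp (e : ℕ → Bool) : ℕ → Bool := fun i => !e i

theorem meas_flp : Measurable flp :=
  measurable_pi_lambda _ fun i => (Measurable.of_discrete (f := not)).comp (measurable_pi_apply i)

theorem Rr_flp (e : ℕ → Bool) (n : ℕ) : Rr (flp e) n = Ll e n := by simp [Rr, Ll, flp]

theorem law_flp {w : ℕ → ℝ} (hw : ∀ i, w i ∈ Set.Icc (0 : ℝ) 1) :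
    (lamU ℕ).map (fun u => flp (arr w u)) = (lamU ℕ).map (arr (rfl1 w)) := by
  have m1 : ∀ p : ℝ, Measurable (arr1 p) := fun p => meas_arr1 measurable_const measurable_id
  have m2 : ∀ p : ℝ, Measurable (fun v => !arr1 p v) := fun p =>
    (Measurable.of_discrete (f := not)).comp (m1 p)
  have e1 := Measure.infinitePi_map_pi (fun _ : ℕ => (volume : Measure unitInterval))
    (f := fun i v => !arr1 (w i) v) fun i => m2 (w i)
  have e2 := Measure.infinitePi_map_pi (fun _ : ℕ => (volume : Measure unitInterval))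
    (f := fun i v => arr1 (1 - w i) v) fun i => m1 (1 - w i)
  refine e1.trans (Eq.trans ?_ e2.symm)
  congr 1
  funext i
  refine Measure.ext_of_singleton fun b => ?_
  rw [Measure.map_apply (m2 _) (measurableSet_singleton b),
    Measure.map_apply (m1 _) (measurableSet_singleton b),
    ← measureReal_eq_measureReal_iff]
  have a1 := CYLx.one (hw i) (!b)
  have a2 := CYLx.one (w := 1 - w i) ⟨by linarith [(hw i).2], by linarith [(hw i).1]⟩ b
  have e3 : (fun v => !arr1 (w i) v) ⁻¹' {b} = {v | arr1 (w i) v = !b} := by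
    ext v
    cases b <;> simp
  rw [e3, a1]
  refine Eq.trans ?_ a2.symm
  cases b <;> simp [pr]

theorem Qa_apply (P : Measure (ℕ → ℝ)) [IsProbabilityMeasure P] {S : Set (ℕ → Bool)}
    (hS : MeasurableSet S) : Qa P S = ∫⁻ w, (lamU ℕ).map (arr w) S ∂P := by
  rw [Qa, Measure.map_apply meas_arr2 hS, Measure.prod_apply (meas_arr2 hS)]
  exact lintegral_congr fun w => (Measure.map_apply (meas_arr w) hS).symm

theorem Qa_flp {P0 : Measure (ℕ → ℝ)} [IsProbabilityMeasure P0] (h01 : In01 P0)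
    {S : Set (ℕ → Bool)} (hS : MeasurableSet S) : Qa P0 (flp ⁻¹' S) = Qa (P0.map rfl1) S := by
  have := (got_RFL0 P0).1
  have hm : Measurable fun w => (lamU ℕ).map (arr w) S := by
    simp only [Measure.map_apply (meas_arr _) hS]
    exact measurable_measure_prodMk_left (meas_arr2 hS)
  rw [Qa_apply _ (meas_flp hS), Qa_apply _ hS, lintegral_map hm meas_rfl1]
  refine lintegral_congr_ae (Eventually.mono h01 fun w hw => ?_)
  dsimp only
  rw [← law_flp hw, ← Measure.map_apply meas_flp hS, Measure.map_map meas_flp (meas_arr w)]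
  rfl

theorem not_surv {P0 : Measure (ℕ → ℝ)} [IsProbabilityMeasure P0] (h01 : In01 P0) (hF : Fi P0)
    (h : ∀ z, sv (Qa P0) (fun e z => Uo e (z + 1 - 1)) z = 0) : ∀ᵐ a ∂Fld P0, ¬ Surv a 1 := by
  have hnull : ∀ᵐ a ∂Fld P0, ∀ z, ¬ ∀ n, 1 ≤ it (fun e z => Uo e (z + 1 - 1))
      (fun i : ℕ => a ((i : ℤ) + 1)) z (n + 1) := by
    rw [ae_all_iff]
    intro z
    have := (got_CH (ℕ → Bool) (ℤ → ℕ → Bool) (Qa P0) (Fld P0) (fun n a => a ((n : ℤ) + 1))
      (fun e z => Uo e (z + 1 - 1)) 1 (fun z => meas_Uo _) (fun n => measurable_pi_apply _)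
      (fld_indep P0) (fun n => fld_map P0 _) z).2.trans (h z)
    rw [ae_iff]
    simpa only [not_not] using this
  filter_upwards [hnull, inf_arrows h01 hF false] with a h1 h2 hs
  obtain ⟨z, hz⟩ := KILLQx.alive a 1 h2 hs
  exact h1 z hz

end Ox

theorem fi_rfl {P0 : Measure (ℕ → ℝ)} (hF : Fi P0) : Fi (P0.map rfl1) := by
  have hm : MeasurableSet {w : ℕ → ℝ | ∃ m, w ∉ Bs m} := by
    rw [Set.ofPred_exists]
    exact MeasurableSet.iUnion fun m => (meas_Bs m).compl
  refine (ae_map_iff meas_rfl1.aemeasurable hm).2 (Eventually.mono hF fun w ⟨m, h⟩ =>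
    ⟨m, not_Bs.2 fun i hi => ?_⟩)
  rw [rfl1, not_Bs.1 h i hi]
  norm_num

theorem one_dir {P0 : Measure (ℕ → ℝ)} [IsProbabilityMeasure P0] (h01 : In01 P0) (hl : Wl P0)
    (hr : Wr P0) (hF : Fi P0) :
    (∀ᵐ a ∂Fld P0, ¬ Surv a 1) ∨ (∀ᵐ a ∂Fld (P0.map rfl1), ¬ Surv a 1) := by
  obtain ⟨this, r1, -, -, -, r2, -⟩ := got_RFL0 P0
  refine (Ox.one_of (Qa P0) (Qa (P0.map rfl1)) (fun z => meas_Uo _) (fun z => meas_Uo _)
    (fun y w => ?_) (fun z => KILLQx.pos got_CYL P0 h01 hl _ 1 le_rfl)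
    (fun z => KILLQx.pos got_CYL _ (r1 h01) (r2 hr) _ 1 le_rfl)).imp (Ox.not_surv h01 hF)
    (Ox.not_surv (r1 h01) (fi_rfl hF))
  simp only [Nat.add_sub_cancel]
  refine (measure_mono fun e he => ?_).trans ((Ox.Qa_flp h01 (S := {e | Rr e (w + y) < y})
    (measurableSet_lt (meas_Rr _) measurable_const)).trans_le (measure_mono fun e he => ?_))
  · show Rr (Ox.flp e) (w + y) < y
    rw [Ox.Rr_flp]
    by_contra h
    have h1 := Uo_le (not_lt.1 h)
    have h2 := Rr_add_Ll e (w + y)
    have h3 : w < Uo e y := he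
    omega
  · have h1 : Rr e (w + y) < y := he
    have h2 := Rr_add_Ll e (w + y)
    exact (Uo_le (n := w + y) (by omega)).trans_lt h1

end Pool.Agent.P.MP_c7fa75_pr.HT
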