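import Pool.Agent.P.MP_c7fa75_pr.HT.E2
import Pool.Agent.P.MP_c7fa75_pr.HT.G
import Pool.Agent.P.MP_c7fa75_pr.HT.H
import Pool.Agent.P.MP_c7fa75_pr.HT.O

/-! The shifted threshold. -/

set_option autoImplicit false

namespace Pool.Agent.P.MP_c7fa75_pr.HT

open MeasureTheory ProbabilityTheory Filter Topology Finset
open scoped ENNReal Classical
open Pool.Agent.P.MP_c7fa75_pr.T Pool.Agent.P.MP_c7fa75_pr.R2 Pool.Agent.P.MP_c7fa75_pr.SP

section
variable {P0 : Measure (ℕ → ℝ)} [IsProbabilityMeasure P0]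

theorem core_kill2 (h01 : In01 P0) {k r s : ℕ} (hk : 1 ≤ k) (hr : r + s ≤ k + 1)
    (h1 : ∀ᵐ a ∂Fld P0, ¬ Surv a r) (h2 : ∀ᵐ a ∂Fld (P0.map rfl1), ¬ Surv a s) :
    Dec P0 k fun q => ¬ Tr q := by
  intro Θ _ μ _ M hE
  obtain ⟨R, hRW, hRX⟩ := got_RUN0 Θ μ M k
  have hER : Env μ R.W P0 := hRW ▸ hE
  obtain ⟨R', hX, hE'⟩ := got_REFL Θ μ k R P0 hER
  have := (got_RFL0 P0).1
  filter_upwards [few' R h01 hER h1, few' R' ((got_RFL0 P0).2.1 h01) hE' h2,
    got_SRW Θ μ M (k - 1)] with θ a1 a2 hs hTr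
  have hG1 : T.Good (fun i => M.X i θ) (k - 1) := by
    by_contra hne
    exact hs hne hTr
  have hG : T.Good (fun i => R.X i θ) k := fun i hi => by
    rw [hRX]
    by_cases h : i < k - 1
    · exact hG1 i h
    · rwa [show i = k - 1 by omega]
  have e : ∀ i, R'.X i θ = fun n => - R.X i θ n := fun i => funext fun n => hX i θ n
  have h0 := a2 (by simp only [e]; exact (REFLx.good_neg _ k).2 hG)
  have h3 := a1 hG
  have h4 : range k ⊆ (range k).filter (fun i => Tendsto (R.X i θ) atTop atTop) ∪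
      (range k).filter (fun i => Tendsto (R'.X i θ) atTop atTop) := fun i hi => by
    rw [mem_union, mem_filter, mem_filter]
    exact ((got_FLOW (R.X i θ) ((R.nn θ).1 i) ((R.nn θ).2 i)).2.1 (hG i (mem_range.1 hi))).imp
      (fun h => ⟨hi, h⟩) fun h => ⟨hi, e i ▸ tendsto_neg_atBot_atTop.comp h⟩
  have h5 := (card_le_card h4).trans (card_union_le _ _)
  rw [card_range] at h5
  omega

theorem shift_pos {T : ℕ → ℝ} (h : Lw T P0) {c d : ℝ} (hc : 0 < c)
    (hT : ∀ᶠ n : ℕ in atTop, ENNReal.ofReal (T n) ≤ ENNReal.ofReal (c / (n + 1)))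
    (hd : (dp P0 : EReal) - (dm P0 : EReal) = d) (d0 : 0 ≤ d) {k : ℕ} (hk : 1 ≤ k)
    (hlt : d + c / 2 < k) : Dec P0 k fun q => ¬ Tr q := by
  have ht : ∀ᶠ n : ℕ in atTop, ((n : ℝ) + 1) * P0.real (Bs n) ≤ c :=
    (h.tail.and hT).mono fun n hn => (le_div_iff₀' (by positivity)).1
      (ENNReal.toReal_le_of_le_ofReal (by positivity) (hn.1.trans hn.2))
  have hp : dp P0 ≠ ⊤ := fun e => by
    rw [e, EReal.coe_ennreal_top, EReal.top_sub (by simpa using h.fin)] at hd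
    exact EReal.top_ne_coe _ hd
  have fi : ∀ (Q : Measure (ℕ → ℝ)) [IsProbabilityMeasure Q],
      (∀ᶠ n : ℕ in atTop, ((n : ℝ) + 1) * Q.real (Bs n) ≤ c) → Fi Q := fun Q _ ht =>
    fi_of (squeeze_zero' (Eventually.of_forall fun _ => measureReal_nonneg)
      (ht.mono fun n hn => (le_div_iff₀' (by positivity)).2 hn) (tendsto_const_nhds.div_atTop
        (tendsto_atTop_add_const_right _ _ tendsto_natCast_atTop_atTop)))
  have key : ∀ (Q : Measure (ℕ → ℝ)) [IsProbabilityMeasure Q], In01 Q → Wl Q →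
      (∀ᶠ n : ℕ in atTop, ((n : ℝ) + 1) * Q.real (Bs n) ≤ c) → dp Q ≠ ⊤ → dm Q ≠ ⊤ →
      (dp Q : EReal) - (dm Q : EReal) ≤ d → ∀ᵐ a ∂Fld Q, ¬ Surv a k := by
    intro Q _ a1 a2 a3 a4 a5 a6
    obtain ⟨b1, b2⟩ := fin_total (fi Q a3) a4 a5
    rw [(drift_int b1 b2).2.2, EReal.coe_le_coe_iff] at a6
    exact kill_shift a1 a2 hc a3 b2 b1 hk (by linarith)
  obtain ⟨r0, r1, r2, -, -, r3, -⟩ := got_RFL0 P0
  obtain ⟨-, e1, e2⟩ := r2 h.lim
  have k1 := key P0 h.in01 h.wl ht hp h.fin hd.le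
  have k2 := key (P0.map rfl1) (r1 h.in01) (r3 h.wr) (ht.mono fun n hn => by
      rw [map_measureReal_apply meas_rfl1 (meas_Bs n)]
      refine le_of_eq_of_le ?_ hn
      congr 2
      ext w
      refine exists_congr fun i => and_congr_right fun _ => not_congr ?_
      rw [rfl1]
      constructor <;> intro <;> linarith) (e1 ▸ h.fin) (e2 ▸ hp) (by
      rw [e1, e2]
      exact (EReal.sub_nonpos.2 (EReal.coe_ennreal_le_coe_ennreal_iff.2 h.le)).trans
        (EReal.coe_nonneg.2 d0))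
  rcases one_dir h.in01 h.wl h.wr (fi P0 ht) with o | o
  · exact core_kill2 h.in01 hk (by omega) o k2
  · exact core_kill2 h.in01 hk le_rfl k1 o

end

theorem shifted {T : ℕ → ℝ} {L : ℝ≥0∞}
    (hT : Tendsto (fun n : ℕ => ENNReal.ofReal (n * T n)) atTop (𝓝 L)) {k : ℕ} (hk : 1 ≤ k)
    {d : ℝ} (d0 : 0 ≤ d) :
    (ENNReal.ofReal d + L / 2 < k → ∀ P, Law T P → drift P = d → Never P k) ∧
      ((k : ℝ≥0∞) < ENNReal.ofReal d + L / 2 →
        ∃ P, Law T P ∧ drift P = d ∧ Always P k ∧ ¬ Never P k) := by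
  have e : ∀ c : ℝ, 0 ≤ c →
      ENNReal.ofReal d + ENNReal.ofReal c / 2 = ENNReal.ofReal (d + c / 2) := fun c hc => by
    rw [ENNReal.ofReal_add d0 (by positivity), ENNReal.ofReal_div_of_pos two_pos,
      ENNReal.ofReal_ofNat]
  refine ⟨fun h P hP hd => ?_, fun h => ?_⟩
  · have hL : L ≠ ⊤ := fun e => by
      rw [e, ENNReal.top_div_of_ne_top ENNReal.ofNat_ne_top, add_top] at h
      exact not_top_lt h
    rw [← ENNReal.ofReal_toReal hL, e _ ENNReal.toReal_nonneg, ← ENNReal.ofReal_natCast,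
      ENNReal.ofReal_lt_ofReal_iff_of_nonneg (by positivity)] at h
    obtain ⟨c, c1, c2⟩ := exists_between (show L.toReal < 2 * (k - d) by linarith)
    obtain ⟨b, b1, b2⟩ := exists_between c1
    have b0 : 0 < b := ENNReal.toReal_nonneg.trans_lt b1
    obtain ⟨_, h1⟩ := hP.down
    refine hP.dec.2 (shift_pos h1 (b0.trans b2) ?_ (drift_eq P ▸ hd) d0 hk (by linarith))
    filter_upwards [hT.eventually (gt_mem_nhds ((ENNReal.lt_ofReal_iff_toReal_lt hL).2 b1)),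
      tendsto_natCast_atTop_atTop.eventually_ge_atTop (b / (c - b)), eventually_gt_atTop 0]
      with n n1 n2 n3
    have n0 : (0 : ℝ) < n := by exact_mod_cast n3
    rw [ENNReal.ofReal_lt_ofReal_iff b0] at n1
    rw [div_le_iff₀ (by linarith)] at n2
    refine ENNReal.ofReal_le_ofReal (((lt_div_iff₀' n0).2 n1).le.trans ?_)
    rw [div_le_div_iff₀ n0 (by positivity)]
    linarith
  · obtain ⟨c, c0, c1, c2⟩ : ∃ c : ℝ, 0 ≤ c ∧ k < d + c / 2 ∧
        ∀ᶠ n : ℕ in atTop, ENNReal.ofReal (c / n) ≤ ENNReal.ofReal (T n) := by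
      rcases lt_or_ge (k : ℝ) d with h1 | h1
      · exact ⟨0, le_rfl, by linarith, Eventually.of_forall fun n => by simp⟩
      have h2 : ENNReal.ofReal (2 * (k - d)) < L := not_le.1 fun h2 => h.not_ge (by
        refine (add_le_add le_rfl (ENNReal.div_le_div_right h2 2)).trans ?_
        rw [e _ (by linarith), ← ENNReal.ofReal_natCast]
        exact ENNReal.ofReal_le_ofReal (by linarith))
      obtain ⟨c, c0, c1, c2⟩ := ENNReal.lt_iff_exists_real_btwn.1 h2
      rw [ENNReal.ofReal_lt_ofReal_iff_of_nonneg (by linarith)] at c1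
      refine ⟨c, c0, by linarith, ?_⟩
      filter_upwards [hT.eventually (lt_mem_nhds c2), eventually_gt_atTop 0] with n a b
      refine ENNReal.ofReal_le_ofReal ?_
      rw [div_le_iff₀ (by exact_mod_cast b), mul_comm]
      exact ((ENNReal.ofReal_lt_ofReal_iff_of_nonneg c0).1 a).le
    obtain ⟨P0, _, h1, h2, h3⟩ := above_sharp c0 d0 hk c1
    have h4 : Lw T P0 := { h1 with tail := (h1.tail.and c2).mono fun _ hn => hn.1.trans hn.2 }
    obtain ⟨P, hP, rfl⟩ := h4.up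
    exact ⟨P, hP, drift_eq P ▸ h2, hP.dec.1 h3, not_both hP (hP.dec.1 h3)⟩

end Pool.Agent.P.MP_c7fa75_pr.HT
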