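import Pool.Agent.P.MP_c7fa75_pr.HT.J

/-! Transience for all laws with a given drift. -/

set_option autoImplicit false

namespace Pool.Agent.P.MP_c7fa75_pr.HT

open MeasureTheory ProbabilityTheory Filter Topology Finset
open scoped ENNReal Classical
open Pool.Agent.P.MP_c7fa75_pr.T Pool.Agent.P.MP_c7fa75_pr.R2 Pool.Agent.P.MP_c7fa75_pr.SP

/-- A bounded stack of drift `D`, or `j` sure left steps followed by `j` sure right steps. -/
theorem dip {q : ℕ → ℝ} (q1 : Antitone q) (q2 : q 0 ≤ 1 / 2) (q4 : Tendsto q atTop (𝓝 0))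
    {d : ℝ} (d0 : 0 ≤ d) : ∃ (ν : Measure ℕ) (F : ℕ → ℕ → ℝ) (D : ℝ), IsProbabilityMeasure ν ∧
      (∀ n, ν.real {j | n < j} = q n) ∧ Lw (fun n => q (n / 2)) (ν.map F) ∧ dp (ν.map F) ≠ ⊤ ∧
      (dp (ν.map F) : EReal) - (dm (ν.map F) : EReal) = d ∧ 0 ≤ D ∧
      (∀ j i, F j i ∈ Set.Icc (0 : ℝ) 1) ∧ (∀ j, ∃ m, F j ∉ Bs m) ∧ (∀ j n, psum (F j) n ≤ D) ∧
      ∀ j i, i < j → F j i = 0 := by
  obtain ⟨ν, _, hν⟩ := law_of q1 (by linarith) q4
  set D : ℝ := d / (1 - q 0) with hD
  have p0 : 0 < 1 - q 0 := by linarith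
  have D0 : 0 ≤ D := by positivity
  obtain ⟨l, hl⟩ := exists_nat_gt D
  have l0 : (0 : ℝ) < l := D0.trans_lt hl
  set c := (1 + D / l) / 2 with hc
  have c0 : 0 ≤ D / l := by positivity
  have c1 : D / l < 1 := (div_lt_one l0).2 hl
  have c2 : (2 * c - 1) * l = D := by
    rw [hc]
    field_simp
    ring
  set F : ℕ → ℕ → ℝ := fun j => if j = 0 then two c (1 / 2) l 0 else two 0 1 j (2 * j) with hF
  have mF : Measurable F := Measurable.of_discrete
  have : IsProbabilityMeasure (ν.map F) := Measure.isProbabilityMeasure_map mF.aemeasurable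
  have f0 : ∀ i, F 0 i ∈ Set.Ioo (0 : ℝ) 1 := fun i =>
    two_mem (A := Set.Ioo 0 1) ⟨by linarith, by linarith⟩ (by norm_num) (by norm_num) _ _ _
  have f1 : ∀ j i, F j i ∈ Set.Icc (0 : ℝ) 1 := fun j i => by
    rcases eq_or_ne j 0 with rfl | h
    · exact Set.Ioo_subset_Icc_self (f0 i)
    · simp only [hF, if_neg h]
      exact two_mem (by norm_num) (by norm_num) (by norm_num) _ _ _
  have f2 : ∀ j n, F j ∈ Bs n → n < l ∨ n / 2 < j := fun j n h => by
    simp only [hF] at h
    split_ifs at h <;> have := two_Bs h <;> omega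
  have f3 : ∀ j, F j ∉ Bs (l + 2 * j) := fun j h => by have := f2 j _ h; omega
  have f5 : ∀ j, total (F j) = (({j | 0 < j}ᶜ : Set ℕ).indicator (fun _ => D) j : ℝ) := fun j => by
    rw [total_eq (f3 j)]
    congr 1
    by_cases h : j = 0
    · subst h
      simp only [hF, if_true, two_psum]
      simp [c2]
    · rw [Set.indicator_of_notMem (by simpa using h)]
      simp only [hF, if_neg h, two_psum]
      rw [show min (l + 2 * j) j = j by omega, show min (l + 2 * j) (2 * j) - j = j by omega]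
      ring
  have ms : ∀ A : Set ℕ, MeasurableSet A := fun A => (Set.to_countable _).measurableSet
  obtain ⟨d1, d2, d3⟩ := drift_int (P0 := ν.map F) (S := fun w => (total w).toReal)
    ((ae_rng ν F).mono fun w ⟨j, hj⟩ => by rw [← hj, f5]; rfl)
    ((integrable_map_measure meas_total.ereal_toReal.aestronglyMeasurable mF.aemeasurable).2 (by
      simp only [Function.comp_def, f5, EReal.toReal_coe]
      exact (integrable_const D).indicator (ms _)))
  rw [integral_map mF.aemeasurable meas_total.ereal_toReal.aestronglyMeasurable] at d3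
  simp only [f5, EReal.toReal_coe, integral_indicator_const _ (ms _),
    probReal_compl_eq_one_sub (ms _), hν, smul_eq_mul] at d3
  rw [hD, mul_div_cancel₀ _ p0.ne'] at d3
  refine ⟨ν, F, D, inferInstance, hν, lw_map f1 f0 (by rw [hν]; linarith) (fun j => ⟨_, f3 j⟩) d2
    (by rw [d3]; exact_mod_cast d0) ?_, d1, d3, D0, f1, fun j => ⟨_, f3 j⟩, fun j n => ?_,
    fun j i hi => by simp only [hF, if_neg (show j ≠ 0 by omega), two, if_pos hi]⟩
  · filter_upwards [eventually_ge_atTop l] with n hn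
    rw [← hν]
    exact measureReal_mono fun j hj => (f2 j n hj).resolve_left (by omega)
  · by_cases h : j = 0
    · have h1 : ((min n l : ℕ) : ℝ) ≤ l := by exact_mod_cast min_le_right _ _
      have h2 := mul_le_mul_of_nonneg_left h1 (show 0 ≤ 2 * c - 1 by linarith)
      simp only [hF, if_pos h, two_psum]
      linarith
    · have : ((min n (2 * j) - j : ℕ) : ℝ) ≤ (min n j : ℕ) := by
        exact_mod_cast (show min n (2 * j) - j ≤ min n j by omega)
      simp only [hF, if_neg h, two_psum]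
      linarith

theorem stop_all {T : ℕ → ℝ} (ha : Antitone T) (h0 : ∀ n, 0 ≤ T n) (hs : ¬ Summable T) {k : ℕ}
    (hk : 1 ≤ k) {d : ℝ} (d0 : 0 ≤ d) : ∃ P0 : Measure (ℕ → ℝ), IsProbabilityMeasure P0 ∧ Lw T P0 ∧
      (dp P0 : EReal) - (dm P0 : EReal) = d ∧ Dec P0 k fun q => ¬ Tr q := by
  obtain ⟨q, q1, q0, q2, q3, q4, q5⟩ := thin ha h0 hs
  obtain ⟨ν, F, D, _, hν, L1, d1, d3, D0, f1, f3, f4, f6⟩ := dip q1 q2 (squeeze_zero q0
    (fun n => le_mul_of_one_le_left (q0 n) (by linarith [Nat.cast_nonneg (α := ℝ) n])) q4) d0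
  have mF : Measurable F := Measurable.of_discrete
  have : IsProbabilityMeasure (ν.map F) := Measure.isProbabilityMeasure_map mF.aemeasurable
  have ms : ∀ A : Set ℕ, MeasurableSet A := fun A => (Set.to_countable _).measurableSet
  have t3 : Tendsto (fun z : ℕ => z / 2) atTop atTop :=
    tendsto_atTop_atTop.2 fun b => ⟨2 * b, fun a ha => by omega⟩
  have L2 : Tendsto (fun n : ℕ => n * q (n / 2)) atTop (𝓝 0) := by
    refine squeeze_zero (fun n => mul_nonneg (by positivity) (q0 _)) (fun n => ?_)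
      (by simpa using (q4.comp t3).const_mul 2)
    have : (n : ℝ) ≤ 2 * ((n / 2 : ℕ) + 1) := by exact_mod_cast (show n ≤ 2 * (n / 2 + 1) by omega)
    nlinarith [q0 (n / 2)]
  refine ⟨ν.map F, this, L1.mono (Eventually.of_forall fun n => (q3 _).trans (ha (by omega))),
    d3, core_kill L1.in01 hk hk ?_ (left_kill L1 L2 d1).1⟩
  set g : ℕ → ℝ := fun i => ν.real {j | i ≤ j} with hg
  have g1 : Antitone g := fun m n h => measureReal_mono fun j hj => h.trans hj
  have g0 : ∀ i, 0 ≤ g i := fun i => measureReal_nonneg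
  have g2 : Tendsto (fun x => ∑ i ∈ range x, g i) atTop atTop :=
    (not_summable_iff_tendsto_nat_atTop_of_nonneg g0).1 fun h =>
      q5 (((summable_nat_add_iff 1).2 h).congr fun n => hν n)
  refine kill_of L1.in01 L1.wl ((ae_rng ν F).mono fun w ⟨j, hj⟩ => hj ▸ f3 j) le_rfl
    (fun x => sum_nonneg fun i _ => g0 i) rfl g2 ?_
  filter_upwards [g2.eventually_ge_atTop D] with z z1 N _
  have i1 := (Ex_Qa (ν.map F) z N fun a _ => ∑ i ∈ range a, g i).2.1
  have i2 : Integrable (({j | z ≤ j} : Set ℕ).indicator fun _ => ∑ i ∈ range z, g i) ν :=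
    (integrable_const _).indicator (ms _)
  rw [Nat.add_sub_cancel, integral_map mF.aemeasurable i1.1]
  refine (integral_mono (g := fun j => (∑ i ∈ range z, g i + g z * D) -
    ({j | z ≤ j} : Set ℕ).indicator (fun _ => ∑ i ∈ range z, g i) j)
    ((integrable_map_measure i1.1 mF.aemeasurable).1 i1) ((integrable_const _).sub i2)
    fun j => ?_).trans ?_
  · by_cases h : z ≤ j
    · simp only [Function.comp]
      rw [Ex_dead (fun i hi => f6 j i (hi.trans_le h)),
        Set.indicator_of_mem (show j ∈ {j | z ≤ j} from h)]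
      simpa using mul_nonneg (g0 z) D0
    · simp only [Function.comp]
      rw [Set.indicator_of_notMem (show j ∉ {j | z ≤ j} from h)]
      simpa using jensen g1 g0 (f1 j) (N := N) (fun n _ => f4 j n) z z
  · rw [integral_sub (integrable_const _) i2, integral_indicator_const _ (ms _)]
    simp only [integral_const, probReal_univ, smul_eq_mul, one_mul]
    linarith [mul_le_mul_of_nonneg_left z1 (g0 z)]

theorem forced {T : ℕ → ℝ} (ha : Antitone T) (h0 : ∀ n, 0 ≤ T n) {k : ℕ} (hk : 1 ≤ k) {d : ℝ}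
    (d0 : 0 ≤ d) : (∀ P, Law T P → drift P = d → Always P k) ↔ k < d ∧ Summable T := by
  refine ⟨fun h => ⟨not_le.1 fun hd => ?_, not_not.1 fun hs => ?_⟩, fun h P hP hd => ?_⟩
  · obtain ⟨ν, F, D, _, -, L1, -, d3, -⟩ := dip (q := fun _ => 0) antitone_const (by norm_num)
      tendsto_const_nhds d0
    have : IsProbabilityMeasure (ν.map F) :=
      Measure.isProbabilityMeasure_map Measurable.of_discrete.aemeasurable
    have L2 := L1.mono (T' := fun n => 1 / ((n : ℝ) * Real.log n ^ 2))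
      (Eventually.of_forall fun n => by positivity)
    have h3 : (dp (ν.map F) : EReal) - (dm (ν.map F) : EReal) ≤ k := by
      rw [d3]
      exact_mod_cast hd
    have h4 := h3.lt_or_eq.elim (off_crit L2 tl_summ hk).2 (crit_pos L2 hk)
    obtain ⟨P, hP, e⟩ := (L1.mono (Eventually.of_forall h0)).up
    exact not_both hP (h P hP (by rw [drift_eq, e, d3])) (hP.dec.2 (e ▸ h4))
  · obtain ⟨P0, _, h1, h2, h3⟩ := stop_all ha h0 hs hk d0
    obtain ⟨P, hP, rfl⟩ := h1.up
    exact not_both hP (h P hP (drift_eq P ▸ h2)) (hP.dec.2 h3)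
  · exact (below_iff ha h0 hk).2 h.2 P hP (by rw [hd]; exact_mod_cast h.1)

end Pool.Agent.P.MP_c7fa75_pr.HT
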